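import Pool.Agent.Lib.MP_c80ac4_an.CN.Cross

/-! The barrier estimate: a Bloch type function on the right half plane which is bounded by `M` on a
path crossing a low rectangle is bounded by `2M + 9B` above the path. -/

namespace GapForcing

open Set Metric

/-- the open square -/
def sq (xL W : ℝ) : Set ℂ := {w | 0 < w.re ∧ w.re < W ∧ xL < w.im ∧ w.im < xL + W}

lemma isOpen_sq (xL W : ℝ) : IsOpen (sq xL W) := by
  unfold sq
  simp only [Set.ofPred_and]
  exact (isOpen_lt continuous_const Complex.continuous_re).inter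
    ((isOpen_lt Complex.continuous_re continuous_const).inter
    ((isOpen_lt continuous_const Complex.continuous_im).inter
    (isOpen_lt Complex.continuous_im continuous_const)))

lemma closure_sq_subset (xL W : ℝ) :
    closure (sq xL W) ⊆ {w | 0 ≤ w.re ∧ w.re ≤ W ∧ xL ≤ w.im ∧ w.im ≤ xL + W} := by
  apply closure_minimal
  · rintro w ⟨h1, h2, h3, h4⟩
    exact ⟨h1.le, h2.le, h3.le, h4.le⟩
  · simp only [Set.ofPred_and]
    exact (isClosed_le continuous_const Complex.continuous_re).inter
      ((isClosed_le Complex.continuous_re continuous_const).inter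
      ((isClosed_le continuous_const Complex.continuous_im).inter
      (isClosed_le Complex.continuous_im continuous_const)))

lemma isBounded_sq (xL W : ℝ) : Bornology.IsBounded (sq xL W) := by
  rw [isBounded_iff_forall_norm_le]
  refine ⟨|W| + (|xL| + |W|), ?_⟩
  rintro w ⟨h1, h2, h3, h4⟩
  have hre : |w.re| ≤ |W| := by
    rw [abs_of_pos h1]
    exact h2.le.trans (le_abs_self W)
  have him : |w.im| ≤ |xL| + |W| := by
    rw [abs_le]
    have := neg_abs_le xL
    have := le_abs_self xL
    have := le_abs_self W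
    have := abs_nonneg W
    constructor <;> linarith
  exact (Complex.norm_le_abs_re_add_abs_im w).trans (add_le_add hre him)

/-- frontier of a component -/
lemma frontier_component {U : Set ℂ} (hU : IsOpen U) (P : ℂ) :
    ∀ w ∈ frontier (connectedComponentIn U P), w ∉ U := by
  intro w hw hwU
  have hVo : IsOpen (connectedComponentIn U P) := hU.connectedComponentIn
  have hVo' : IsOpen (connectedComponentIn U w) := hU.connectedComponentIn
  have hwV' : w ∈ connectedComponentIn U w := mem_connectedComponentIn hwU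
  have hcl : w ∈ closure (connectedComponentIn U P) := frontier_subset_closure hw
  obtain ⟨x, hx1, hx2⟩ := mem_closure_iff.1 hcl _ hVo' hwV'
  have e1 := connectedComponentIn_eq hx1
  have e2 := connectedComponentIn_eq hx2
  rw [hVo.frontier_eq] at hw
  apply hw.2
  rw [e2, ← e1]
  exact hwV'

/-- The component of `P` above the path does not reach below it. -/
lemma component_above {γ : ℝ → ℂ} (hγ : ContinuousOn γ (Icc 0 1)) {xL W y0 : ℝ}
    (h0 : (γ 0).im = xL) (h1 : (γ 1).im = xL + W)
    (hy : ∀ s ∈ Icc (0:ℝ) 1, y0 ≤ (γ s).re) {P : ℂ} (hP : P ∈ sq xL W)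
    (hh : ∀ s ∈ Icc (0:ℝ) 1, (γ s).re < P.re) :
    ∀ w ∈ connectedComponentIn (sq xL W \ γ '' Icc 0 1) P, y0 ≤ w.re := by
  intro w hw
  by_contra hlt
  push Not at hlt
  set U := sq xL W \ γ '' Icc 0 1 with hU
  have hcomp : IsCompact (γ '' Icc 0 1) := isCompact_Icc.image_of_continuousOn hγ
  have hUo : IsOpen U := (isOpen_sq xL W).sdiff hcomp.isClosed
  have hPU : P ∈ U := by
    refine ⟨hP, ?_⟩
    rintro ⟨s, hs, rfl⟩
    exact lt_irrefl _ (hh s hs)
  have hVo : IsOpen (connectedComponentIn U P) := hUo.connectedComponentIn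
  have hVc : IsConnected (connectedComponentIn U P) :=
    ⟨⟨w, hw⟩, isPreconnected_connectedComponentIn⟩
  have hpc := (hVo.isConnected_iff_isPathConnected).1 hVc
  obtain ⟨p, hp⟩ := hpc.joinedIn w hw P (mem_connectedComponentIn hPU)
  have hpe : ∀ t ∈ Icc (0:ℝ) 1, p.extend t ∈ U := by
    intro t ht
    rw [p.extend_apply ht]
    exact connectedComponentIn_subset _ _ (hp ⟨t, ht⟩)
  obtain ⟨s, hs, t, ht, hst⟩ := crossing (v := p.extend) hγ p.continuous_extend.continuousOn
    (fun t ht => by rw [h0]; exact (hpe t ht).1.2.2.1.le)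
    (fun t ht => by rw [h1]; exact (hpe t ht).1.2.2.2.le)
    (fun s hs => by rw [p.extend_zero]; exact hlt.le.trans (hy s hs))
    (fun s hs => by rw [p.extend_one]; exact (hh s hs).le)
  exact (hpe t ht).2 ⟨s, hs, hst⟩

section Variation

variable {F : ℂ → ℂ} {B : ℝ}

/-- vertical variation (in the height) -/
lemma vert_bound (hd : ∀ w : ℂ, 0 < w.re → DifferentiableAt ℂ F w)
    (hF' : ∀ w : ℂ, 0 < w.re → ‖deriv F w‖ ≤ B / w.re) {y1 y2 x : ℝ} (h1 : 0 < y1)
    (h12 : y1 ≤ y2) :
    ‖F (y1 + x * Complex.I) - F (y2 + x * Complex.I)‖ ≤ B * (Real.log y2 - Real.log y1) := by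
  let g : ℝ → ℂ := fun s => F (((Real.exp s : ℝ) : ℂ) + x * Complex.I)
  have hre : ∀ s : ℝ, ((((Real.exp s : ℝ) : ℂ) + x * Complex.I)).re = Real.exp s := by
    intro s; simp [Complex.exp_ofReal_re]
  have hderiv : ∀ s : ℝ, HasDerivAt g
      (deriv F (((Real.exp s : ℝ) : ℂ) + x * Complex.I) * ((Real.exp s : ℝ) : ℂ)) s := by
    intro s
    have hF := (hd (((Real.exp s : ℝ) : ℂ) + x * Complex.I)
      (by rw [hre]; exact Real.exp_pos s)).hasDerivAt
    have h2 : HasDerivAt (fun s : ℝ => (((Real.exp s : ℝ) : ℂ) + x * Complex.I))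
        ((Real.exp s : ℝ) : ℂ) s :=
      ((Real.hasDerivAt_exp s).ofReal_comp).add_const _
    exact hF.comp s h2
  have hb : ∀ s : ℝ, ‖deriv F (((Real.exp s : ℝ) : ℂ) + x * Complex.I) *
      ((Real.exp s : ℝ) : ℂ)‖ ≤ B := by
    intro s
    rw [norm_mul, Complex.norm_real, Real.norm_of_nonneg (Real.exp_pos s).le]
    have := hF' (((Real.exp s : ℝ) : ℂ) + x * Complex.I) (by rw [hre]; exact Real.exp_pos s)
    rw [hre, le_div_iff₀ (Real.exp_pos s)] at this
    exact this
  have key := Convex.norm_image_sub_le_of_norm_hasDerivWithin_le (f := g) (s := Set.univ)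
    (fun s _ => (hderiv s).hasDerivWithinAt) (fun s _ => hb s) convex_univ
    (Set.mem_univ (Real.log y2)) (Set.mem_univ (Real.log y1))
  have h2 : 0 < y2 := h1.trans_le h12
  simp only [g, Real.exp_log h1, Real.exp_log h2] at key
  have h3 : Real.log y1 ≤ Real.log y2 := Real.log_le_log h1 h12
  rw [Real.norm_eq_abs, abs_sub_comm, abs_of_nonneg (by linarith)] at key
  exact key

/-- horizontal variation -/
lemma horiz_bound (hd : ∀ w : ℂ, 0 < w.re → DifferentiableAt ℂ F w)
    (hF' : ∀ w : ℂ, 0 < w.re → ‖deriv F w‖ ≤ B / w.re) {y x1 x2 : ℝ} (hy : 0 < y) :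
    ‖F (y + x1 * Complex.I) - F (y + x2 * Complex.I)‖ ≤ B / y * |x1 - x2| := by
  let g : ℝ → ℂ := fun s => F ((y : ℂ) + (s : ℂ) * Complex.I)
  have hre : ∀ s : ℝ, ((y : ℂ) + (s : ℂ) * Complex.I).re = y := by
    intro s; simp [Complex.exp_ofReal_re]
  have hderiv : ∀ s : ℝ, HasDerivAt g (deriv F ((y : ℂ) + (s : ℂ) * Complex.I) *
      Complex.I) s := by
    intro s
    have hF := (hd ((y : ℂ) + (s : ℂ) * Complex.I) (by rw [hre]; exact hy)).hasDerivAt
    have h2 : HasDerivAt (fun s : ℝ => ((y : ℂ) + (s : ℂ) * Complex.I)) (Complex.I) s := by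
      have := ((hasDerivAt_id s).ofReal_comp.mul_const Complex.I).const_add (y : ℂ)
      simpa using this
    exact hF.comp s h2
  have hb : ∀ s : ℝ, ‖deriv F ((y : ℂ) + (s : ℂ) * Complex.I) * Complex.I‖ ≤ B / y := by
    intro s
    rw [norm_mul, Complex.norm_I, mul_one]
    have := hF' ((y : ℂ) + (s : ℂ) * Complex.I) (by rw [hre]; exact hy)
    rwa [hre] at this
  have key := Convex.norm_image_sub_le_of_norm_hasDerivWithin_le (f := g) (s := Set.univ)
    (fun s _ => (hderiv s).hasDerivWithinAt) (fun s _ => hb s) convex_univ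
    (Set.mem_univ x2) (Set.mem_univ x1)
  rw [Real.norm_eq_abs] at key
  exact key

end Variation

end GapForcing
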