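import Pool.Agent.Lib.MP_c80ac4_an.CN.Barrier

/-! The barrier estimate, main theorem. -/

namespace GapForcing

open Set Metric

lemma arctan_le_self' {x : ℝ} (hx : 0 ≤ x) : Real.arctan x ≤ x := by
  rcases hx.eq_or_lt with h | h
  · rw [← h]; simp
  · have h1 : 0 < Real.arctan x := Real.arctan_pos.2 h
    have h2 := Real.lt_tan h1 (Real.arctan_lt_pi_div_two x)
    rw [Real.tan_arctan] at h2
    exact h2.le

/-- `1 - (2/π) arg ≥ 0` in the right half plane -/
lemma arg_bound {z : ℂ} (hz : 0 < z.re) : |z.arg| ≤ Real.pi / 2 :=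
  (Complex.abs_arg_lt_pi_div_two_iff.2 (Or.inl hz)).le

lemma arg_mid {W : ℝ} (hW : 0 < W) :
    1 - 2 / Real.pi * (((W / 8 : ℝ) : ℂ) + ((W / 2 : ℝ) : ℂ) * Complex.I).arg ≤ 1 / 6 := by
  set z : ℂ := ((W / 8 : ℝ) : ℂ) + ((W / 2 : ℝ) : ℂ) * Complex.I with hz
  have hre : z.re = W / 8 := by simp [hz]
  have him : z.im = W / 2 := by simp [hz]
  have hz0 : 0 < z.re := by rw [hre]; positivity
  have habs := Complex.abs_arg_lt_pi_div_two_iff.2 (Or.inl hz0)
  rw [abs_lt] at habs
  have htan : Real.tan z.arg = 4 := by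
    rw [Complex.tan_arg, hre, him]
    field_simp
    norm_num
  have harg : z.arg = Real.arctan 4 := by
    rw [← htan, Real.arctan_tan habs.1 habs.2]
  have h4 : Real.arctan 4 = Real.pi / 2 - Real.arctan (1 / 4) := by
    have := Real.arctan_inv_of_pos (x := 1 / 4) (by norm_num)
    rw [← this]
    norm_num
  have h5 : Real.arctan (1 / 4) ≤ 1 / 4 := arctan_le_self' (by norm_num)
  have hpi := Real.pi_gt_three
  have hpi0 := Real.pi_pos
  rw [harg, h4]
  have e : 1 - 2 / Real.pi * (Real.pi / 2 - Real.arctan (1 / 4)) =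
      2 / Real.pi * Real.arctan (1 / 4) := by
    field_simp
    ring
  rw [e, div_mul_eq_mul_div, div_le_iff₀ hpi0]
  linarith

/-- **Barrier estimate.** -/
theorem barrier {F : ℂ → ℂ} {B M : ℝ} (hB : 0 ≤ B)
    (hd : ∀ w : ℂ, 0 < w.re → DifferentiableAt ℂ F w)
    (hF' : ∀ w : ℂ, 0 < w.re → ‖deriv F w‖ ≤ B / w.re)
    {γ : ℝ → ℂ} (hγ : ContinuousOn γ (Icc 0 1)) {xL W : ℝ} (hW : 0 < W)
    (h0 : (γ 0).im = xL) (h1 : (γ 1).im = xL + W)
    (hpos : ∀ s ∈ Icc (0:ℝ) 1, 0 < (γ s).re) (hlow : ∀ s ∈ Icc (0:ℝ) 1, (γ s).re < W / 8)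
    (hM : ∀ s ∈ Icc (0:ℝ) 1, ‖F (γ s)‖ ≤ M) :
    ‖F (((W / 8 : ℝ) : ℂ) + ((xL + W / 2 : ℝ) : ℂ) * Complex.I)‖ ≤ 2 * M + 9 * B := by
  have hM0 : 0 ≤ M := (norm_nonneg _).trans (hM 0 ⟨le_rfl, zero_le_one⟩)
  set P : ℂ := ((W / 8 : ℝ) : ℂ) + ((xL + W / 2 : ℝ) : ℂ) * Complex.I with hP
  have hPre : P.re = W / 8 := by simp [hP]
  have hPim : P.im = xL + W / 2 := by simp [hP]
  -- minimal height
  obtain ⟨s0, hs0, hmin⟩ := isCompact_Icc.exists_isMinOn (s := Icc (0:ℝ) 1) ⟨0, by simp⟩
    (Complex.continuous_re.comp_continuousOn hγ)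
  set y0 := (γ s0).re with hy0
  have hy0pos : 0 < y0 := hpos s0 hs0
  have hymin : ∀ s ∈ Icc (0:ℝ) 1, y0 ≤ (γ s).re := fun s hs => hmin hs
  have hPsq : P ∈ sq xL W := by
    refine ⟨?_, ?_, ?_, ?_⟩
    · rw [hPre]; linarith
    · rw [hPre]; linarith
    · rw [hPim]; linarith
    · rw [hPim]; linarith
  have hPγ : ∀ s ∈ Icc (0:ℝ) 1, (γ s).re < P.re := by rw [hPre]; exact hlow
  set U := sq xL W \ γ '' Icc 0 1 with hU
  have hcomp : IsCompact (γ '' Icc 0 1) := isCompact_Icc.image_of_continuousOn hγ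
  have hUo : IsOpen U := (isOpen_sq xL W).sdiff hcomp.isClosed
  have hPU : P ∈ U := by
    refine ⟨hPsq, ?_⟩
    rintro ⟨s, hs, hse⟩
    have := hPγ s hs
    rw [hse] at this
    exact lt_irrefl _ this
  set V := connectedComponentIn U P with hV
  have hVsub : V ⊆ sq xL W := (connectedComponentIn_subset _ _).trans sdiff_subset
  have habove : ∀ w ∈ V, y0 ≤ w.re := component_above hγ h0 h1 hymin hPsq hPγ
  have hclV : ∀ w ∈ closure V, y0 ≤ w.re ∧ w.re ≤ W ∧ xL ≤ w.im ∧ w.im ≤ xL + W := by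
    intro w hw
    have h2 := closure_sq_subset xL W (closure_mono hVsub hw)
    have h3 : w ∈ {w : ℂ | y0 ≤ w.re} := by
      apply closure_minimal habove (isClosed_le continuous_const Complex.continuous_re) hw
    exact ⟨h3, h2.2.1, h2.2.2.1, h2.2.2.2⟩
  -- the value at P
  set m0 := ‖F P‖ with hm0
  set m' := m0 + B * (1 / 2 + Real.log 8) with hm'
  have hlog8 : 0 ≤ Real.log 8 := Real.log_nonneg (by norm_num)
  have hm'0 : 0 ≤ m' := by have := norm_nonneg (F P); positivity
  -- value on the top side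
  have htop : ∀ x : ℝ, xL ≤ x → x ≤ xL + W → ‖F ((W : ℂ) + (x : ℂ) * Complex.I)‖ ≤ m' := by
    intro x hx1 hx2
    have a1 := horiz_bound hd hF' (y := W) (x1 := x) (x2 := xL + W / 2) hW
    have a2 := vert_bound hd hF' (y1 := W / 8) (y2 := W) (x := xL + W / 2) (by positivity)
      (by linarith)
    have a3 : |x - (xL + W / 2)| ≤ W / 2 := by rw [abs_le]; constructor <;> linarith
    have a4 : B / W * |x - (xL + W / 2)| ≤ B / 2 := by
      calc B / W * |x - (xL + W / 2)| ≤ B / W * (W / 2) := by gcongr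
        _ = B / 2 := by field_simp
    have a5 : Real.log W - Real.log (W / 8) = Real.log 8 := by
      rw [Real.log_div hW.ne' (by norm_num)]; ring
    rw [a5] at a2
    have a6 : F (((W / 8 : ℝ) : ℂ) + ((xL + W / 2 : ℝ) : ℂ) * Complex.I) = F P := rfl
    calc ‖F ((W : ℂ) + (x : ℂ) * Complex.I)‖
        = ‖(F ((W : ℂ) + (x : ℂ) * Complex.I) - F ((W : ℂ) + ((xL + W / 2 : ℝ) : ℂ) * Complex.I))
          - (F (((W / 8 : ℝ) : ℂ) + ((xL + W / 2 : ℝ) : ℂ) * Complex.I) -
            F ((W : ℂ) + ((xL + W / 2 : ℝ) : ℂ) * Complex.I)) + F P‖ := by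
          rw [a6]; congr 1; ring
      _ ≤ _ := (norm_add_le _ _).trans (add_le_add (norm_sub_le _ _) le_rfl)
      _ ≤ B / 2 + B * Real.log 8 + m0 := by
          gcongr
          exact a1.trans a4
      _ = m' := by rw [hm']; ring
  -- value on the lateral sides
  have hside : ∀ x y : ℝ, xL ≤ x → x ≤ xL + W → 0 < y → y ≤ W →
      ‖F ((y : ℂ) + (x : ℂ) * Complex.I)‖ ≤ m' + B * (Real.log W - Real.log y) := by
    intro x y hx1 hx2 hy hyW
    have a1 := vert_bound hd hF' (y1 := y) (y2 := W) (x := x) hy hyW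
    have a2 := htop x hx1 hx2
    calc ‖F ((y : ℂ) + (x : ℂ) * Complex.I)‖
        = ‖(F ((y : ℂ) + (x : ℂ) * Complex.I) - F ((W : ℂ) + (x : ℂ) * Complex.I)) +
          F ((W : ℂ) + (x : ℂ) * Complex.I)‖ := by congr 1; ring
      _ ≤ _ := norm_add_le _ _
      _ ≤ B * (Real.log W - Real.log y) + m' := add_le_add a1 a2
      _ = _ := by ring
  -- the analytic barrier
  let ζL : ℂ → ℂ := fun w => w - (xL : ℂ) * Complex.I
  let ζR : ℂ → ℂ := fun w => w - ((xL + W : ℝ) : ℂ) * Complex.I
  have hζLre : ∀ w, (ζL w).re = w.re := by intro w; simp [ζL]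
  have hζRre : ∀ w, (ζR w).re = w.re := by intro w; simp [ζR]
  have hζLim : ∀ w, (ζL w).im = w.im - xL := by intro w; simp [ζL]
  have hζRim : ∀ w, (ζR w).im = w.im - (xL + W) := by intro w; simp [ζR]
  let Ub : ℂ → ℂ := fun w => (M : ℂ) + (m' : ℂ) * (w / (W : ℂ) +
      (1 + (2 / Real.pi : ℝ) * (Complex.I * Complex.log (ζL w))) +
      (1 - (2 / Real.pi : ℝ) * (Complex.I * Complex.log (ζR w)))) +
    (B : ℂ) * ((2 * Real.log (2 * W) : ℝ) - Complex.log (ζL w) - Complex.log (ζR w))
  have hUbre : ∀ w, (Ub w).re = M + m' * (w.re / W + (1 - 2 / Real.pi * (ζL w).arg) +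
      (1 + 2 / Real.pi * (ζR w).arg)) +
      B * (2 * Real.log (2 * W) - Real.log ‖ζL w‖ - Real.log ‖ζR w‖) := by
    intro w
    have e1 : (w / (W : ℂ)).re = w.re / W := Complex.div_ofReal_re w W
    have e2 : (((2 / Real.pi : ℝ) : ℂ) * (Complex.I * Complex.log (ζL w))).re =
        -(2 / Real.pi * (ζL w).arg) := by
      rw [Complex.re_ofReal_mul]
      simp [Complex.log_im]
    have e3 : (((2 / Real.pi : ℝ) : ℂ) * (Complex.I * Complex.log (ζR w))).re =
        -(2 / Real.pi * (ζR w).arg) := by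
      rw [Complex.re_ofReal_mul]
      simp [Complex.log_im]
    simp only [Ub]
    rw [Complex.add_re, Complex.add_re, Complex.re_ofReal_mul, Complex.re_ofReal_mul,
      Complex.add_re, Complex.add_re, Complex.add_re, Complex.sub_re, Complex.sub_re,
      Complex.sub_re, e1, e2, e3, Complex.log_re, Complex.log_re, Complex.ofReal_re,
      Complex.ofReal_re, Complex.one_re]
    ring
  have hlog : ∀ w ∈ closure V, Real.log ‖ζL w‖ ≤ Real.log (2 * W) ∧
      Real.log ‖ζR w‖ ≤ Real.log (2 * W) := by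
    intro w hw
    obtain ⟨b1, b2, b3, b4⟩ := hclV w hw
    have hre0 : 0 < w.re := hy0pos.trans_le b1
    constructor
    · apply Real.log_le_log
      · apply norm_pos_iff.2
        intro h
        have := hζLre w
        rw [h] at this
        simp at this
        linarith
      · refine (Complex.norm_le_abs_re_add_abs_im _).trans ?_
        rw [hζLre, hζLim, abs_of_pos hre0, abs_of_nonneg (by linarith)]
        linarith
    · apply Real.log_le_log
      · apply norm_pos_iff.2
        intro h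
        have := hζRre w
        rw [h] at this
        simp at this
        linarith
      · refine (Complex.norm_le_abs_re_add_abs_im _).trans ?_
        rw [hζRre, hζRim, abs_of_pos hre0, abs_of_nonpos (by linarith)]
        linarith
  have hpi0 := Real.pi_pos
  have harg : ∀ w ∈ closure V, 0 ≤ 1 - 2 / Real.pi * (ζL w).arg ∧
      0 ≤ 1 + 2 / Real.pi * (ζR w).arg := by
    intro w hw
    obtain ⟨b1, b2, b3, b4⟩ := hclV w hw
    have hre0 : 0 < w.re := hy0pos.trans_le b1
    have c1 := abs_le.1 (arg_bound (z := ζL w) (by rw [hζLre]; exact hre0))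
    have c2 := abs_le.1 (arg_bound (z := ζR w) (by rw [hζRre]; exact hre0))
    constructor
    · have : 2 / Real.pi * (ζL w).arg ≤ 2 / Real.pi * (Real.pi / 2) := by
        apply mul_le_mul_of_nonneg_left c1.2 (by positivity)
      have e : 2 / Real.pi * (Real.pi / 2) = 1 := by field_simp
      linarith
    · have : 2 / Real.pi * (-(Real.pi / 2)) ≤ 2 / Real.pi * (ζR w).arg := by
        apply mul_le_mul_of_nonneg_left c2.1 (by positivity)
      have e : 2 / Real.pi * (-(Real.pi / 2)) = -1 := by field_simp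
      linarith
  -- the estimate on the frontier
  have hfr : ∀ w ∈ frontier V, ‖F w‖ ≤ (Ub w).re := by
    intro w hw
    have hwcl : w ∈ closure V := frontier_subset_closure hw
    obtain ⟨b1, b2, b3, b4⟩ := hclV w hwcl
    obtain ⟨l1, l2⟩ := hlog w hwcl
    obtain ⟨g1, g2⟩ := harg w hwcl
    have hre0 : 0 < w.re := hy0pos.trans_le b1
    have hnU : w ∉ U := frontier_component hUo P w hw
    have hwW : 0 ≤ w.re / W := by positivity
    rw [hUbre]
    have hB1 : 0 ≤ B * (Real.log (2 * W) - Real.log ‖ζL w‖) := mul_nonneg hB (by linarith)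
    have hB2 : 0 ≤ B * (Real.log (2 * W) - Real.log ‖ζR w‖) := mul_nonneg hB (by linarith)
    have hw_eq : w = (w.re : ℂ) + (w.im : ℂ) * Complex.I := (Complex.re_add_im w).symm
    by_cases hγw : w ∈ γ '' Icc 0 1
    · obtain ⟨s, hs, rfl⟩ := hγw
      have := hM s hs
      have h5 : 0 ≤ m' * ((γ s).re / W + (1 - 2 / Real.pi * (ζL (γ s)).arg) +
        (1 + 2 / Real.pi * (ζR (γ s)).arg)) := by positivity
      nlinarith
    · have hnsq : w ∉ sq xL W := fun h => hnU ⟨h, hγw⟩
      have hcases : w.re = W ∨ w.im = xL ∨ w.im = xL + W := by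
        by_contra hcon
        push Not at hcon
        exact hnsq ⟨hre0, lt_of_le_of_ne b2 hcon.1, lt_of_le_of_ne b3 (Ne.symm hcon.2.1),
          lt_of_le_of_ne b4 hcon.2.2⟩
      rcases hcases with h | h | h
      · -- top
        have h5 := htop w.im b3 b4
        rw [h] at hw_eq
        rw [← hw_eq] at h5
        have h6 : w.re / W = 1 := by rw [h]; field_simp
        rw [h6]
        have h7 : 0 ≤ m' * (1 - 2 / Real.pi * (ζL w).arg) := mul_nonneg hm'0 g1
        have h8 : 0 ≤ m' * (1 + 2 / Real.pi * (ζR w).arg) := mul_nonneg hm'0 g2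
        nlinarith
      · -- left
        have h5 := hside w.im w.re b3 b4 hre0 b2
        rw [← hw_eq] at h5
        have h6 : ζL w = (w.re : ℂ) := by
          apply Complex.ext
          · rw [hζLre]; simp
          · rw [hζLim, h]; simp
        have h7 : (ζL w).arg = 0 := by rw [h6]; exact Complex.arg_ofReal_of_nonneg hre0.le
        have h8 : ‖ζL w‖ = w.re := by
          rw [h6, Complex.norm_real, Real.norm_of_nonneg hre0.le]
        rw [h7, h8]
        have h9 : Real.log (2 * W) = Real.log 2 + Real.log W := Real.log_mul (by norm_num) hW.ne'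
        have h10 : 0 ≤ Real.log 2 := Real.log_nonneg (by norm_num)
        have h11 : 0 ≤ m' * (w.re / W) := mul_nonneg hm'0 hwW
        have h12 : 0 ≤ m' * (1 + 2 / Real.pi * (ζR w).arg) := mul_nonneg hm'0 g2
        have h13 : 0 ≤ B * Real.log 2 := mul_nonneg hB h10
        rw [h9] at hB2 ⊢
        nlinarith
      · -- right
        have h5 := hside w.im w.re b3 b4 hre0 b2
        rw [← hw_eq] at h5
        have h6 : ζR w = (w.re : ℂ) := by
          apply Complex.ext
          · rw [hζRre]; simp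
          · rw [hζRim, h]; simp
        have h7 : (ζR w).arg = 0 := by rw [h6]; exact Complex.arg_ofReal_of_nonneg hre0.le
        have h8 : ‖ζR w‖ = w.re := by
          rw [h6, Complex.norm_real, Real.norm_of_nonneg hre0.le]
        rw [h7, h8]
        have h9 : Real.log (2 * W) = Real.log 2 + Real.log W := Real.log_mul (by norm_num) hW.ne'
        have h10 : 0 ≤ Real.log 2 := Real.log_nonneg (by norm_num)
        have h11 : 0 ≤ m' * (w.re / W) := mul_nonneg hm'0 hwW
        have h12 : 0 ≤ m' * (1 - 2 / Real.pi * (ζL w).arg) := mul_nonneg hm'0 g1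
        have h13 : 0 ≤ B * Real.log 2 := mul_nonneg hB h10
        rw [h9] at hB1 ⊢
        nlinarith
  -- unimodular factor
  obtain ⟨c, hc, hcF⟩ : ∃ c : ℂ, ‖c‖ = 1 ∧ (c * F P).re = ‖F P‖ := by
    by_cases hz : F P = 0
    · exact ⟨1, by simp, by simp [hz]⟩
    · refine ⟨(starRingEnd ℂ) (F P) / ‖F P‖, ?_, ?_⟩
      · rw [norm_div, RCLike.norm_conj, Complex.norm_real, norm_norm]
        exact div_self (norm_ne_zero_iff.2 hz)
      · have e : (starRingEnd ℂ) (F P) / ‖F P‖ * F P = ((‖F P‖ : ℝ) : ℂ) := by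
          rw [div_mul_eq_mul_div, mul_comm ((starRingEnd ℂ) (F P)), Complex.mul_conj,
            Complex.normSq_eq_norm_sq]
          have : ((‖F P‖ : ℝ) : ℂ) ≠ 0 := by exact_mod_cast norm_ne_zero_iff.2 hz
          push_cast
          field_simp
        rw [e, Complex.ofReal_re]
  let G : ℂ → ℂ := fun w => Complex.exp (c * F w - Ub w)
  have hGd : DiffContOnCl ℂ G V := by
    apply DifferentiableOn.diffContOnCl
    intro w hw
    apply DifferentiableAt.differentiableWithinAt
    have hre0 : 0 < w.re := hy0pos.trans_le (hclV w hw).1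
    have d1 : DifferentiableAt ℂ (fun w => Complex.log (ζL w)) w := by
      apply DifferentiableAt.clog
      · exact differentiableAt_id.sub_const _
      · left; rw [hζLre]; exact hre0
    have d2 : DifferentiableAt ℂ (fun w => Complex.log (ζR w)) w := by
      apply DifferentiableAt.clog
      · exact differentiableAt_id.sub_const _
      · left; rw [hζRre]; exact hre0
    have d3 : DifferentiableAt ℂ Ub w := by
      simp only [Ub]
      fun_prop
    have d4 := hd w hre0
    simp only [G]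
    exact ((d4.const_mul c).sub d3).cexp
  have hGfr : ∀ w ∈ frontier V, ‖G w‖ ≤ 1 := by
    intro w hw
    simp only [G]
    rw [Complex.norm_exp, Complex.sub_re]
    apply Real.exp_le_one_iff.2
    have h5 := hfr w hw
    have h6 : (c * F w).re ≤ ‖F w‖ := by
      refine (Complex.re_le_norm _).trans ?_
      rw [norm_mul, hc, one_mul]
    linarith
  have hVb : Bornology.IsBounded V := (isBounded_sq xL W).subset hVsub
  have hPV : P ∈ closure V := subset_closure (mem_connectedComponentIn hPU)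
  have hGP := Complex.norm_le_of_forall_mem_frontier_norm_le hVb hGd hGfr hPV
  simp only [G] at hGP
  rw [Complex.norm_exp, Complex.sub_re, Real.exp_le_one_iff, hcF, hUbre] at hGP
  -- evaluation at P
  have q1 : P.re / W = 1 / 8 := by rw [hPre]; field_simp
  have q2 : 1 - 2 / Real.pi * (ζL P).arg ≤ 1 / 6 := by
    have : ζL P = ((W / 8 : ℝ) : ℂ) + ((W / 2 : ℝ) : ℂ) * Complex.I := by
      apply Complex.ext
      · rw [hζLre, hPre]; simp
      · rw [hζLim, hPim]; simp
    rw [this]
    exact arg_mid hW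
  have q3 : 1 + 2 / Real.pi * (ζR P).arg ≤ 1 / 6 := by
    have : ζR P = (starRingEnd ℂ) (((W / 8 : ℝ) : ℂ) + ((W / 2 : ℝ) : ℂ) * Complex.I) := by
      apply Complex.ext
      · rw [hζRre, hPre, Complex.conj_re]; simp
      · rw [hζRim, hPim, Complex.conj_im]; simp; ring
    have hne : (((W / 8 : ℝ) : ℂ) + ((W / 2 : ℝ) : ℂ) * Complex.I).arg ≠ Real.pi := by
      intro h
      have h2 := Complex.arg_eq_pi_iff.1 h
      simp at h2
      linarith
    rw [this, Complex.arg_conj, if_neg hne]
    have := arg_mid hW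
    linarith
  have q4 : Real.log (2 * W) - Real.log ‖ζL P‖ ≤ Real.log 4 := by
    have h5 : W / 2 ≤ ‖ζL P‖ := by
      refine le_trans ?_ (Complex.abs_im_le_norm _)
      rw [hζLim, hPim, abs_of_nonneg (by linarith)]
      linarith
    have h6 : Real.log (W / 2) ≤ Real.log ‖ζL P‖ := Real.log_le_log (by positivity) h5
    have h7 : Real.log (2 * W) = Real.log 4 + Real.log (W / 2) := by
      rw [← Real.log_mul (by norm_num) (by positivity)]
      congr 1; ring
    linarith
  have q5 : Real.log (2 * W) - Real.log ‖ζR P‖ ≤ Real.log 4 := by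
    have h5 : W / 2 ≤ ‖ζR P‖ := by
      refine le_trans ?_ (Complex.abs_im_le_norm _)
      rw [hζRim, hPim, abs_of_nonpos (by linarith)]
      linarith
    have h6 : Real.log (W / 2) ≤ Real.log ‖ζR P‖ := Real.log_le_log (by positivity) h5
    have h7 : Real.log (2 * W) = Real.log 4 + Real.log (W / 2) := by
      rw [← Real.log_mul (by norm_num) (by positivity)]
      congr 1; ring
    linarith
  have l2 := Real.log_two_lt_d9
  have l4 : Real.log 4 = 2 * Real.log 2 := by
    rw [show (4:ℝ) = 2 ^ 2 by norm_num, Real.log_pow]; norm_num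
  have l8 : Real.log 8 = 3 * Real.log 2 := by
    rw [show (8:ℝ) = 2 ^ 3 by norm_num, Real.log_pow]; norm_num
  have r1 : m' * (P.re / W + (1 - 2 / Real.pi * (ζL P).arg) +
      (1 + 2 / Real.pi * (ζR P).arg)) ≤ m' * (11 / 24) := by
    apply mul_le_mul_of_nonneg_left _ hm'0
    rw [q1]; linarith
  have r2 : B * (2 * Real.log (2 * W) - Real.log ‖ζL P‖ - Real.log ‖ζR P‖) ≤
      B * (2 * Real.log 4) := by
    apply mul_le_mul_of_nonneg_left _ hB
    linarith
  have r3 : B * (1 / 2 + Real.log 8) ≤ B * (1 / 2 + 21 / 10) := by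
    apply mul_le_mul_of_nonneg_left _ hB
    linarith
  have r4 : B * (2 * Real.log 4) ≤ B * (28 / 10) := by
    apply mul_le_mul_of_nonneg_left _ hB
    linarith
  have r5 : m' ≤ m0 + B * (26 / 10) := by rw [hm']; linarith
  have r6 : m0 ≤ M + (m0 + B * (26 / 10)) * (11 / 24) + B * (28 / 10) := by nlinarith
  nlinarith

end GapForcing
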