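import Pool.Agent.Lib.MP_c80ac4_an.CN.Coef2

/-! Boundedness of the coefficients, and the Bloch estimate. -/

namespace GapForcing

open Finset Filter Topology

/-- the function `F(w) = f(e^{-w})` on the right half plane -/
noncomputable def hpSeries (a : ℕ → ℂ) (n : ℕ → ℕ) (w : ℂ) : ℂ :=
  ∑' j, a j * Complex.exp (-((n j : ℝ) : ℂ) * w)

lemma gapSeries_exp (a : ℕ → ℂ) (n : ℕ → ℕ) (w : ℂ) :
    gapSeries a n (Complex.exp (-w)) = hpSeries a n w := by
  unfold gapSeries hpSeries
  apply tsum_congr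
  intro j
  rw [← Complex.exp_nat_mul]
  congr 2
  push_cast
  ring

lemma norm_exp_neg_lt {w : ℂ} (hw : 0 < w.re) : ‖Complex.exp (-w)‖ < 1 := by
  rw [Complex.norm_exp]
  simp [hw]

lemma summable_hp {a : ℕ → ℂ} {n : ℕ → ℕ} (hc : ConvergesInDisc a n) {w : ℂ} (hw : 0 < w.re) :
    Summable fun j => a j * Complex.exp (-((n j : ℝ) : ℂ) * w) := by
  apply (hc (Complex.exp (-w)) (norm_exp_neg_lt hw)).congr
  intro j
  rw [← Complex.exp_nat_mul]
  congr 2
  push_cast
  ring

lemma summable_hp_norm {a : ℕ → ℂ} {n : ℕ → ℕ} (hc : ConvergesInDisc a n) {t : ℝ} (ht : 0 < t) :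
    Summable fun j => ‖a j‖ * Real.exp (-(n j : ℝ) * t) := by
  have h := (summable_hp hc (w := (t : ℂ)) (by simpa using ht)).norm
  apply h.congr
  intro j
  rw [norm_mul, norm_exp_neg]
  simp

/-- existence of a maximal term -/
lemma exists_max_term (g : ℕ → ℝ) (h0 : ∀ j, 0 ≤ g j) (hg : Tendsto g atTop (𝓝 0)) :
    ∃ k, ∀ j, g j ≤ g k := by
  by_cases hz : ∀ j, g j = 0
  · exact ⟨0, fun j => by rw [hz j, hz 0]⟩
  · push Not at hz
    obtain ⟨j0, hj0⟩ := hz
    have hpos : 0 < g j0 := lt_of_le_of_ne (h0 j0) (Ne.symm hj0)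
    have hev := hg.eventually (gt_mem_nhds hpos)
    obtain ⟨N, hN⟩ := eventually_atTop.1 hev
    obtain ⟨k, hk, hmax⟩ := exists_max_image (range (max N (j0 + 1))) g
      ⟨j0, by simp⟩
    refine ⟨k, fun j => ?_⟩
    have hkj0 : g j0 ≤ g k := hmax j0 (by simp)
    by_cases hj : j < max N (j0 + 1)
    · exact hmax j (by simpa using hj)
    · push Not at hj
      exact ((hN j ((le_max_left _ _).trans hj)).le).trans hkj0

/-- **Boundedness of the coefficients.** -/
theorem coef_bounded {q : ℝ} (hq : 1 < q) {n : ℕ → ℕ} (hn : HadamardGaps q n) {a : ℕ → ℂ}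
    (hc : ConvergesInDisc a n) {y0 M : ℝ} (hy0 : 0 < y0)
    (H : ∀ y : ℝ, 0 < y → y < y0 / 2 → ∃ w : ℂ, w.re = y ∧ ∀ ρ : ℝ, 0 ≤ ρ → ρ ≤ y0 / 2 →
      ∃ u : ℂ, ‖u‖ = ρ ∧ ‖hpSeries a n (w + u)‖ ≤ M) :
    ∃ A : ℝ, 0 ≤ A ∧ ∀ j, ‖a j‖ ≤ A := by
  obtain ⟨L, hL, ε, hε, hsmall⟩ := not_small hq
  -- M is nonnegative
  have hM0 : 0 ≤ M := by
    obtain ⟨w, -, hw⟩ := H (y0 / 4) (by positivity) (by linarith)
    obtain ⟨u, -, hu⟩ := hw 0 le_rfl (by positivity)
    exact (norm_nonneg _).trans hu
  obtain ⟨N, hN⟩ := exists_nat_gt (max (4 * L / y0) (1 / y0))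
  have hN0 : (0:ℝ) < N := lt_of_le_of_lt (le_max_of_le_left (by positivity)) hN
  have hN1 : (L:ℝ) / N < y0 / 4 := by
    have := (le_max_left _ _).trans_lt hN
    rw [div_lt_iff₀ hy0] at this
    rw [div_lt_iff₀ hN0]
    linarith
  have hN2 : 1 / (2 * (N:ℝ)) ≤ y0 / 2 := by
    have := ((le_max_right _ _).trans_lt hN).le
    rw [div_le_iff₀ hy0] at this
    rw [div_le_iff₀ (by positivity)]
    linarith
  have hnj : ∀ j, j ≤ n j := fun j => hn.2.1.id_le j
  set A : ℝ := max (M / ε) (∑ j ∈ range N, ‖a j‖) with hA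
  have hA0 : 0 ≤ A := le_max_of_le_left (by positivity)
  refine ⟨A, hA0, ?_⟩
  -- the bound at each small height
  have key : ∀ t : ℝ, 0 < t → t < y0 / 4 → ∀ j, ‖a j‖ * Real.exp (-(n j : ℝ) * t) ≤ A := by
    intro t ht ht4
    have hs := summable_hp_norm hc ht
    obtain ⟨k, hk⟩ := exists_max_term (fun j => ‖a j‖ * Real.exp (-(n j : ℝ) * t))
      (fun j => by positivity) hs.tendsto_atTop_zero
    intro j
    refine (hk j).trans ?_
    set Bk : ℝ := ‖a k‖ * Real.exp (-(n k : ℝ) * t) with hBk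
    by_cases hkN : k < N
    · apply le_max_of_le_right
      have h1 : Bk ≤ ‖a k‖ := by
        rw [hBk]
        have h2 : Real.exp (-(n k : ℝ) * t) ≤ 1 := by
          rw [Real.exp_le_one_iff]
          have := hn.pos k
          nlinarith
        have h3 := norm_nonneg (a k)
        nlinarith
      exact h1.trans (single_le_sum (f := fun j => ‖a j‖) (fun i _ => norm_nonneg _)
        (by simpa using hkN))
    · push Not at hkN
      apply le_max_of_le_left
      rcases (show 0 ≤ Bk by rw [hBk]; positivity).eq_or_lt with hB0 | hB0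
      · rw [← hB0]; positivity
      · have hnk : (N:ℝ) ≤ n k := by exact_mod_cast hkN.trans (hnj k)
        have hnk0 := hn.pos k
        obtain ⟨w, hw, hwu⟩ := H (t + L / n k) (by positivity) (by
          have : (L:ℝ) / n k ≤ L / N := by gcongr
          linarith)
        have hx : ∀ j, 0 < (n j : ℝ) / n k := fun j => div_pos (hn.pos j) hnk0
        have hxs : ∀ j, q * ((n j : ℝ) / n k) ≤ (n (j + 1) : ℝ) / n k := by
          intro j
          rw [← mul_div_assoc]
          exact div_le_div_of_nonneg_right (hn.step j) hnk0.le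
        let b : ℕ → ℂ := fun j => a j * ((Real.exp (-(n j : ℝ) * t) : ℝ) : ℂ) / ((Bk : ℝ) : ℂ)
        have hbn : ∀ j, ‖b j‖ = ‖a j‖ * Real.exp (-(n j : ℝ) * t) / Bk := by
          intro j
          simp only [b]
          rw [norm_div, norm_mul, Complex.norm_real, Complex.norm_real,
            Real.norm_of_nonneg (Real.exp_pos _).le, Real.norm_of_nonneg hB0.le]
        have hMB := hsmall (fun j => (n j : ℝ) / n k) hx hxs k (div_self hnk0.ne') b (by
            intro j
            rw [hbn, div_le_one hB0]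
            exact hk j) (by
            rw [hbn]
            exact div_self hB0.ne') ((n k : ℂ) * (w - t)) (by
            have : ((n k : ℂ) * (w - t)).re = (n k : ℝ) * (w.re - t) := by
              rw [show ((n k : ℂ)) = ((n k : ℝ) : ℂ) by simp, Complex.re_ofReal_mul]
              simp
            rw [this, hw]
            field_simp
            ring) (M / Bk) (by
            intro ρ h1 h2
            obtain ⟨u, hu, hu2⟩ := hwu (ρ / n k) (by positivity) (by
              have : ρ / n k ≤ (1 / 2) / N := by gcongr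
              have e : (1:ℝ) / 2 / N = 1 / (2 * N) := by ring
              rw [e] at this
              exact this.trans hN2)
            refine ⟨(n k : ℂ) * u, ?_, ?_⟩
            · rw [norm_mul, Complex.norm_natCast, hu]
              field_simp
            · have e : ∑' j, b j * Complex.exp (-(((n j : ℝ) / n k : ℝ) : ℂ) *
                  ((n k : ℂ) * (w - t) + (n k : ℂ) * u)) = hpSeries a n (w + u) / ((Bk : ℝ) : ℂ) := by
                unfold hpSeries
                rw [← tsum_div_const]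
                apply tsum_congr
                intro j
                simp only [b]
                have hnkc : (n k : ℂ) ≠ 0 := by exact_mod_cast hnk0.ne'
                rw [div_mul_eq_mul_div, mul_assoc, Complex.ofReal_exp, ← Complex.exp_add]
                congr 3
                push_cast
                field_simp
                ring
              rw [e, norm_div, Complex.norm_real, Real.norm_of_nonneg hB0.le]
              gcongr)
        rw [le_div_iff₀ hB0] at hMB
        rw [le_div_iff₀ hε]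
        linarith
  -- let the height tend to zero
  intro j
  have hlim : Tendsto (fun t : ℝ => ‖a j‖ * Real.exp (-(n j : ℝ) * t)) (𝓝[>] 0) (𝓝 ‖a j‖) := by
    have hcont : Continuous fun t : ℝ => ‖a j‖ * Real.exp (-(n j : ℝ) * t) := by fun_prop
    have := (hcont.tendsto 0).mono_left (nhdsWithin_le_nhds (s := Set.Ioi 0))
    simpa using this
  apply le_of_tendsto hlim
  have : Set.Ioo (0:ℝ) (y0 / 4) ∈ 𝓝[>] (0:ℝ) := Ioo_mem_nhdsGT (by positivity)
  filter_upwards [this] with t ht
  exact key t ht.1 ht.2 j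

section Bloch

variable {q : ℝ} {n : ℕ → ℕ} {a : ℕ → ℂ} {A : ℝ}

lemma hp_hasDerivAt (hq : 1 < q) (hn : HadamardGaps q n) (ha : ∀ j, ‖a j‖ ≤ A) {w : ℂ}
    (hw : 0 < w.re) : HasDerivAt (hpSeries a n)
      (∑' j, a j * (Complex.exp (-((n j : ℝ) : ℂ) * w) * (-((n j : ℝ) : ℂ)))) w := by
  have hA : 0 ≤ A := (norm_nonneg _).trans (ha 0)
  set δ : ℝ := w.re / 2 with hδ
  have hδ0 : 0 < δ := by positivity
  let t : Set ℂ := {z | δ < z.re}
  have ht : IsOpen t := isOpen_lt continuous_const Complex.continuous_re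
  have htc : Convex ℝ t := convex_halfSpace_re_gt δ
  have hx : ∀ j, 0 < (n j : ℝ) * δ := fun j => mul_pos (hn.pos j) hδ0
  have hxs : ∀ j, q * ((n j : ℝ) * δ) ≤ (n (j + 1) : ℝ) * δ := by
    intro j
    rw [← mul_assoc]
    exact mul_le_mul_of_nonneg_right (hn.step j) hδ0.le
  have hu : Summable fun j => A / δ * ((n j : ℝ) * δ * Real.exp (-((n j : ℝ) * δ))) :=
    (summable_exp hq _ hx hxs).mul_left _
  have hwt : w ∈ t := by
    change δ < w.re
    rw [hδ]; linarith
  have hsum0 : Summable fun j => a j * Complex.exp (-((n j : ℝ) : ℂ) * w) := by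
    apply Summable.of_norm_bounded (g := fun j => (A / (δ * n 0)) *
      ((n j : ℝ) * δ * Real.exp (-((n j : ℝ) * δ))))
    · exact (summable_exp hq _ hx hxs).mul_left _
    · intro j
      rw [norm_mul, norm_exp_neg]
      have h1 : Real.exp (-(n j : ℝ) * w.re) ≤ Real.exp (-((n j : ℝ) * δ)) := by
        apply Real.exp_le_exp.2
        have h2 := hn.pos j
        have : w.re = 2 * δ := by rw [hδ]; ring
        rw [this]
        nlinarith
      have h3 : (n 0 : ℝ) ≤ n j := by exact_mod_cast hn.2.1.monotone (Nat.zero_le j)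
      have h4 := hn.pos 0
      have h5 : A * Real.exp (-((n j : ℝ) * δ)) ≤ (A / (δ * n 0)) *
          ((n j : ℝ) * δ * Real.exp (-((n j : ℝ) * δ))) := by
        have e : (A / (δ * n 0)) * ((n j : ℝ) * δ * Real.exp (-((n j : ℝ) * δ))) =
            A * Real.exp (-((n j : ℝ) * δ)) * ((n j : ℝ) / n 0) := by
          field_simp
        rw [e]
        have h6 : 1 ≤ (n j : ℝ) / n 0 := by rw [one_le_div h4]; exact h3
        have h7 : 0 ≤ A * Real.exp (-((n j : ℝ) * δ)) := by positivity
        nlinarith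
      refine le_trans ?_ h5
      gcongr
      exact ha j
  exact hasDerivAt_tsum_of_isPreconnected (t := t) (y₀ := w) hu ht htc.isPreconnected
    (g := fun j z => a j * Complex.exp (-((n j : ℝ) : ℂ) * z))
    (g' := fun j z => a j * (Complex.exp (-((n j : ℝ) : ℂ) * z) * (-((n j : ℝ) : ℂ))))
    (by
      intro j z _
      have h1 : HasDerivAt (fun z : ℂ => -((n j : ℝ) : ℂ) * z) (-((n j : ℝ) : ℂ)) z := by
        simpa using (hasDerivAt_id z).const_mul (-((n j : ℝ) : ℂ))
      exact (h1.cexp).const_mul _)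
    (by
      intro j z hz
      have hz' : δ < z.re := hz
      rw [norm_mul, norm_mul, norm_exp_neg, norm_neg, Complex.norm_real,
        Real.norm_of_nonneg (hn.pos j).le]
      have h2 := hn.pos j
      have h1 : Real.exp (-(n j : ℝ) * z.re) ≤ Real.exp (-((n j : ℝ) * δ)) := by
        apply Real.exp_le_exp.2
        nlinarith
      calc ‖a j‖ * (Real.exp (-(n j : ℝ) * z.re) * n j)
          ≤ A * (Real.exp (-((n j : ℝ) * δ)) * n j) := by
            gcongr
            exact ha j
        _ = A / δ * ((n j : ℝ) * δ * Real.exp (-((n j : ℝ) * δ))) := by field_simp)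
    hwt hsum0 hwt

lemma hp_differentiableAt (hq : 1 < q) (hn : HadamardGaps q n) (ha : ∀ j, ‖a j‖ ≤ A) {w : ℂ}
    (hw : 0 < w.re) : DifferentiableAt ℂ (hpSeries a n) w :=
  (hp_hasDerivAt hq hn ha hw).differentiableAt

/-- the Bloch estimate -/
lemma hp_deriv_le (hq : 1 < q) (hn : HadamardGaps q n) (ha : ∀ j, ‖a j‖ ≤ A) {w : ℂ}
    (hw : 0 < w.re) : ‖deriv (hpSeries a n) w‖ ≤ A * (2 * q / (q - 1)) / w.re := by
  have hA : 0 ≤ A := (norm_nonneg _).trans (ha 0)
  rw [(hp_hasDerivAt hq hn ha hw).deriv]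
  have hx : ∀ j, 0 < (n j : ℝ) * w.re := fun j => mul_pos (hn.pos j) hw
  have hxs : ∀ j, q * ((n j : ℝ) * w.re) ≤ (n (j + 1) : ℝ) * w.re := by
    intro j
    rw [← mul_assoc]
    exact mul_le_mul_of_nonneg_right (hn.step j) hw.le
  have hs := summable_exp hq _ hx hxs
  have h1 : ‖∑' j, a j * (Complex.exp (-((n j : ℝ) : ℂ) * w) * (-((n j : ℝ) : ℂ)))‖ ≤
      ∑' j, A / w.re * ((n j : ℝ) * w.re * Real.exp (-((n j : ℝ) * w.re))) := by
    apply tsum_of_norm_bounded (hs.mul_left _).hasSum
    intro j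
    rw [norm_mul, norm_mul, norm_exp_neg, norm_neg, Complex.norm_real,
      Real.norm_of_nonneg (hn.pos j).le]
    have h2 := hn.pos j
    calc ‖a j‖ * (Real.exp (-(n j : ℝ) * w.re) * n j)
        ≤ A * (Real.exp (-(n j : ℝ) * w.re) * n j) := by
          gcongr
          exact ha j
      _ = A / w.re * ((n j : ℝ) * w.re * Real.exp (-((n j : ℝ) * w.re))) := by
          rw [neg_mul]; field_simp
  rw [tsum_mul_left] at h1
  refine h1.trans ?_
  calc A / w.re * ∑' j, (n j : ℝ) * w.re * Real.exp (-((n j : ℝ) * w.re))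
      ≤ A / w.re * (2 * q / (q - 1)) := by
        apply mul_le_mul_of_nonneg_left (tsum_exp hq _ hx hxs) (by positivity)
    _ = _ := by ring

end Bloch

end GapForcing
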