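import Pool.Agent.Lib.MP_c80ac4_an.CN.Sums

/-! A normalised Hadamard series cannot be small on a continuum. -/

namespace GapForcing

open Finset

/-- If a power series with bounded coefficients is small at points of all moduli in `[0,1/2]`,
then its first coefficients are small. -/
lemma small_coeff (C : ℝ) (hC : 0 ≤ C) (L : ℕ) : ∀ η : ℝ, 0 < η → ∃ ε : ℝ, 0 < ε ∧
    ∀ c : ℕ → ℂ, (∀ l, 1 ≤ l → ‖c l‖ ≤ C) →
      (∀ ρ : ℝ, 0 ≤ ρ → ρ ≤ 1 / 2 → ∃ u : ℂ, ‖u‖ = ρ ∧ ‖∑' l, c l * u ^ l‖ ≤ ε) →
      ∀ l ≤ L, ‖c l‖ ≤ η := by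
  induction L with
  | zero =>
    intro η hη
    refine ⟨η, hη, ?_⟩
    intro c _ h l hl
    obtain ⟨u, hu, hs⟩ := h 0 le_rfl (by norm_num)
    have hu0 : u = 0 := norm_eq_zero.1 hu
    subst hu0
    have e : ∑' l, c l * (0:ℂ) ^ l = c 0 := by
      rw [tsum_eq_single 0]
      · simp
      · intro b hb
        simp [hb]
    rw [e] at hs
    have : l = 0 := by omega
    rw [this]
    exact hs
  | succ L ih =>
    intro η hη
    set ρ : ℝ := min (1 / 2) (η / (8 * (C + 1))) with hρ
    have hρ0 : 0 < ρ := lt_min (by norm_num) (by positivity)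
    have hρ2 : ρ ≤ 1 / 2 := min_le_left _ _
    have hρη : C * ρ ≤ η / 8 := by
      have h1 : ρ ≤ η / (8 * (C + 1)) := min_le_right _ _
      rw [le_div_iff₀ (by positivity)] at h1
      nlinarith
    have hρL : 0 < ρ ^ (L + 1) := by positivity
    set η' : ℝ := min η (η * ρ ^ (L + 1) / (4 * (L + 1))) with hη'
    have hη'0 : 0 < η' := lt_min hη (by positivity)
    obtain ⟨ε', hε', hih⟩ := ih η' hη'0
    refine ⟨min ε' (η * ρ ^ (L + 1) / 4), lt_min hε' (by positivity), ?_⟩
    intro c hc h l hl
    have hsmall : ∀ l ≤ L, ‖c l‖ ≤ η' := by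
      apply hih c hc
      intro r hr1 hr2
      obtain ⟨u, hu, hs⟩ := h r hr1 hr2
      exact ⟨u, hu, hs.trans (min_le_left _ _)⟩
    rcases Nat.lt_succ_iff_lt_or_eq.1 (Nat.lt_succ_of_le hl) with h1 | h1
    · exact (hsmall l (by omega)).trans (min_le_left _ _)
    · subst h1
      obtain ⟨u, hu, hs⟩ := h ρ hρ0.le hρ2
      have hρ1 : ρ < 1 := by linarith
      have hsum : Summable fun l => c l * u ^ l := by
        rw [← summable_nat_add_iff 1]
        apply Summable.of_norm_bounded (g := fun l => C * ρ ^ (l + 1))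
        · exact ((summable_geometric_of_lt_one hρ0.le hρ1).mul_left (C * ρ)).congr
            (fun l => by ring)
        · intro l
          rw [norm_mul, norm_pow, hu]
          exact mul_le_mul_of_nonneg_right (hc _ (by omega)) (by positivity)
      have hsplit := hsum.sum_add_tsum_nat_add (L + 2)
      rw [sum_range_succ] at hsplit
      have htail : ‖∑' i, c (i + (L + 2)) * u ^ (i + (L + 2))‖ ≤ C * ρ ^ (L + 2) * 2 := by
        have hg : HasSum (fun i : ℕ => C * ρ ^ (L + 2) * ρ ^ i) (C * ρ ^ (L + 2) * (1 - ρ)⁻¹) :=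
          (hasSum_geometric_of_lt_one hρ0.le hρ1).mul_left _
        have h2 : ‖∑' i, c (i + (L + 2)) * u ^ (i + (L + 2))‖ ≤ C * ρ ^ (L + 2) * (1 - ρ)⁻¹ := by
          apply tsum_of_norm_bounded hg
          intro i
          rw [norm_mul, norm_pow, hu, pow_add]
          have := hc (i + (L + 2)) (by omega)
          have h3 : 0 ≤ ρ ^ i * ρ ^ (L + 2) := by positivity
          calc ‖c (i + (L + 2))‖ * (ρ ^ i * ρ ^ (L + 2)) ≤ C * (ρ ^ i * ρ ^ (L + 2)) :=
                mul_le_mul_of_nonneg_right this h3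
            _ = C * ρ ^ (L + 2) * ρ ^ i := by ring
        refine h2.trans ?_
        apply mul_le_mul_of_nonneg_left _ (by positivity)
        rw [inv_le_comm₀ (by linarith) (by norm_num)]
        linarith
      have hhead : ‖∑ i ∈ range (L + 1), c i * u ^ i‖ ≤ η * ρ ^ (L + 1) / 4 := by
        calc ‖∑ i ∈ range (L + 1), c i * u ^ i‖ ≤ ∑ i ∈ range (L + 1), ‖c i * u ^ i‖ :=
              norm_sum_le _ _
          _ ≤ ∑ i ∈ range (L + 1), η' := by
              apply sum_le_sum
              intro i hi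
              rw [norm_mul, norm_pow, hu]
              have h2 := hsmall i (by simp at hi; omega)
              have h3 : ρ ^ i ≤ 1 := pow_le_one₀ hρ0.le hρ1.le
              calc ‖c i‖ * ρ ^ i ≤ ‖c i‖ * 1 := by gcongr
                _ ≤ η' := by rw [mul_one]; exact h2
          _ = (L + 1) * η' := by simp
          _ ≤ (L + 1) * (η * ρ ^ (L + 1) / (4 * (L + 1))) := by
              apply mul_le_mul_of_nonneg_left (min_le_right _ _) (by positivity)
          _ = η * ρ ^ (L + 1) / 4 := by field_simp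
      have hs' := hs.trans (min_le_right _ _)
      have hmain : ‖c (L + 1)‖ * ρ ^ (L + 1) ≤ η * ρ ^ (L + 1) := by
        have e : c (L + 1) * u ^ (L + 1) = (∑' l, c l * u ^ l) -
            (∑ i ∈ range (L + 1), c i * u ^ i) - ∑' i, c (i + (L + 2)) * u ^ (i + (L + 2)) := by
          rw [← hsplit]; ring
        have h2 : ‖c (L + 1)‖ * ρ ^ (L + 1) = ‖c (L + 1) * u ^ (L + 1)‖ := by
          rw [norm_mul, norm_pow, hu]
        rw [h2, e]
        have h3 : C * ρ ^ (L + 2) * 2 ≤ η * ρ ^ (L + 1) / 4 := by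
          have : C * ρ ^ (L + 2) * 2 = (C * ρ) * ρ ^ (L + 1) * 2 := by ring
          rw [this]
          nlinarith
        calc ‖(∑' l, c l * u ^ l) - (∑ i ∈ range (L + 1), c i * u ^ i) -
              ∑' i, c (i + (L + 2)) * u ^ (i + (L + 2))‖
            ≤ ‖∑' l, c l * u ^ l‖ + ‖∑ i ∈ range (L + 1), c i * u ^ i‖ +
              ‖∑' i, c (i + (L + 2)) * u ^ (i + (L + 2))‖ :=
              (norm_sub_le _ _).trans (add_le_add (norm_sub_le _ _) le_rfl)
          _ ≤ η * ρ ^ (L + 1) / 4 + η * ρ ^ (L + 1) / 4 + C * ρ ^ (L + 2) * 2 := by gcongr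
          _ ≤ η * ρ ^ (L + 1) := by nlinarith
      exact le_of_mul_le_mul_right hmain hρL

/-- the function `x e^{1-x}` is at most `ρ0 < 1` off `(1/q, q)` -/
lemma phi_bound {q : ℝ} (hq : 1 < q) : ∃ ρ0 : ℝ, 0 < ρ0 ∧ ρ0 < 1 ∧
    ∀ x : ℝ, 0 < x → (q ≤ x ∨ x ≤ 1 / q) → x * Real.exp (1 - x) ≤ ρ0 := by
  have hq0 : 0 < q := by linarith
  set p : ℝ := 1 / q with hp
  have hp0 : 0 < p := by positivity
  have hp1 : p < 1 := by rw [hp, div_lt_one hq0]; exact hq
  have h1 : q * Real.exp (1 - q) < 1 := by
    have h := Real.add_one_lt_exp (x := q - 1) (by linarith)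
    have h2 : Real.exp (1 - q) * Real.exp (q - 1) = 1 := by
      rw [← Real.exp_add]; simp
    have h3 := Real.exp_pos (1 - q)
    nlinarith
  have h2 : p * Real.exp (1 - p) < 1 := by
    have h := Real.add_one_lt_exp (x := p - 1) (by linarith)
    have h2 : Real.exp (1 - p) * Real.exp (p - 1) = 1 := by
      rw [← Real.exp_add]; simp
    have h3 := Real.exp_pos (1 - p)
    nlinarith
  refine ⟨max (q * Real.exp (1 - q)) (p * Real.exp (1 - p)), ?_, max_lt h1 h2, ?_⟩
  · exact lt_max_of_lt_left (by positivity)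
  · intro x hx hcase
    rcases hcase with h | h
    · apply le_trans _ (le_max_left _ _)
      have h3 : x / q ≤ Real.exp (x / q - 1) := by
        have := Real.add_one_le_exp (x / q - 1); linarith
      have h4 : x ≤ q * Real.exp (x / q - 1) := by
        rw [div_le_iff₀ hq0] at h3; linarith
      calc x * Real.exp (1 - x) ≤ q * Real.exp (x / q - 1) * Real.exp (1 - x) := by gcongr
        _ = q * Real.exp (x / q - 1 + (1 - x)) := by rw [mul_assoc, ← Real.exp_add]
        _ ≤ q * Real.exp (1 - q) := by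
            apply mul_le_mul_of_nonneg_left _ hq0.le
            apply Real.exp_le_exp.2
            have h5 : x / q = x * p := by rw [hp]; ring
            have h6 : q * p = 1 := by rw [hp]; field_simp
            rw [h5]
            nlinarith
    · apply le_trans _ (le_max_right _ _)
      have h3 : x / p ≤ Real.exp (x / p - 1) := by
        have := Real.add_one_le_exp (x / p - 1); linarith
      have h4 : x ≤ p * Real.exp (x / p - 1) := by
        rw [div_le_iff₀ hp0] at h3; linarith
      calc x * Real.exp (1 - x) ≤ p * Real.exp (x / p - 1) * Real.exp (1 - x) := by gcongr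
        _ = p * Real.exp (x / p - 1 + (1 - x)) := by rw [mul_assoc, ← Real.exp_add]
        _ ≤ p * Real.exp (1 - p) := by
            apply mul_le_mul_of_nonneg_left _ hp0.le
            apply Real.exp_le_exp.2
            have h5 : x / p = x * q := by rw [hp]; field_simp
            have h6 : q * p = 1 := by rw [hp]; field_simp
            rw [h5]
            nlinarith

end GapForcing
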