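import Pool.Agent.Lib.MP_c80ac4_an.CN.Coef

/-! A normalised Hadamard series cannot be small on a continuum: the Taylor coefficient. -/

namespace GapForcing

open Finset

lemma hasSum_exp_complex (z : ℂ) : HasSum (fun l : ℕ => z ^ l / (l.factorial : ℂ)) (Complex.exp z) := by
  rw [Complex.exp_eq_exp_ℂ]
  exact NormedSpace.expSeries_div_hasSum_exp z

lemma hasSum_exp_real (z : ℝ) : HasSum (fun l : ℕ => z ^ l / (l.factorial : ℝ)) (Real.exp z) := by
  rw [Real.exp_eq_exp_ℝ]
  exact NormedSpace.expSeries_div_hasSum_exp z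

lemma seq_gap {q : ℝ} (hq : 1 < q) {x : ℕ → ℝ} (hx : ∀ j, 0 < x j)
    (hs : ∀ j, q * x j ≤ x (j + 1)) {j k : ℕ} (hjk : j < k) : q * x j ≤ x k := by
  induction k with
  | zero => omega
  | succ k ih =>
    rcases Nat.lt_succ_iff_lt_or_eq.1 hjk with h1 | h1
    · have h2 := ih h1
      have h3 := hs k
      have h4 := hx k
      nlinarith
    · subst h1
      exact hs j

lemma norm_exp_neg (x : ℝ) (w : ℂ) : ‖Complex.exp (-(x : ℂ) * w)‖ = Real.exp (-x * w.re) := by
  rw [Complex.norm_exp]
  congr 1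
  simp

/-- **A normalised Hadamard series cannot be small on a continuum.** -/
theorem not_small {q : ℝ} (hq : 1 < q) : ∃ L : ℕ, 2 ≤ L ∧ ∃ ε : ℝ, 0 < ε ∧
    ∀ x : ℕ → ℝ, (∀ j, 0 < x j) → (∀ j, q * x j ≤ x (j + 1)) → ∀ k, x k = 1 →
    ∀ b : ℕ → ℂ, (∀ j, ‖b j‖ ≤ 1) → ‖b k‖ = 1 → ∀ w : ℂ, w.re = L →
    ∀ M : ℝ, (∀ ρ : ℝ, 0 ≤ ρ → ρ ≤ 1 / 2 → ∃ u : ℂ, ‖u‖ = ρ ∧
      ‖∑' j, b j * Complex.exp (-(x j : ℂ) * (w + u))‖ ≤ M) → ε ≤ M := by
  obtain ⟨ρ0, hρ0, hρ1, hphi⟩ := phi_bound hq
  have hq1 : 0 < q - 1 := by linarith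
  set Cq : ℝ := 2 * q / (q - 1) with hCq
  have hCq0 : 0 < Cq := by positivity
  obtain ⟨m, hm⟩ := exists_pow_lt_of_lt_one (show (0:ℝ) < 1 / (2 * (Real.exp 1 * Cq)) by positivity)
    hρ1
  set L : ℕ := m + 2 with hL
  have hL1 : L = (m + 1) + 1 := by omega
  have hpow : ρ0 ^ (m + 1) * (Real.exp 1 * Cq) ≤ 1 / 2 := by
    have h1 : ρ0 ^ (m + 1) ≤ ρ0 ^ m := pow_le_pow_of_le_one hρ0.le hρ1.le (by omega)
    have h2 : ρ0 ^ (m + 1) ≤ 1 / (2 * (Real.exp 1 * Cq)) := h1.trans hm.le
    rw [le_div_iff₀ (by positivity)] at h2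
    linarith
  have hfac : (0:ℝ) < (L.factorial : ℝ) := by exact_mod_cast L.factorial_pos
  obtain ⟨ε, hε, hsmall⟩ := small_coeff Cq hCq0.le L
    (Real.exp (-(L:ℝ)) / (4 * (L.factorial : ℝ))) (by positivity)
  refine ⟨L, by omega, ε, hε, ?_⟩
  intro x hx hs k hk b hb hbk w hw M hM
  by_contra hlt
  push Not at hlt
  have hLr : (2:ℝ) ≤ (L:ℝ) := by exact_mod_cast (by omega : 2 ≤ L)
  -- summability
  have S1 : Summable fun j => x j * Real.exp (-x j) := summable_exp hq x hx hs
  have T1 : ∑' j, x j * Real.exp (-x j) ≤ Cq := tsum_exp hq x hx hs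
  have hx0 : ∀ j, x 0 ≤ x j := by
    intro j
    rcases Nat.eq_zero_or_pos j with h | h
    · rw [h]
    · have := seq_gap hq hx hs h
      have := hx 0
      nlinarith
  have S0 : Summable fun j => Real.exp (-x j) := by
    apply Summable.of_nonneg_of_le (fun j => (Real.exp_pos _).le) _ (S1.mul_left (1 / x 0))
    intro j
    have h1 := hx0 j
    have h2 := hx 0
    have h3 := Real.exp_pos (-x j)
    rw [div_mul_eq_mul_div, one_mul, le_div_iff₀ h2]
    nlinarith
  -- coefficients
  let c : ℕ → ℂ := fun l => ∑' j, b j * Complex.exp (-(x j : ℂ) * w) *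
    ((-(x j : ℂ)) ^ l / (l.factorial : ℂ))
  have normterm : ∀ j l, ‖b j * Complex.exp (-(x j : ℂ) * w) *
      ((-(x j : ℂ)) ^ l / (l.factorial : ℂ))‖ =
      ‖b j‖ * Real.exp (-x j * L) * ((x j) ^ l / (l.factorial : ℝ)) := by
    intro j l
    rw [norm_mul, norm_mul, norm_exp_neg, hw, norm_div, norm_pow, norm_neg, Complex.norm_real,
      Real.norm_of_nonneg (hx j).le, Complex.norm_natCast]
  have termle : ∀ j l, 1 ≤ l → ‖b j * Complex.exp (-(x j : ℂ) * w) *
      ((-(x j : ℂ)) ^ l / (l.factorial : ℂ))‖ ≤ x j * Real.exp (-x j) := by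
    intro j l hl
    rw [normterm]
    have hxj := hx j
    have h1 : (x j) ^ l / (l.factorial : ℝ) ≤ x j * Real.exp (x j) := by
      obtain ⟨l', rfl⟩ : ∃ l', l = l' + 1 := ⟨l - 1, by omega⟩
      have h2 : (x j) ^ l' / (l'.factorial : ℝ) ≤ Real.exp (x j) := by
        rw [← (hasSum_exp_real (x j)).tsum_eq]
        exact (hasSum_exp_real (x j)).summable.le_tsum l' (fun i _ => by positivity)
      have h3 : (x j) ^ (l' + 1) / ((l' + 1).factorial : ℝ) ≤ x j * ((x j) ^ l' /
          (l'.factorial : ℝ)) := by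
        rw [Nat.factorial_succ, pow_succ, ← mul_div_assoc, mul_comm (x j) ((x j) ^ l')]
        apply div_le_div_of_nonneg_left (by positivity)
          (by exact_mod_cast l'.factorial_pos)
        have : (l'.factorial : ℝ) ≤ ((l' + 1 : ℕ) : ℝ) * (l'.factorial : ℝ) := by
          have h4 : (1:ℝ) ≤ ((l' + 1 : ℕ) : ℝ) := by exact_mod_cast (by omega : 1 ≤ l' + 1)
          have h5 : (0:ℝ) ≤ (l'.factorial : ℝ) := by positivity
          nlinarith
        push_cast at this ⊢
        exact this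
      exact h3.trans (mul_le_mul_of_nonneg_left h2 hxj.le)
    calc ‖b j‖ * Real.exp (-x j * L) * ((x j) ^ l / (l.factorial : ℝ))
        ≤ 1 * Real.exp (-x j * L) * (x j * Real.exp (x j)) := by
          gcongr
          exact hb j
      _ = x j * (Real.exp (-x j * L) * Real.exp (x j)) := by ring
      _ = x j * Real.exp (-x j * L + x j) := by rw [← Real.exp_add]
      _ ≤ x j * Real.exp (-x j) := by
          apply mul_le_mul_of_nonneg_left _ hxj.le
          apply Real.exp_le_exp.2
          nlinarith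
  have cbound : ∀ l, 1 ≤ l → ‖c l‖ ≤ Cq := by
    intro l hl
    have h1 : ‖c l‖ ≤ ∑' j, x j * Real.exp (-x j) :=
      tsum_of_norm_bounded S1.hasSum (fun j => termle j l hl)
    exact h1.trans T1
  -- the Taylor expansion
  have taylor : ∀ u : ℂ, ‖u‖ ≤ 1 / 2 → ∑' l, c l * u ^ l =
      ∑' j, b j * Complex.exp (-(x j : ℂ) * (w + u)) := by
    intro u hu
    let f : ℕ → ℕ → ℂ := fun j l => b j * Complex.exp (-(x j : ℂ) * w) *
      ((-(x j : ℂ) * u) ^ l / (l.factorial : ℂ))
    have hf : ∀ j, HasSum (f j) (b j * Complex.exp (-(x j : ℂ) * (w + u))) := by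
      intro j
      have := (hasSum_exp_complex (-(x j : ℂ) * u)).mul_left (b j * Complex.exp (-(x j : ℂ) * w))
      have e : b j * Complex.exp (-(x j : ℂ) * w) * Complex.exp (-(x j : ℂ) * u) =
          b j * Complex.exp (-(x j : ℂ) * (w + u)) := by
        rw [mul_assoc, ← Complex.exp_add]
        congr 2
        ring
      rw [e] at this
      exact this
    have hfs : Summable (Function.uncurry f) := by
      apply Summable.of_norm
      let g : ℕ × ℕ → ℝ := fun p => Real.exp (-x p.1 * L) *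
        ((x p.1 * (1 / 2)) ^ p.2 / (p.2.factorial : ℝ))
      have hg0 : 0 ≤ g := by
        intro p
        have := hx p.1
        simp only [g, Pi.zero_apply]
        positivity
      have hgs : Summable g := by
        rw [summable_prod_of_nonneg hg0]
        have hj : ∀ j, HasSum (fun l => g (j, l)) (Real.exp (-x j * L) *
            Real.exp (x j * (1 / 2))) := fun j => (hasSum_exp_real _).mul_left _
        refine ⟨fun j => (hj j).summable, ?_⟩
        apply Summable.of_nonneg_of_le _ _ S0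
        · intro j
          rw [(hj j).tsum_eq]; positivity
        · intro j
          rw [(hj j).tsum_eq, ← Real.exp_add]
          apply Real.exp_le_exp.2
          have := hx j
          nlinarith
      apply Summable.of_nonneg_of_le (fun _ => norm_nonneg _) _ hgs
      rintro ⟨j, l⟩
      simp only [Function.uncurry, f, g]
      rw [norm_mul, norm_mul, norm_exp_neg, hw, norm_div, norm_pow, norm_mul, norm_neg,
        Complex.norm_real, Real.norm_of_nonneg (hx j).le, Complex.norm_natCast]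
      have := hx j
      calc ‖b j‖ * Real.exp (-x j * L) * ((x j * ‖u‖) ^ l / (l.factorial : ℝ))
          ≤ 1 * Real.exp (-x j * L) * ((x j * (1 / 2)) ^ l / (l.factorial : ℝ)) := by
            gcongr
            exact hb j
        _ = _ := by ring
    calc ∑' l, c l * u ^ l = ∑' l, ∑' j, f j l := by
          apply tsum_congr
          intro l
          simp only [c, f]
          rw [← tsum_mul_right]
          apply tsum_congr
          intro j
          rw [mul_pow]
          ring
      _ = ∑' j, ∑' l, f j l := hfs.tsum_comm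
      _ = _ := tsum_congr fun j => (hf j).tsum_eq
  -- smallness
  have hc := hsmall c cbound (by
    intro ρ h1 h2
    obtain ⟨u, hu, hu2⟩ := hM ρ h1 h2
    refine ⟨u, hu, ?_⟩
    rw [taylor u (by rw [hu]; exact h2)]
    exact hu2.trans hlt.le) L le_rfl
  -- the main coefficient
  have Sl : Summable fun j => b j * Complex.exp (-(x j : ℂ) * w) *
      ((-(x j : ℂ)) ^ L / (L.factorial : ℂ)) :=
    Summable.of_norm_bounded S1 (fun j => termle j L (by omega))
  have hsplit : c L = b k * Complex.exp (-(x k : ℂ) * w) * ((-(x k : ℂ)) ^ L /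
      (L.factorial : ℂ)) + ∑' j, (if j = k then 0 else b j * Complex.exp (-(x j : ℂ) * w) *
      ((-(x j : ℂ)) ^ L / (L.factorial : ℂ))) := Sl.tsum_eq_add_tsum_ite k
  have hmainterm : ‖b k * Complex.exp (-(x k : ℂ) * w) * ((-(x k : ℂ)) ^ L /
      (L.factorial : ℂ))‖ = Real.exp (-(L:ℝ)) / (L.factorial : ℝ) := by
    rw [normterm, hk, hbk]
    simp
    ring
  have hphisum : Summable fun j => ρ0 ^ (m + 1) * Real.exp 1 * (x j * Real.exp (-x j)) :=
    S1.mul_left _
  have hrest : ‖∑' j, (if j = k then 0 else b j * Complex.exp (-(x j : ℂ) * w) *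
      ((-(x j : ℂ)) ^ L / (L.factorial : ℂ)))‖ ≤ Real.exp (-(L:ℝ)) / (2 * (L.factorial : ℝ)) := by
    have h1 : ‖∑' j, (if j = k then 0 else b j * Complex.exp (-(x j : ℂ) * w) *
      ((-(x j : ℂ)) ^ L / (L.factorial : ℂ)))‖ ≤ ∑' j, (Real.exp (-(L:ℝ)) / (L.factorial : ℝ) *
        (ρ0 ^ (m + 1) * Real.exp 1 * (x j * Real.exp (-x j)))) := by
      apply tsum_of_norm_bounded (hphisum.mul_left _).hasSum
      intro j
      have hxj := hx j
      by_cases hj : j = k
      · rw [if_pos hj, norm_zero]; positivity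
      · rw [if_neg hj, normterm]
        have hcase : q ≤ x j ∨ x j ≤ 1 / q := by
          rcases lt_or_gt_of_ne hj with h | h
          · right
            have := seq_gap hq hx hs h
            rw [hk] at this
            rw [le_div_iff₀ (by linarith)]
            linarith
          · left
            have := seq_gap hq hx hs h
            rw [hk] at this
            linarith
        have hφ := hphi (x j) hxj hcase
        have e1 : Real.exp (-x j * L) * (x j) ^ L = Real.exp (-(L:ℝ)) *
            (x j * Real.exp (1 - x j)) ^ L := by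
          rw [mul_pow, ← Real.exp_nat_mul, mul_left_comm, ← Real.exp_add, mul_comm]
          congr 2
          ring
        have e2 : (x j * Real.exp (1 - x j)) ^ L ≤ ρ0 ^ (m + 1) * Real.exp 1 *
            (x j * Real.exp (-x j)) := by
          rw [hL1, pow_succ]
          have h3 : (x j * Real.exp (1 - x j)) ^ (m + 1) ≤ ρ0 ^ (m + 1) :=
            pow_le_pow_left₀ (by positivity) hφ _
          have h4 : x j * Real.exp (1 - x j) = Real.exp 1 * (x j * Real.exp (-x j)) := by
            rw [sub_eq_add_neg, Real.exp_add]; ring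
          calc (x j * Real.exp (1 - x j)) ^ (m + 1) * (x j * Real.exp (1 - x j))
              ≤ ρ0 ^ (m + 1) * (x j * Real.exp (1 - x j)) := by gcongr
            _ = _ := by rw [h4]; ring
        calc ‖b j‖ * Real.exp (-x j * L) * ((x j) ^ L / (L.factorial : ℝ))
            ≤ 1 * Real.exp (-x j * L) * ((x j) ^ L / (L.factorial : ℝ)) := by
              gcongr
              exact hb j
          _ = (Real.exp (-x j * L) * (x j) ^ L) / (L.factorial : ℝ) := by ring
          _ = Real.exp (-(L:ℝ)) / (L.factorial : ℝ) * (x j * Real.exp (1 - x j)) ^ L := by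
              rw [e1]; ring
          _ ≤ _ := by gcongr
    rw [tsum_mul_left, tsum_mul_left] at h1
    refine h1.trans ?_
    have h2 : ρ0 ^ (m + 1) * Real.exp 1 * ∑' j, x j * Real.exp (-x j) ≤ 1 / 2 := by
      calc ρ0 ^ (m + 1) * Real.exp 1 * ∑' j, x j * Real.exp (-x j)
          ≤ ρ0 ^ (m + 1) * Real.exp 1 * Cq := by gcongr
        _ = ρ0 ^ (m + 1) * (Real.exp 1 * Cq) := by ring
        _ ≤ 1 / 2 := hpow
    calc Real.exp (-(L:ℝ)) / (L.factorial : ℝ) * (ρ0 ^ (m + 1) * Real.exp 1 *
          ∑' j, x j * Real.exp (-x j)) ≤ Real.exp (-(L:ℝ)) / (L.factorial : ℝ) * (1 / 2) := by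
          gcongr
      _ = _ := by ring
  have hfinal : Real.exp (-(L:ℝ)) / (L.factorial : ℝ) ≤ ‖c L‖ +
      Real.exp (-(L:ℝ)) / (2 * (L.factorial : ℝ)) := by
    rw [← hmainterm]
    have e : b k * Complex.exp (-(x k : ℂ) * w) * ((-(x k : ℂ)) ^ L / (L.factorial : ℂ)) =
      c L - ∑' j, (if j = k then 0 else b j * Complex.exp (-(x j : ℂ) * w) *
      ((-(x j : ℂ)) ^ L / (L.factorial : ℂ))) := by rw [hsplit]; ring
    rw [e]
    exact (norm_sub_le _ _).trans (add_le_add le_rfl hrest)
  have hpos : 0 < Real.exp (-(L:ℝ)) / (L.factorial : ℝ) := by positivity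
  have e1 : Real.exp (-(L:ℝ)) / (2 * (L.factorial : ℝ)) =
      Real.exp (-(L:ℝ)) / (L.factorial : ℝ) / 2 := by field_simp
  have e2 : Real.exp (-(L:ℝ)) / (4 * (L.factorial : ℝ)) =
      Real.exp (-(L:ℝ)) / (L.factorial : ℝ) / 4 := by field_simp
  rw [e1] at hfinal
  rw [e2] at hc
  linarith

end GapForcing
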