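import Pool.Agent.Lib.MP_c80ac4_an.CN.Barrier2

/-! From a path which ends near the boundary point `iθ` to a bound on the normal at `iθ`. -/

namespace GapForcing

open Set Metric

theorem radial_bound {F : ℂ → ℂ} {B M : ℝ} (hB : 0 ≤ B)
    (hd : ∀ w : ℂ, 0 < w.re → DifferentiableAt ℂ F w)
    (hF' : ∀ w : ℂ, 0 < w.re → ‖deriv F w‖ ≤ B / w.re)
    {γ : ℝ → ℂ} (hγ : ContinuousOn γ (Icc 0 1))
    (hpos : ∀ s ∈ Icc (0:ℝ) 1, 0 < (γ s).re)
    (hM : ∀ s ∈ Icc (0:ℝ) 1, ‖F (γ s)‖ ≤ M) {h θ : ℝ} (hh : 0 < h) (hstart : h ≤ (γ 0).re)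
    (hend : (γ 1).re < h) (hend' : |(γ 1).im - θ| < h) :
    ‖F ((h : ℂ) + (θ : ℂ) * Complex.I)‖ ≤ 2 * M + 14 * B := by
  have hM0 : 0 ≤ M := (norm_nonneg _).trans (hM 0 ⟨le_rfl, zero_le_one⟩)
  -- last time outside the low box
  let T : Set ℝ := {t ∈ Icc (0:ℝ) 1 | ¬ ((γ t).re < h ∧ |(γ t).im - θ| < 9 * h)}
  have hT0 : (0:ℝ) ∈ T := ⟨⟨le_rfl, zero_le_one⟩, fun hc => absurd hc.1 (not_lt.2 hstart)⟩
  have hTclosed : IsClosed T := by
    have hre : ContinuousOn (fun t => (γ t).re) (Icc (0:ℝ) 1) :=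
      Complex.continuous_re.comp_continuousOn hγ
    have him : ContinuousOn (fun t => |(γ t).im - θ|) (Icc (0:ℝ) 1) :=
      ((Complex.continuous_im.comp_continuousOn hγ).sub continuousOn_const).abs
    have e : T = {t ∈ Icc (0:ℝ) 1 | h ≤ (γ t).re} ∪ {t ∈ Icc (0:ℝ) 1 | 9 * h ≤ |(γ t).im - θ|} := by
      ext t
      simp only [T, mem_ofPred_eq, mem_union, not_and_or, not_lt]
      tauto
    rw [e]
    apply IsClosed.union
    · exact hre.preimage_isClosed_of_isClosed isClosed_Icc isClosed_Ici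
    · exact him.preimage_isClosed_of_isClosed isClosed_Icc isClosed_Ici
  have hTcomp : IsCompact T := isCompact_Icc.of_isClosed_subset hTclosed (fun t ht => ht.1)
  obtain ⟨τ, hτT, hτmax⟩ := hTcomp.exists_isMaxOn ⟨0, hT0⟩ continuousOn_id
  have hτ01 : τ ∈ Icc (0:ℝ) 1 := hτT.1
  have hτ1 : τ < 1 := by
    refine lt_of_le_of_ne hτ01.2 ?_
    rintro rfl
    exact hτT.2 ⟨hend, by linarith⟩
  have hafter : ∀ t, τ < t → t ≤ 1 → (γ t).re < h ∧ |(γ t).im - θ| < 9 * h := by
    intro t ht1 ht2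
    by_contra hc
    have : t ∈ T := ⟨⟨hτ01.1.trans ht1.le, ht2⟩, hc⟩
    exact absurd (hτmax this) (not_le.2 ht1)
  -- closure at τ
  have hcont : ContinuousWithinAt γ (Ioc τ 1) τ :=
    (hγ τ hτ01).mono (fun t ht => ⟨hτ01.1.trans ht.1.le, ht.2⟩)
  have hne : (nhdsWithin τ (Ioc τ 1)).NeBot := by
    rw [← mem_closure_iff_nhdsWithin_neBot, closure_Ioc hτ1.ne]
    exact ⟨le_rfl, hτ1.le⟩
  have hτre : (γ τ).re ≤ h := by
    have h1 : Filter.Tendsto (fun t => (γ t).re) (nhdsWithin τ (Ioc τ 1)) (nhds (γ τ).re) :=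
      (Complex.continuous_re.continuousAt.tendsto).comp hcont
    apply le_of_tendsto h1
    filter_upwards [self_mem_nhdsWithin] with t ht
    exact (hafter t ht.1 ht.2).1.le
  have hτim : |(γ τ).im - θ| ≤ 9 * h := by
    have h1 : Filter.Tendsto (fun t => |(γ t).im - θ|) (nhdsWithin τ (Ioc τ 1))
        (nhds |(γ τ).im - θ|) := by
      have h2 : Filter.Tendsto (fun t => (γ t).im) (nhdsWithin τ (Ioc τ 1)) (nhds (γ τ).im) :=
        (Complex.continuous_im.continuousAt.tendsto).comp hcont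
      exact (h2.sub_const θ).abs
    apply le_of_tendsto h1
    filter_upwards [self_mem_nhdsWithin] with t ht
    exact (hafter t ht.1 ht.2).2.le
  by_cases hcase : (γ τ).re = h
  · -- the path meets the box
    have h1 := hM τ hτ01
    have h2 := horiz_bound hd hF' (y := h) (x1 := θ) (x2 := (γ τ).im) hh
    have h3 : ((h : ℂ) + ((γ τ).im : ℂ) * Complex.I) = γ τ := by
      rw [← hcase]; exact Complex.re_add_im _
    rw [h3] at h2
    have h4 : B / h * |θ - (γ τ).im| ≤ 9 * B := by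
      rw [abs_sub_comm]
      calc B / h * |(γ τ).im - θ| ≤ B / h * (9 * h) := by gcongr
        _ = 9 * B := by field_simp
    have h5 : ‖F ((h : ℂ) + (θ : ℂ) * Complex.I)‖ ≤
        ‖F ((h : ℂ) + (θ : ℂ) * Complex.I) - F (γ τ)‖ + ‖F (γ τ)‖ := by
      have := norm_add_le (F ((h : ℂ) + (θ : ℂ) * Complex.I) - F (γ τ)) (F (γ τ))
      simpa using this
    linarith
  · have hτre' : (γ τ).re < h := lt_of_le_of_ne hτre hcase
    have hτim' : |(γ τ).im - θ| = 9 * h := by
      refine le_antisymm hτim ?_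
      by_contra hc
      push Not at hc
      exact hτT.2 ⟨hτre', hc⟩
    have hlow : ∀ t, τ ≤ t → t ≤ 1 → (γ t).re < h := by
      intro t ht1 ht2
      rcases ht1.eq_or_lt with h1 | h1
      · rw [← h1]; exact hτre'
      · exact (hafter t h1 ht2).1
    have himc : ContinuousOn (fun t => (γ t).im) (Icc τ 1) :=
      (Complex.continuous_im.comp_continuousOn hγ).mono (fun t ht => ⟨hτ01.1.trans ht.1, ht.2⟩)
    have hend2 := abs_lt.1 hend'
    rcases (abs_eq (by positivity : (0:ℝ) ≤ 9 * h)).1 hτim' with hc | hc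
    · -- from the right
      obtain ⟨σ, hσ, hσe⟩ : ∃ σ ∈ Icc τ 1, (γ σ).im = θ + h := by
        have := intermediate_value_Icc' hτ1.le himc
        exact this ⟨by linarith, by linarith⟩
      have hg : ContinuousOn (fun s : ℝ => γ (σ - (σ - τ) * s)) (Icc 0 1) := by
        apply hγ.comp (by fun_prop)
        intro s hs
        have h1 : 0 ≤ (σ - τ) * s := mul_nonneg (by linarith [hσ.1]) hs.1
        have h2 : (σ - τ) * s ≤ (σ - τ) * 1 := mul_le_mul_of_nonneg_left hs.2 (by linarith [hσ.1])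
        exact ⟨by linarith [hτ01.1], by linarith [hσ.2]⟩
      have hrange : ∀ s ∈ Icc (0:ℝ) 1, τ ≤ σ - (σ - τ) * s ∧ σ - (σ - τ) * s ≤ 1 := by
        intro s hs
        have h1 : 0 ≤ (σ - τ) * s := mul_nonneg (by linarith [hσ.1]) hs.1
        have h2 : (σ - τ) * s ≤ (σ - τ) * 1 := mul_le_mul_of_nonneg_left hs.2 (by linarith [hσ.1])
        exact ⟨by linarith, by linarith [hσ.2]⟩
      have key := barrier (xL := θ + h) (W := 8 * h) hB hd hF' hg (by positivity)
        (by simp only [mul_zero, sub_zero]; exact hσe)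
        (by simp only [mul_one, sub_sub_cancel]; linarith)
        (fun s hs => hpos _ ⟨hτ01.1.trans (hrange s hs).1, (hrange s hs).2⟩)
        (fun s hs => by
          have := hlow _ (hrange s hs).1 (hrange s hs).2
          linarith)
        (fun s hs => hM _ ⟨hτ01.1.trans (hrange s hs).1, (hrange s hs).2⟩)
      have e1 : (((8 * h / 8 : ℝ) : ℂ) + ((θ + h + 8 * h / 2 : ℝ) : ℂ) * Complex.I) =
          (h : ℂ) + ((θ + 5 * h : ℝ) : ℂ) * Complex.I := by
        push_cast; ring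
      rw [e1] at key
      have h2 := horiz_bound hd hF' (y := h) (x1 := θ) (x2 := θ + 5 * h) hh
      have h4 : B / h * |θ - (θ + 5 * h)| = 5 * B := by
        rw [abs_sub_comm, abs_of_nonneg (by linarith)]
        field_simp
        ring
      rw [h4] at h2
      have h5 : ‖F ((h : ℂ) + (θ : ℂ) * Complex.I)‖ ≤
          ‖F ((h : ℂ) + (θ : ℂ) * Complex.I) - F ((h : ℂ) + ((θ + 5 * h : ℝ) : ℂ) * Complex.I)‖ +
          ‖F ((h : ℂ) + ((θ + 5 * h : ℝ) : ℂ) * Complex.I)‖ := by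
        have := norm_add_le (F ((h : ℂ) + (θ : ℂ) * Complex.I) -
          F ((h : ℂ) + ((θ + 5 * h : ℝ) : ℂ) * Complex.I))
          (F ((h : ℂ) + ((θ + 5 * h : ℝ) : ℂ) * Complex.I))
        simpa using this
      linarith
    · -- from the left
      obtain ⟨σ, hσ, hσe⟩ : ∃ σ ∈ Icc τ 1, (γ σ).im = θ - h := by
        have := intermediate_value_Icc hτ1.le himc
        exact this ⟨by linarith, by linarith⟩
      have hrange : ∀ s ∈ Icc (0:ℝ) 1, τ ≤ τ + (σ - τ) * s ∧ τ + (σ - τ) * s ≤ 1 := by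
        intro s hs
        have h1 : 0 ≤ (σ - τ) * s := mul_nonneg (by linarith [hσ.1]) hs.1
        have h2 : (σ - τ) * s ≤ (σ - τ) * 1 := mul_le_mul_of_nonneg_left hs.2 (by linarith [hσ.1])
        exact ⟨by linarith, by linarith [hσ.2]⟩
      have hg : ContinuousOn (fun s : ℝ => γ (τ + (σ - τ) * s)) (Icc 0 1) := by
        apply hγ.comp (by fun_prop)
        intro s hs
        exact ⟨hτ01.1.trans (hrange s hs).1, (hrange s hs).2⟩
      have key := barrier (xL := θ - 9 * h) (W := 8 * h) hB hd hF' hg (by positivity)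
        (by simp only [mul_zero, add_zero]; linarith)
        (by simp only [mul_one, add_sub_cancel]; linarith)
        (fun s hs => hpos _ ⟨hτ01.1.trans (hrange s hs).1, (hrange s hs).2⟩)
        (fun s hs => by
          have := hlow _ (hrange s hs).1 (hrange s hs).2
          linarith)
        (fun s hs => hM _ ⟨hτ01.1.trans (hrange s hs).1, (hrange s hs).2⟩)
      have e1 : (((8 * h / 8 : ℝ) : ℂ) + ((θ - 9 * h + 8 * h / 2 : ℝ) : ℂ) * Complex.I) =
          (h : ℂ) + ((θ - 5 * h : ℝ) : ℂ) * Complex.I := by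
        push_cast; ring
      rw [e1] at key
      have h2 := horiz_bound hd hF' (y := h) (x1 := θ) (x2 := θ - 5 * h) hh
      have h4 : B / h * |θ - (θ - 5 * h)| = 5 * B := by
        rw [abs_of_nonneg (by linarith)]
        field_simp
        ring
      rw [h4] at h2
      have h5 : ‖F ((h : ℂ) + (θ : ℂ) * Complex.I)‖ ≤
          ‖F ((h : ℂ) + (θ : ℂ) * Complex.I) - F ((h : ℂ) + ((θ - 5 * h : ℝ) : ℂ) * Complex.I)‖ +
          ‖F ((h : ℂ) + ((θ - 5 * h : ℝ) : ℂ) * Complex.I)‖ := by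
        have := norm_add_le (F ((h : ℂ) + (θ : ℂ) * Complex.I) -
          F ((h : ℂ) + ((θ - 5 * h : ℝ) : ℂ) * Complex.I))
          (F ((h : ℂ) + ((θ - 5 * h : ℝ) : ℂ) * Complex.I))
        simpa using this
      linarith

end GapForcing
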