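import Pool.Agent.Lib.MP_c80ac4_an.CN.Lift
import Pool.Agent.Lib.MP_c80ac4_an.CN.Radial
import Pool.Agent.Lib.MP_c80ac4_an.CN.Bounded

/-! Connected sets: a Hadamard gap series bounded on a connected set is bounded on the radii ending
in the closure of the set. -/

namespace GapForcing

open Set Metric Filter Topology

/-- the gap series is continuous in the disc -/
lemma continuousOn_gapSeries {a : ℕ → ℂ} {n : ℕ → ℕ} (hc : ConvergesInDisc a n) :
    ContinuousOn (gapSeries a n) (ball 0 1) := by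
  intro z hz
  have hz1 : ‖z‖ < 1 := by simpa using hz
  obtain ⟨ρ, hρ1, hρ2⟩ := exists_between hz1
  have hρ0 : 0 ≤ ρ := (norm_nonneg _).trans hρ1.le
  have hs : Summable fun k => ‖a k‖ * ρ ^ n k := by
    have := (hc (ρ : ℂ) (by simpa [abs_of_nonneg hρ0] using hρ2)).norm
    apply this.congr
    intro k
    rw [norm_mul, norm_pow, Complex.norm_real, Real.norm_of_nonneg hρ0]
  have hcont : ContinuousOn (gapSeries a n) (closedBall 0 ρ) := by
    apply continuousOn_tsum (u := fun k => ‖a k‖ * ρ ^ n k)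
    · intro k
      exact (continuous_const.mul (continuous_pow _)).continuousOn
    · exact hs
    · intro k w hw
      have hw' : ‖w‖ ≤ ρ := by simpa using hw
      rw [norm_mul, norm_pow]
      gcongr
  have hmem : closedBall (0:ℂ) ρ ∈ 𝓝 z := by
    apply mem_of_superset (isOpen_ball.mem_nhds (x := z) (s := ball 0 ρ) (by simpa using hρ1))
    exact ball_subset_closedBall
  exact (hcont.continuousAt hmem).continuousWithinAt

lemma hpSeries_add_period (a : ℕ → ℂ) (n : ℕ → ℕ) (w : ℂ) (k : ℤ) :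
    hpSeries a n (w + k * (2 * Real.pi * Complex.I)) = hpSeries a n w := by
  rw [← gapSeries_exp, ← gapSeries_exp]
  congr 1
  rw [Complex.exp_eq_exp_iff_exists_int]
  exact ⟨-k, by push_cast; ring⟩

/-- points of the disc near `e^{-iθ}` have a logarithm near `iθ` -/
lemma log_near (θ : ℝ) {h : ℝ} (hh : 0 < h) :
    ∀ᶠ z : ℂ in 𝓝 (Complex.exp (-((θ : ℂ) * Complex.I))),
      ∃ w : ℂ, Complex.exp (-w) = z ∧ ‖w - (θ : ℂ) * Complex.I‖ < h := by
  have h1 : ContinuousAt (fun z : ℂ => Complex.log (z * Complex.exp ((θ : ℂ) * Complex.I)))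
      (Complex.exp (-((θ : ℂ) * Complex.I))) := by
    apply ContinuousAt.clog
    · exact continuousAt_id.mul continuousAt_const
    · rw [← Complex.exp_add]
      simp
  have h2 : Complex.log (Complex.exp (-((θ : ℂ) * Complex.I)) *
      Complex.exp ((θ : ℂ) * Complex.I)) = 0 := by
    rw [← Complex.exp_add]; simp
  have h3 : Tendsto (fun z : ℂ => Complex.log (z * Complex.exp ((θ : ℂ) * Complex.I)))
      (𝓝 (Complex.exp (-((θ : ℂ) * Complex.I)))) (𝓝 0) := by
    have := h1.tendsto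
    rwa [h2] at this
  have h4 := h3.eventually (Metric.ball_mem_nhds (0:ℂ) hh)
  have h5 : ∀ᶠ z : ℂ in 𝓝 (Complex.exp (-((θ : ℂ) * Complex.I))), z ≠ 0 :=
    isOpen_ne.mem_nhds (Complex.exp_ne_zero _)
  filter_upwards [h4, h5] with z hz hz0
  refine ⟨(θ : ℂ) * Complex.I - Complex.log (z * Complex.exp ((θ : ℂ) * Complex.I)), ?_, ?_⟩
  · rw [neg_sub, Complex.exp_sub, Complex.exp_log (mul_ne_zero hz0 (Complex.exp_ne_zero _))]
    field_simp
  · have e : (θ : ℂ) * Complex.I - Complex.log (z * Complex.exp ((θ : ℂ) * Complex.I)) -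
        (θ : ℂ) * Complex.I = -Complex.log (z * Complex.exp ((θ : ℂ) * Complex.I)) := by ring
    rw [e, norm_neg]
    simpa using hz

/-- **Connected sets.** -/
theorem connected_radial {q : ℝ} (hq : 1 < q) {n : ℕ → ℕ} (hn : HadamardGaps q n) {a : ℕ → ℂ}
    (hc : ConvergesInDisc a n) {S : Set ℂ} (hS : S ⊆ ball 0 1) {r : ℝ} (hr0 : 0 ≤ r) (hr : r < 1)
    (hconn : IsPreconnected (S ∪ closedBall 0 r)) (hb : BoundedOn (gapSeries a n) S)
    (hne : ∃ z0 ∈ closure S, ‖z0‖ = 1) :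
    ∃ M y0 : ℝ, 0 < y0 ∧ ∀ θ : ℝ, Complex.exp (-((θ : ℂ) * Complex.I)) ∈ closure S →
      ∀ h : ℝ, 0 < h → h < y0 → ‖hpSeries a n ((h : ℂ) + (θ : ℂ) * Complex.I)‖ ≤ M := by
  have hfc := continuousOn_gapSeries hc
  set r1 : ℝ := max r (1 / 2) with hr1
  have hr1lt : r1 < 1 := max_lt hr (by norm_num)
  have hr1pos : 0 < r1 := lt_max_of_lt_right (by norm_num)
  have hsub : closedBall (0:ℂ) r1 ⊆ ball 0 1 := closedBall_subset_ball hr1lt
  -- bound on the closed ball
  obtain ⟨M1, hM1⟩ := hb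
  obtain ⟨M2, hM2⟩ := (isCompact_closedBall (0:ℂ) r1).exists_bound_of_continuousOn (hfc.mono hsub)
  set M : ℝ := max M1 M2 + 1 with hM
  set V : Set ℂ := {z ∈ ball (0:ℂ) 1 | ‖gapSeries a n z‖ < M} with hV
  have hVo : IsOpen V := by
    have := hfc.norm.isOpen_inter_preimage isOpen_ball (isOpen_Iio (a := M))
    exact this
  have hTV : S ∪ closedBall 0 r1 ⊆ V := by
    rintro z (hz | hz)
    · exact ⟨hS hz, lt_of_le_of_lt ((hM1 z hz).trans (le_max_left _ _)) (lt_add_one _)⟩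
    · exact ⟨hsub hz, lt_of_le_of_lt ((hM2 z hz).trans (le_max_right _ _)) (lt_add_one _)⟩
  have hTconn : IsPreconnected (S ∪ closedBall (0:ℂ) r1) := by
    have e : S ∪ closedBall (0:ℂ) r1 = (S ∪ closedBall 0 r) ∪ closedBall 0 r1 := by
      rw [Set.union_assoc, Set.union_eq_self_of_subset_left
        (closedBall_subset_closedBall (le_max_left _ _))]
    rw [e]
    exact hconn.union 0 (Or.inr (by simpa using hr0)) (by simpa using hr1pos.le)
      (convex_closedBall 0 r1).isPreconnected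
  have h0T : (0:ℂ) ∈ S ∪ closedBall (0:ℂ) r1 := Or.inr (by simpa using hr1pos.le)
  have hjoin : ∀ z ∈ S, JoinedIn V 0 z := by
    intro z hz
    have hcomp : S ∪ closedBall (0:ℂ) r1 ⊆ connectedComponentIn V 0 :=
      hTconn.subset_connectedComponentIn h0T hTV
    have hVc : IsConnected (connectedComponentIn V 0) :=
      ⟨⟨0, hcomp h0T⟩, isPreconnected_connectedComponentIn⟩
    have hpc := (hVo.connectedComponentIn.isConnected_iff_isPathConnected).1 hVc
    exact (hpc.joinedIn 0 (hcomp h0T) z (hcomp (Or.inl hz))).mono (connectedComponentIn_subset _ _)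
  set y0 : ℝ := -Real.log r1 with hy0
  have hy0pos : 0 < y0 := by
    have := Real.log_neg hr1pos hr1lt
    linarith
  -- the lifted paths
  have hlift : ∀ z ∈ S, r1 < ‖z‖ → ∃ γ : ℝ → ℂ, Continuous γ ∧ (γ 0).re = y0 ∧
      Complex.exp (-γ 1) = z ∧ (∀ s, 0 < (γ s).re) ∧ ∀ s, ‖hpSeries a n (γ s)‖ ≤ M := by
    intro z hz hzr
    obtain ⟨p, hp⟩ := hjoin z hz
    obtain ⟨γ, hγ, h0, h1, hγV⟩ := exists_lift hr1pos hzr p hp
    refine ⟨γ, hγ, h0, h1, ?_, ?_⟩
    · intro s
      have h2 : ‖Complex.exp (-γ s)‖ < 1 := by simpa using (hγV s).1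
      rw [Complex.norm_exp, Complex.neg_re, Real.exp_lt_one_iff] at h2
      linarith
    · intro s
      rw [← gapSeries_exp]
      exact (hγV s).2.le
  -- points of S near the circle
  have hnear : ∀ y : ℝ, 0 < y → ∃ z ∈ S, r1 < ‖z‖ ∧ -Real.log ‖z‖ ≤ y := by
    intro y hy
    obtain ⟨z0, hz0, hz01⟩ := hne
    have h1 : max r1 (Real.exp (-y)) < ‖z0‖ := by
      rw [hz01]
      exact max_lt hr1lt (by rw [Real.exp_lt_one_iff]; linarith)
    have ho : IsOpen {z : ℂ | max r1 (Real.exp (-y)) < ‖z‖} :=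
      isOpen_lt continuous_const continuous_norm
    obtain ⟨z, hz1, hz2⟩ := mem_closure_iff.1 hz0 _ ho h1
    have hz1' : max r1 (Real.exp (-y)) < ‖z‖ := hz1
    refine ⟨z, hz2, (le_max_left _ _).trans_lt hz1', ?_⟩
    have h2 : Real.exp (-y) ≤ ‖z‖ := ((le_max_right _ _).trans_lt hz1').le
    have h3 := Real.log_le_log (Real.exp_pos _) h2
    rw [Real.log_exp] at h3
    linarith
  -- the coefficients are bounded
  obtain ⟨A, hA0, hA⟩ : ∃ A : ℝ, 0 ≤ A ∧ ∀ j, ‖a j‖ ≤ A := by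
    apply coef_bounded hq hn hc hy0pos (M := M)
    intro y hy hy2
    obtain ⟨z, hzS, hzr, hzy⟩ := hnear y hy
    obtain ⟨γ, hγ, h0, h1, hpos, hγM⟩ := hlift z hzS hzr
    have hend : (γ 1).re ≤ y := by
      have : ‖z‖ = Real.exp (-(γ 1).re) := by rw [← h1, Complex.norm_exp, Complex.neg_re]
      rw [this, Real.log_exp] at hzy
      linarith
    have hre : ContinuousOn (fun s => (γ s).re) (Icc 0 1) :=
      (Complex.continuous_re.comp hγ).continuousOn
    obtain ⟨s1, hs1, hs1e⟩ := intermediate_value_Icc' zero_le_one hre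
      (⟨hend, by rw [h0]; linarith⟩ : y ∈ Icc ((γ 1).re) ((γ 0).re))
    simp only at hs1e
    refine ⟨γ s1, hs1e, ?_⟩
    intro ρ hρ0 hρ2
    have hd : ContinuousOn (fun s => ‖γ s - γ s1‖) (Icc 0 s1) :=
      (hγ.sub continuous_const).norm.continuousOn
    have hbig : ρ ≤ ‖γ 0 - γ s1‖ := by
      have h2 : (γ 0 - γ s1).re ≤ ‖γ 0 - γ s1‖ := Complex.re_le_norm _
      rw [Complex.sub_re, h0, hs1e] at h2
      linarith
    obtain ⟨s, hs, hse⟩ := intermediate_value_Icc' hs1.1 hd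
      (⟨by simpa using hρ0, hbig⟩ : ρ ∈ Icc (‖γ s1 - γ s1‖) (‖γ 0 - γ s1‖))
    refine ⟨γ s - γ s1, hse, ?_⟩
    rw [add_sub_cancel]
    exact hγM s
  set B : ℝ := A * (2 * q / (q - 1)) with hB
  have hB0 : 0 ≤ B := by
    have : 0 < q - 1 := by linarith
    positivity
  refine ⟨2 * M + 14 * B, y0, hy0pos, ?_⟩
  intro θ hθ h hh hhy
  have hev := log_near θ hh
  have hn1 : ‖Complex.exp (-((θ : ℂ) * Complex.I))‖ = 1 := by
    rw [Complex.norm_exp]; simp
  have hev2 : ∀ᶠ z : ℂ in 𝓝 (Complex.exp (-((θ : ℂ) * Complex.I))), r1 < ‖z‖ := by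
    apply (isOpen_lt continuous_const continuous_norm).mem_nhds
    change r1 < ‖Complex.exp (-((θ : ℂ) * Complex.I))‖
    rw [hn1]; exact hr1lt
  obtain ⟨z, ⟨hz1, hz2⟩, hzS⟩ := mem_closure_iff_nhds.1 hθ _ (hev.and hev2)
  obtain ⟨w, hwz, hwθ⟩ := hz1
  obtain ⟨γ, hγ, h0, h1, hpos, hγM⟩ := hlift z hzS hz2
  obtain ⟨k, hk⟩ := Complex.exp_eq_exp_iff_exists_int.1 (h1.trans hwz.symm)
  -- shift the path
  have hper : ∀ s, hpSeries a n (γ s + k * (2 * Real.pi * Complex.I)) = hpSeries a n (γ s) :=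
    fun s => hpSeries_add_period a n (γ s) k
  have hkre : ((k : ℂ) * (2 * Real.pi * Complex.I)).re = 0 := by simp
  have e1 : γ 1 + k * (2 * Real.pi * Complex.I) = w := by
    have := hk
    linear_combination -this
  have key := radial_bound (γ := fun s => γ s + k * (2 * Real.pi * Complex.I)) (θ := θ) hB0
    (fun w hw => hp_differentiableAt hq hn hA hw) (fun w hw => hp_deriv_le hq hn hA hw)
    (hγ.add continuous_const).continuousOn
    (fun s _ => by rw [Complex.add_re, hkre, add_zero]; exact hpos s)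
    (fun s _ => by rw [hper]; exact hγM s) hh
    (by rw [Complex.add_re, hkre, add_zero, h0]; exact hhy.le)
    (by
      rw [e1]
      have h2 : (w - (θ : ℂ) * Complex.I).re ≤ ‖w - (θ : ℂ) * Complex.I‖ := Complex.re_le_norm _
      have h3 : (w - (θ : ℂ) * Complex.I).re = w.re := by simp
      linarith)
    (by
      rw [e1]
      have h2 : |(w - (θ : ℂ) * Complex.I).im| ≤ ‖w - (θ : ℂ) * Complex.I‖ :=
        Complex.abs_im_le_norm _
      have h3 : (w - (θ : ℂ) * Complex.I).im = w.im - θ := by simp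
      rw [h3] at h2
      linarith)
  exact key

end GapForcing
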