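import Mathlib
import Pool.Agent.Lib.MP_8fca14_co.Brouwer

/-! The crossing lemma for two paths in the plane, from Brouwer's theorem. -/

namespace GapForcing

open Set

/-- clamp to `[0,1]` -/
noncomputable def cl (t : ℝ) : ℝ := max 0 (min t 1)

lemma continuous_cl : Continuous cl := by unfold cl; fun_prop

lemma cl_mem (t : ℝ) : cl t ∈ Icc (0:ℝ) 1 := by
  unfold cl
  exact ⟨le_max_left _ _, max_le zero_le_one (min_le_right _ _)⟩

lemma cl_of_le {t : ℝ} (h : t ≤ 0) : cl t = 0 := by
  unfold cl
  rw [max_eq_left]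
  exact (min_le_left _ _).trans h

lemma cl_of_ge {t : ℝ} (h : 1 ≤ t) : cl t = 1 := by
  unfold cl
  rw [min_eq_right h]
  simp

/-- **Crossing lemma**: the path `g` goes from left to right of the path `v`, the path `v` goes
from below to above the path `g`; then they meet.  (Left-right = imaginary part, height = real
part.) -/
theorem crossing {g v : ℝ → ℂ} (hg : ContinuousOn g (Icc 0 1)) (hv : ContinuousOn v (Icc 0 1))
    (h1 : ∀ t ∈ Icc (0:ℝ) 1, (g 0).im ≤ (v t).im) (h2 : ∀ t ∈ Icc (0:ℝ) 1, (v t).im ≤ (g 1).im)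
    (h3 : ∀ s ∈ Icc (0:ℝ) 1, (v 0).re ≤ (g s).re) (h4 : ∀ s ∈ Icc (0:ℝ) 1, (g s).re ≤ (v 1).re) :
    ∃ s ∈ Icc (0:ℝ) 1, ∃ t ∈ Icc (0:ℝ) 1, g s = v t := by
  by_contra hne
  push Not at hne
  -- shift parameters: s = (x+1)/2
  let p : ℝ → ℝ := fun x => cl ((x + 1) / 2)
  have hp : Continuous p := continuous_cl.comp (by fun_prop)
  have hpm : ∀ x, p x ∈ Icc (0:ℝ) 1 := fun x => cl_mem _
  have hgp : Continuous fun x => g (p x) := hg.comp_continuous hp hpm
  have hvp : Continuous fun x => v (p x) := hv.comp_continuous hp hpm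
  let N : (Fin 2 → ℝ) → ℝ := fun X =>
    max |(g (p (X 0))).im - (v (p (X 1))).im| |(g (p (X 0))).re - (v (p (X 1))).re|
  have hgX : Continuous fun X : Fin 2 → ℝ => g (p (X 0)) := hgp.comp (continuous_apply 0)
  have hvX : Continuous fun X : Fin 2 → ℝ => v (p (X 1)) := hvp.comp (continuous_apply 1)
  have hN : Continuous N := by
    apply Continuous.max
    · exact ((Complex.continuous_im.comp hgX).sub (Complex.continuous_im.comp hvX)).abs
    · exact ((Complex.continuous_re.comp hgX).sub (Complex.continuous_re.comp hvX)).abs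
  have hNpos : ∀ X, 0 < N X := by
    intro X
    have h := hne (p (X 0)) (hpm _) (p (X 1)) (hpm _)
    by_contra hle
    push Not at hle
    have a1 := (le_max_left _ _).trans hle
    have a2 := (le_max_right _ _).trans hle
    have b1 := abs_nonpos_iff.1 a1
    have b2 := abs_nonpos_iff.1 a2
    apply h
    apply Complex.ext <;> linarith
  let F : (Fin 2 → ℝ) → (Fin 2 → ℝ) := fun X =>
    ![((v (p (X 1))).im - (g (p (X 0))).im) / N X, ((g (p (X 0))).re - (v (p (X 1))).re) / N X]
  have hF : Continuous F := by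
    apply continuous_pi
    intro i
    fin_cases i
    · exact ((Complex.continuous_im.comp hvX).sub (Complex.continuous_im.comp hgX)).div₀ hN
        fun X => (hNpos X).ne'
    · exact ((Complex.continuous_re.comp hgX).sub (Complex.continuous_re.comp hvX)).div₀ hN
        fun X => (hNpos X).ne'
  have hF0 : ∀ X, |F X 0| ≤ 1 := by
    intro X
    change |((v (p (X 1))).im - (g (p (X 0))).im) / N X| ≤ 1
    rw [abs_div, abs_of_pos (hNpos X), div_le_one (hNpos X), abs_sub_comm]
    exact le_max_left _ _
  have hF1 : ∀ X, |F X 1| ≤ 1 := by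
    intro X
    change |((g (p (X 0))).re - (v (p (X 1))).re) / N X| ≤ 1
    rw [abs_div, abs_of_pos (hNpos X), div_le_one (hNpos X)]
    exact le_max_right _ _
  have hFb : ∀ X, ‖F X‖ ≤ 1 := by
    intro X
    rw [pi_norm_le_iff_of_nonneg zero_le_one]
    intro i
    fin_cases i
    · exact hF0 X
    · exact hF1 X
  obtain ⟨X, hX⟩ := MP8fca14.Brw.brouwer F hF 1 hFb
  have e0 : ((v (p (X 1))).im - (g (p (X 0))).im) / N X = X 0 := congrFun hX 0
  have e1 : ((g (p (X 0))).re - (v (p (X 1))).re) / N X = X 1 := congrFun hX 1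
  have hNX := hNpos X
  -- one of the coordinates has modulus one
  have hmod : |X 0| = 1 ∨ |X 1| = 1 := by
    rcases max_choice |(g (p (X 0))).im - (v (p (X 1))).im|
      |(g (p (X 0))).re - (v (p (X 1))).re| with h | h
    · left
      have : N X = |(g (p (X 0))).im - (v (p (X 1))).im| := h
      rw [← e0, abs_div, abs_of_pos hNX, this, abs_sub_comm, div_self]
      rw [← this]
      exact hNX.ne'
    · right
      have : N X = |(g (p (X 0))).re - (v (p (X 1))).re| := h
      rw [← e1, abs_div, abs_of_pos hNX, this, div_self]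
      rw [← this]
      exact hNX.ne'
  have p1 : p 1 = 1 := cl_of_ge (by norm_num)
  have pm1 : p (-1) = 0 := cl_of_le (by norm_num)
  rcases hmod with h | h
  · rcases (abs_eq zero_le_one).1 h with h | h
    · have h5 := h2 (p (X 1)) (hpm _)
      rw [h, p1] at e0
      have : ((v (p (X 1))).im - (g 1).im) / N X ≤ 0 :=
        div_nonpos_of_nonpos_of_nonneg (by linarith) hNX.le
      linarith
    · have h5 := h1 (p (X 1)) (hpm _)
      rw [h, pm1] at e0
      have : 0 ≤ ((v (p (X 1))).im - (g 0).im) / N X := div_nonneg (by linarith) hNX.le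
      linarith
  · rcases (abs_eq zero_le_one).1 h with h | h
    · have h5 := h4 (p (X 0)) (hpm _)
      rw [h, p1] at e1
      have : ((g (p (X 0))).re - (v 1).re) / N X ≤ 0 :=
        div_nonpos_of_nonpos_of_nonneg (by linarith) hNX.le
      linarith
    · have h5 := h3 (p (X 0)) (hpm _)
      rw [h, pm1] at e1
      have : 0 ≤ ((g (p (X 0))).re - (v 0).re) / N X := div_nonneg (by linarith) hNX.le
      linarith

end GapForcing
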