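import Mathlib

/-! Auxiliary notions for the connected sets theorem: gap series written with a sequence of
exponents. (Internal to the proof; the statements use `MP_c80ac4_an.Defs`.) -/

namespace GapForcing

/-- Exponents `n 0 < n 1 < ...`, positive, with `n (k+1) / n k ≥ q` for all `k`. -/
def HadamardGaps (q : ℝ) (n : ℕ → ℕ) : Prop :=
  (∀ k, 0 < n k) ∧ StrictMono n ∧ ∀ k, q ≤ (n (k + 1) : ℝ) / (n k : ℝ)

/-- The function `f(z) = ∑ a_k z^{n_k}`. -/
noncomputable def gapSeries (a : ℕ → ℂ) (n : ℕ → ℕ) (z : ℂ) : ℂ := ∑' k, a k * z ^ n k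

/-- The power series `∑ a_k z^{n_k}` converges in the unit disc. -/
def ConvergesInDisc (a : ℕ → ℂ) (n : ℕ → ℕ) : Prop :=
  ∀ z : ℂ, ‖z‖ < 1 → Summable fun k => a k * z ^ n k

/-- `f` is bounded on the set `S`. -/
def BoundedOn (f : ℂ → ℂ) (S : Set ℂ) : Prop := ∃ M : ℝ, ∀ z ∈ S, ‖f z‖ ≤ M

end GapForcing
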