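import Pool.Agent.Lib.MP_c80ac4_an.CN.Main
import Pool.Agent.Lib.MP_c80ac4_an.Criterion

/-! Connected sets: forcing iff the boundary set is a Sidon set. -/

namespace Forcing

open Set Metric Filter Topology

/-- **Connected sets.** If `S` together with some disc `|z| ≤ r`, `r < 1`, is connected (for
instance if `S` itself is connected), then `S` is forcing if and only if the part of its closure
on the unit circle satisfies the Sidon inequalities. -/
theorem connected_forcing_iff {S : Set ℂ} (hS : S ⊆ ball 0 1) {r : ℝ} (hr : r < 1)
    (hconn : IsPreconnected (S ∪ closedBall 0 r)) :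
    IsForcing S ↔ SidonOn (closure S ∩ sphere 0 1) :=
  ⟨fun h => sidonOn_of_forcing hS h,
    fun h => GapForcing.forcing_of_sidon_connected hS hr hconn h⟩

end Forcing
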