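import Pool.Agent.Lib.MP_c80ac4_an.CN.Cross

/-! Lifting a path of the punctured disc through the exponential. -/

namespace GapForcing

open Set Metric

/-- a logarithm of a continuous nonvanishing function of a real variable -/
lemma exists_log {g : ℝ → ℂ} (hg : Continuous g) (h0 : ∀ t, g t ≠ 0) :
    ∃ f : ℝ → ℂ, Continuous f ∧ ∀ t, Complex.exp (f t) = g t := by
  have hsc : IsSimplyConnected (Set.univ : Set ℝ) := by
    have hcs : ContractibleSpace (Set.univ : Set ℝ) :=
      convex_univ.contractibleSpace ⟨0, Set.mem_univ _⟩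
    exact SimplyConnectedSpace.ofContractible _
  obtain ⟨f, hf, hfe⟩ := Complex.exists_continuousOn_eqOn_exp_comp hsc isOpen_univ
    hg.continuousOn (by
      rintro ⟨t, -, ht⟩
      exact h0 t ht)
  exact ⟨f, continuousOn_univ.1 hf, fun t => hfe (Set.mem_univ t)⟩

/-- A path in `V ⊆ ball 0 1` from `0` to a point `z` of modulus larger than `r1` gives a path in the
right half plane from height `-log r1` to a logarithm of `z`. -/
lemma exists_lift {r1 : ℝ} (hr1 : 0 < r1) {V : Set ℂ} {z : ℂ} (hz : r1 < ‖z‖)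
    (p : Path (0:ℂ) z) (hp : ∀ t, p t ∈ V) :
    ∃ γ : ℝ → ℂ, Continuous γ ∧ (γ 0).re = -Real.log r1 ∧ Complex.exp (-γ 1) = z ∧
      ∀ s, Complex.exp (-γ s) ∈ V := by
  -- last time in the closed ball of radius r1
  let T : Set ℝ := {t ∈ Icc (0:ℝ) 1 | ‖p.extend t‖ ≤ r1}
  have hcont : Continuous fun t => ‖p.extend t‖ := p.continuous_extend.norm
  have hT0 : (0:ℝ) ∈ T := ⟨⟨le_rfl, zero_le_one⟩, by
    rw [p.extend_zero, norm_zero]; exact hr1.le⟩
  have hTclosed : IsClosed T := isClosed_Icc.inter (isClosed_le hcont continuous_const)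
  have hTcomp : IsCompact T := isCompact_Icc.of_isClosed_subset hTclosed (fun t ht => ht.1)
  obtain ⟨τ, hτT, hτmax⟩ := hTcomp.exists_isMaxOn ⟨0, hT0⟩ continuousOn_id
  have hτ01 : τ ∈ Icc (0:ℝ) 1 := hτT.1
  have hτ1 : τ < 1 := by
    refine lt_of_le_of_ne hτ01.2 ?_
    rintro rfl
    have := hτT.2
    rw [p.extend_one] at this
    linarith
  have hafter : ∀ t, τ < t → t ≤ 1 → r1 < ‖p.extend t‖ := by
    intro t ht1 ht2
    by_contra hc
    push Not at hc
    have : t ∈ T := ⟨⟨hτ01.1.trans ht1.le, ht2⟩, hc⟩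
    exact absurd (hτmax this) (not_le.2 ht1)
  have hτge : r1 ≤ ‖p.extend τ‖ := by
    have hne : (nhdsWithin τ (Ioc τ 1)).NeBot := by
      rw [← mem_closure_iff_nhdsWithin_neBot, closure_Ioc hτ1.ne]
      exact ⟨le_rfl, hτ1.le⟩
    have h1 : Filter.Tendsto (fun t => ‖p.extend t‖) (nhdsWithin τ (Ioc τ 1))
        (nhds ‖p.extend τ‖) := (hcont.tendsto τ).mono_left nhdsWithin_le_nhds
    apply ge_of_tendsto h1
    filter_upwards [self_mem_nhdsWithin] with t ht
    exact (hafter t ht.1 ht.2).le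
  have hτeq : ‖p.extend τ‖ = r1 := le_antisymm hτT.2 hτge
  -- the clamped path
  let c : ℝ → ℂ := fun s => p.extend (τ + (1 - τ) * cl s)
  have hccont : Continuous c := p.continuous_extend.comp (by
    have := continuous_cl
    fun_prop)
  have hrange : ∀ s, τ ≤ τ + (1 - τ) * cl s ∧ τ + (1 - τ) * cl s ≤ 1 := by
    intro s
    have h1 := cl_mem s
    have h2 : 0 ≤ (1 - τ) * cl s := mul_nonneg (by linarith) h1.1
    have h3 : (1 - τ) * cl s ≤ (1 - τ) * 1 := mul_le_mul_of_nonneg_left h1.2 (by linarith)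
    exact ⟨by linarith, by linarith⟩
  have hcge : ∀ s, r1 ≤ ‖c s‖ := by
    intro s
    rcases (hrange s).1.eq_or_lt with h | h
    · simp only [c]
      rw [← h]
      exact hτge
    · exact (hafter _ h (hrange s).2).le
  have hc0 : ∀ s, c s ≠ 0 := by
    intro s h
    have := hcge s
    rw [h, norm_zero] at this
    linarith
  obtain ⟨g, hg, hge⟩ := exists_log hccont hc0
  refine ⟨fun s => -g s, hg.neg, ?_, ?_, ?_⟩
  · have e : c 0 = p.extend τ := by
      simp only [c]
      rw [cl_of_le le_rfl]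
      simp
    have h1 : ‖Complex.exp (g 0)‖ = r1 := by rw [hge, e, hτeq]
    rw [Complex.norm_exp] at h1
    rw [Complex.neg_re, ← h1, Real.log_exp]
  · have e : c 1 = z := by
      simp only [c]
      rw [cl_of_ge le_rfl]
      simp
    simp only [neg_neg]
    rw [hge, e]
  · intro s
    simp only [neg_neg]
    rw [hge]
    have h01 : τ + (1 - τ) * cl s ∈ Icc (0:ℝ) 1 := ⟨hτ01.1.trans (hrange s).1, (hrange s).2⟩
    simp only [c]
    rw [p.extend_apply h01]
    exact hp _

end GapForcing
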