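import Pool.Agent.Lib.MP_c80ac4_an.Defs

/-! A Sidon inequality on `E` and boundedness on dilates `ρ E` give boundedness in the disc. -/

namespace GapForcing

open Set Metric Filter Topology Forcing

lemma norm_ps_le {c : ℕ → ℂ} (hs : Summable fun n => ‖c n‖) {z : ℂ} (hz : ‖z‖ < 1) :
    ‖ps c z‖ ≤ ∑' n, ‖c n‖ := by
  unfold ps
  apply tsum_of_norm_bounded hs.hasSum
  intro n
  rw [norm_mul, norm_pow]
  have h1 : ‖z‖ ^ n ≤ 1 := pow_le_one₀ (norm_nonneg _) hz.le
  have h2 := norm_nonneg (c n)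
  nlinarith

lemma summable_norm_of_conv {c : ℕ → ℂ} (hc : Conv c) {ρ : ℝ} (h0 : 0 ≤ ρ) (h1 : ρ < 1) :
    Summable fun n => ‖c n‖ * ρ ^ n := by
  have := (hc (ρ : ℂ) (by simpa [abs_of_nonneg h0] using h1)).norm
  apply this.congr
  intro k
  rw [norm_mul, norm_pow, Complex.norm_real, Real.norm_of_nonneg h0]

/-- The main estimate at a fixed radius. -/
lemma sidon_at_radius {E : Set ℂ} (hE : E ⊆ sphere 0 1) {q C M ρ : ℝ} {N : ℕ} {c : ℕ → ℂ}
    (hC : 0 ≤ C) (hI : SidonIneq q N C E) (hL : Lac q c) (hc : Conv c) (h0 : 0 < ρ) (h1 : ρ < 1)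
    (hM0 : 0 ≤ M) (hM : ∀ z ∈ E, ‖ps c (ρ * z)‖ ≤ M) (G : Finset ℕ) (hG : ∀ n ∈ G, N ≤ n) :
    ∑ n ∈ G, ‖c n‖ * ρ ^ n ≤ C * (M + ∑ n ∈ Finset.range N, ‖c n‖) := by
  classical
  have hs := summable_norm_of_conv hc h0.le h1
  -- it suffices to have the bound with an error
  apply le_of_forall_pos_le_add
  intro ε hε
  -- choose a large K
  have htail : Tendsto (fun K => ∑' n, ‖c (n + K)‖ * ρ ^ (n + K)) atTop (𝓝 0) :=
    tendsto_sum_nat_add fun n => ‖c n‖ * ρ ^ n
  have hev := htail.eventually (gt_mem_nhds (show (0:ℝ) < ε / (C + 1) by positivity))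
  obtain ⟨K, hKG, hK⟩ : ∃ K, (∀ n ∈ G, n < K) ∧
      ∑' n, ‖c (n + K)‖ * ρ ^ (n + K) < ε / (C + 1) := by
    obtain ⟨K0, hK0⟩ := eventually_atTop.1 hev
    refine ⟨max K0 (G.sup id + 1), fun n hn => ?_, hK0 _ (le_max_left _ _)⟩
    have : n ≤ G.sup id := Finset.le_sup (f := id) hn
    exact lt_of_lt_of_le (Nat.lt_succ_of_le this) (le_max_right _ _)
  set s : Finset ℕ := (Finset.range K).filter (fun n => N ≤ n ∧ c n ≠ 0) with hsdef
  have hLs : LacSet q N (s : Set ℕ) := by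
    constructor
    · intro m hm
      have hm' : m ∈ s := hm
      rw [hsdef, Finset.mem_filter] at hm'
      refine ⟨?_, hm'.2.1⟩
      rcases Nat.eq_zero_or_pos m with h | h
      · exact absurd (by rw [h]; exact hL.1) hm'.2.2
      · exact h
    · intro m hm n hn hmn
      have hm' : m ∈ s := hm
      have hn' : n ∈ s := hn
      rw [hsdef, Finset.mem_filter] at hm' hn'
      exact hL.2 m n hmn hm'.2.2 hn'.2.2
  have hbound : ∀ z ∈ E, ‖∑ n ∈ s, (c n * (ρ:ℂ) ^ n) * z ^ n‖ ≤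
      M + ∑ n ∈ Finset.range N, ‖c n‖ + ε / (C + 1) := by
    intro z hz
    have hz1 : ‖z‖ = 1 := by simpa using hE hz
    have hsum : Summable fun n => c n * ((ρ:ℂ) * z) ^ n := hc _ (by
      rw [norm_mul, Complex.norm_real, Real.norm_of_nonneg h0.le, hz1, mul_one]; exact h1)
    have hsplit := hsum.sum_add_tsum_nat_add K
    have hps : ps c (ρ * z) = ∑' n, c n * ((ρ:ℂ) * z) ^ n := rfl
    rw [← hps] at hsplit
    have hnormterm : ∀ n, ‖c n * ((ρ:ℂ) * z) ^ n‖ = ‖c n‖ * ρ ^ n := by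
      intro n
      rw [norm_mul, norm_pow, norm_mul, Complex.norm_real, Real.norm_of_nonneg h0.le, hz1,
        mul_one]
    have htl : ‖∑' n, c (n + K) * ((ρ:ℂ) * z) ^ (n + K)‖ ≤ ε / (C + 1) := by
      have h2 : ‖∑' n, c (n + K) * ((ρ:ℂ) * z) ^ (n + K)‖ ≤
          ∑' n, ‖c (n + K)‖ * ρ ^ (n + K) := by
        apply tsum_of_norm_bounded ((summable_nat_add_iff K).2 hs).hasSum
        intro n
        rw [hnormterm]
      exact h2.trans hK.le
    have hsplit2 : ∑ n ∈ Finset.range K, c n * ((ρ:ℂ) * z) ^ n =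
        ∑ n ∈ s, (c n * (ρ:ℂ) ^ n) * z ^ n +
        ∑ n ∈ (Finset.range K).filter (fun n => ¬ (N ≤ n ∧ c n ≠ 0)), c n * ((ρ:ℂ) * z) ^ n := by
      rw [← Finset.sum_filter_add_sum_filter_not (Finset.range K) (fun n => N ≤ n ∧ c n ≠ 0)]
      congr 1
      apply Finset.sum_congr rfl
      intro n _
      rw [mul_pow]; ring
    have hhead : ‖∑ n ∈ (Finset.range K).filter (fun n => ¬ (N ≤ n ∧ c n ≠ 0)),
        c n * ((ρ:ℂ) * z) ^ n‖ ≤ ∑ n ∈ Finset.range N, ‖c n‖ := by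
      calc ‖∑ n ∈ (Finset.range K).filter (fun n => ¬ (N ≤ n ∧ c n ≠ 0)), c n * ((ρ:ℂ) * z) ^ n‖
          ≤ ∑ n ∈ (Finset.range K).filter (fun n => ¬ (N ≤ n ∧ c n ≠ 0)), ‖c n‖ * ρ ^ n := by
            refine (norm_sum_le _ _).trans (le_of_eq ?_)
            exact Finset.sum_congr rfl fun n _ => hnormterm n
        _ ≤ ∑ n ∈ (Finset.range K).filter (fun n => ¬ (N ≤ n ∧ c n ≠ 0)),
              (if n < N then ‖c n‖ else 0) := by
            apply Finset.sum_le_sum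
            intro n hn
            rw [Finset.mem_filter] at hn
            by_cases hnN : n < N
            · rw [if_pos hnN]
              have h3 : ρ ^ n ≤ 1 := pow_le_one₀ h0.le h1.le
              have h4 := norm_nonneg (c n)
              nlinarith
            · rw [if_neg hnN]
              have h5 : c n = 0 := by
                by_contra h6
                exact hn.2 ⟨not_lt.1 hnN, h6⟩
              rw [h5]; simp
        _ ≤ ∑ n ∈ Finset.range N, ‖c n‖ := by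
            rw [← Finset.sum_filter]
            apply Finset.sum_le_sum_of_subset_of_nonneg
            · intro n hn
              rw [Finset.mem_filter] at hn
              simpa using hn.2
            · intro n _ _
              exact norm_nonneg _
    have e : ∑ n ∈ s, (c n * (ρ:ℂ) ^ n) * z ^ n = ps c (ρ * z) -
        ∑' n, c (n + K) * ((ρ:ℂ) * z) ^ (n + K) -
        ∑ n ∈ (Finset.range K).filter (fun n => ¬ (N ≤ n ∧ c n ≠ 0)), c n * ((ρ:ℂ) * z) ^ n := by
      rw [← hsplit, hsplit2]; ring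
    rw [e]
    calc _ ≤ ‖ps c (ρ * z)‖ + ‖∑' n, c (n + K) * ((ρ:ℂ) * z) ^ (n + K)‖ +
          ‖∑ n ∈ (Finset.range K).filter (fun n => ¬ (N ≤ n ∧ c n ≠ 0)), c n * ((ρ:ℂ) * z) ^ n‖ :=
          (norm_sub_le _ _).trans (add_le_add (norm_sub_le _ _) le_rfl)
      _ ≤ M + ε / (C + 1) + ∑ n ∈ Finset.range N, ‖c n‖ := by
          gcongr
          exact hM z hz
      _ = _ := by ring
  have hH0 : 0 ≤ ∑ n ∈ Finset.range N, ‖c n‖ := Finset.sum_nonneg fun _ _ => norm_nonneg _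
  have key := hI s (fun n => c n * (ρ:ℂ) ^ n) (M + ∑ n ∈ Finset.range N, ‖c n‖ + ε / (C + 1)) hLs
    (by positivity) hbound
  have hGs : ∑ n ∈ G, ‖c n‖ * ρ ^ n ≤ ∑ n ∈ s, ‖c n * (ρ:ℂ) ^ n‖ := by
    have e1 : ∑ n ∈ s, ‖c n * (ρ:ℂ) ^ n‖ = ∑ n ∈ s, ‖c n‖ * ρ ^ n := by
      apply Finset.sum_congr rfl
      intro n _
      rw [norm_mul, norm_pow, Complex.norm_real, Real.norm_of_nonneg h0.le]
    rw [e1, ← Finset.sum_filter_add_sum_filter_not G (fun n => c n ≠ 0)]
    have e2 : ∑ n ∈ G.filter (fun n => ¬ c n ≠ 0), ‖c n‖ * ρ ^ n = 0 := by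
      apply Finset.sum_eq_zero
      intro n hn
      rw [Finset.mem_filter, not_not] at hn
      rw [hn.2]; simp
    rw [e2, add_zero]
    apply Finset.sum_le_sum_of_subset_of_nonneg
    · intro n hn
      rw [Finset.mem_filter] at hn
      rw [hsdef, Finset.mem_filter, Finset.mem_range]
      exact ⟨hKG n hn.1, hG n hn.1, hn.2⟩
    · intro n _ _
      positivity
  have h6 : C * (ε / (C + 1)) ≤ ε := by
    rw [← mul_div_assoc, div_le_iff₀ (by positivity)]
    nlinarith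
  calc ∑ n ∈ G, ‖c n‖ * ρ ^ n ≤ C * (M + ∑ n ∈ Finset.range N, ‖c n‖ + ε / (C + 1)) :=
        hGs.trans key
    _ = C * (M + ∑ n ∈ Finset.range N, ‖c n‖) + C * (ε / (C + 1)) := by ring
    _ ≤ _ := by gcongr

/-- **Sidon inequality + boundedness on dilates.** -/
theorem bdd_of_sidon {E : Set ℂ} (hE : E ⊆ sphere 0 1) (hS : SidonOn E) {q M : ℝ} {c : ℕ → ℂ}
    (hq : 1 < q) (hL : Lac q c) (hc : Conv c)
    (hM : ∀ δ : ℝ, 0 < δ → ∃ ρ : ℝ, 0 < ρ ∧ 1 - δ < ρ ∧ ρ < 1 ∧ ∀ z ∈ E, ‖ps c (ρ * z)‖ ≤ M) :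
    BddOnSet c (ball 0 1) := by
  classical
  obtain ⟨N, C, hI⟩ := hS q hq
  have hI' : SidonIneq q N (max C 0) E := hI.mono_const (le_max_left _ _)
  have hC0 : 0 ≤ max C 0 := le_max_right _ _
  set D : ℝ := max C 0 * (max M 0 + ∑ n ∈ Finset.range N, ‖c n‖) with hD
  have hfin : ∀ G : Finset ℕ, (∀ n ∈ G, N ≤ n) → ∑ n ∈ G, ‖c n‖ ≤ D := by
    intro G hG
    -- limit along radii tending to 1
    have hcont : Continuous fun ρ : ℝ => ∑ n ∈ G, ‖c n‖ * ρ ^ n := by fun_prop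
    have hlim := hcont.tendsto 1
    simp only [one_pow, mul_one] at hlim
    by_contra hcon
    push Not at hcon
    have hev := hlim.eventually (lt_mem_nhds hcon)
    obtain ⟨δ, hδ, hball⟩ := Metric.eventually_nhds_iff.1 hev
    obtain ⟨ρ, h0, h1, h2, h3⟩ := hM δ hδ
    have h4 := sidon_at_radius hE hC0 hI' hL hc h0 h2 (le_max_right M 0)
      (fun z hz => (h3 z hz).trans (le_max_left _ _)) G hG
    have h5 : dist ρ 1 < δ := by
      rw [Real.dist_eq, abs_sub_comm, abs_of_pos (by linarith)]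
      linarith
    have h6 := hball h5
    linarith
  have hsum : Summable fun n => ‖c n‖ := by
    rw [← summable_nat_add_iff N]
    apply summable_of_sum_range_le (c := D) (fun n => norm_nonneg _)
    intro K
    have h1 := hfin ((Finset.range K).map (addRightEmbedding N)) (by
      intro n hn
      rw [Finset.mem_map] at hn
      obtain ⟨m, -, rfl⟩ := hn
      simp)
    simpa using h1
  exact ⟨∑' n, ‖c n‖, fun z hz => norm_ps_le hsum (by simpa using hz)⟩

end GapForcing
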