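import Pool.Agent.Lib.MP_c80ac4_an.CN.Connect
import Pool.Agent.Lib.MP_c80ac4_an.CN.Sidon

/-! Connected sets: the Sidon property of the boundary set implies forcing. -/

namespace GapForcing

open Set Metric Filter Topology Forcing

lemma not_sidonOn_empty : ¬ SidonOn (∅ : Set ℂ) := by
  intro h
  obtain ⟨N, C, hI⟩ := h 2 (by norm_num)
  have hLs : LacSet 2 N (({N + 1} : Finset ℕ) : Set ℕ) := by
    constructor
    · intro m hm
      have : m = N + 1 := by simpa using hm
      omega
    · intro m hm n hn hmn
      have h1 : m = N + 1 := by simpa using hm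
      have h2 : n = N + 1 := by simpa using hn
      omega
  have := hI {N + 1} (fun _ => 1) 0 hLs le_rfl (fun z hz => absurd hz (Set.notMem_empty z))
  simp at this
  linarith

/-- a coefficient sequence with infinite support, as exponents and coefficients -/
lemma exists_sequence {q : ℝ} {c : ℕ → ℂ} (hL : Lac q c)
    (hinf : {m : ℕ | c m ≠ 0}.Infinite) (hc : Conv c) :
    ∃ (n : ℕ → ℕ) (a : ℕ → ℂ), HadamardGaps q n ∧ ConvergesInDisc a n ∧
      ∀ z, gapSeries a n z = ps c z := by
  classical
  have hinf' : (Set.ofPred fun m : ℕ => c m ≠ 0).Infinite := hinf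
  let n : ℕ → ℕ := Nat.nth fun m => c m ≠ 0
  have hmono : StrictMono n := Nat.nth_strictMono hinf'
  have hmem : ∀ k, c (n k) ≠ 0 := fun k => Nat.nth_mem_of_infinite hinf' k
  have hpos : ∀ k, 0 < n k := by
    intro k
    rcases Nat.eq_zero_or_pos (n k) with h | h
    · exact absurd (by rw [h]; exact hL.1) (hmem k)
    · exact h
  refine ⟨n, fun k => c (n k), ⟨hpos, hmono, ?_⟩, ?_, ?_⟩
  · intro k
    have h1 : (0:ℝ) < n k := by exact_mod_cast hpos k
    rw [le_div_iff₀ h1]
    exact hL.2 _ _ (hmono (Nat.lt_succ_self k)) (hmem k) (hmem (k + 1))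
  · intro z hz
    exact (hc z hz).comp_injective hmono.injective
  · intro z
    unfold gapSeries ps
    apply Function.Injective.tsum_eq (f := fun m => c m * z ^ m) hmono.injective
    intro m hm
    have hm' : c m ≠ 0 := by
      intro h
      apply hm
      simp [h]
    change m ∈ Set.range (Nat.nth fun m => c m ≠ 0)
    rw [Nat.range_nth_of_infinite hinf']
    exact hm'

theorem forcing_of_sidon_connected {S : Set ℂ} (hS : S ⊆ ball 0 1) {r : ℝ} (hr : r < 1)
    (hconn : IsPreconnected (S ∪ closedBall 0 r)) (h : SidonOn (closure S ∩ sphere 0 1)) :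
    IsForcing S := by
  classical
  rintro c ⟨q, hq, hL⟩ hc hb
  -- the boundary set is nonempty
  have hne : ∃ z0 ∈ closure S, ‖z0‖ = 1 := by
    by_contra hcon
    push Not at hcon
    have : closure S ∩ sphere (0:ℂ) 1 = ∅ := by
      ext z
      simp only [mem_inter_iff, mem_sphere_zero_iff_norm, mem_empty_iff_false, iff_false, not_and]
      exact hcon z
    rw [this] at h
    exact not_sidonOn_empty h
  by_cases hfin : {m : ℕ | c m ≠ 0}.Finite
  · -- polynomials are bounded
    have hs : Summable fun n => ‖c n‖ := by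
      apply summable_of_hasFiniteSupport
      apply hfin.subset
      intro m hm
      simpa using hm
    exact ⟨∑' n, ‖c n‖, fun z hz => norm_ps_le hs (by simpa using hz)⟩
  · obtain ⟨n, a, hn, hca, hps⟩ := exists_sequence hL hfin hc
    have hb' : BoundedOn (gapSeries a n) S := by
      obtain ⟨M, hM⟩ := hb
      exact ⟨M, fun z hz => by rw [hps]; exact hM z hz⟩
    -- a radius r' ≥ 0
    obtain ⟨r', hr0, hr1, hconn'⟩ : ∃ r' : ℝ, 0 ≤ r' ∧ r' < 1 ∧
        IsPreconnected (S ∪ closedBall 0 r') := by
      rcases lt_or_ge r 0 with hneg | hnn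
      · obtain ⟨z0, hz0, -⟩ := hne
        have hSne : S.Nonempty := closure_nonempty_iff.1 ⟨z0, hz0⟩
        obtain ⟨z, hz⟩ := hSne
        rw [closedBall_eq_empty.2 hneg, union_empty] at hconn
        refine ⟨‖z‖, norm_nonneg _, by simpa using hS hz, ?_⟩
        exact hconn.union z hz (by simp) (convex_closedBall 0 _).isPreconnected
      · exact ⟨r, hnn, hr, hconn⟩
    obtain ⟨M, y0, hy0, hrad⟩ := connected_radial hq hn hca hS hr0 hr1 hconn' hb' hne
    apply bdd_of_sidon (M := M) inter_subset_right h hq hL hc
    intro δ hδ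
    -- choose the height
    obtain ⟨t, ht0, hty, htδ⟩ : ∃ t : ℝ, 0 < t ∧ t < y0 ∧ t < δ := by
      refine ⟨min y0 δ / 2, ?_, ?_, ?_⟩
      · have := lt_min hy0 hδ
        positivity
      · have h1 := min_le_left y0 δ
        have h2 := lt_min hy0 hδ
        linarith
      · have h1 := min_le_right y0 δ
        have h2 := lt_min hy0 hδ
        linarith
    refine ⟨Real.exp (-t), Real.exp_pos _, ?_, by rw [Real.exp_lt_one_iff]; linarith, ?_⟩
    · have := Real.add_one_le_exp (-t)
      linarith
    · rintro z ⟨hz1, hz2⟩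
      have hz2' : ‖z‖ = 1 := by simpa using hz2
      have harg : z = Complex.exp (-(((-z.arg : ℝ) : ℂ) * Complex.I)) := by
        have := Complex.norm_mul_exp_arg_mul_I z
        rw [hz2'] at this
        simp only [Complex.ofReal_one, one_mul] at this
        rw [show (-(((-z.arg : ℝ) : ℂ) * Complex.I)) = (z.arg : ℂ) * Complex.I by
          push_cast; ring]
        exact this.symm
      have key := hrad (-z.arg) (by rw [← harg]; exact hz1) t ht0 hty
      rw [← gapSeries_exp, hps] at key
      have e : Complex.exp (-((t : ℂ) + ((-z.arg : ℝ) : ℂ) * Complex.I)) =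
          ((Real.exp (-t) : ℝ) : ℂ) * z := by
        rw [neg_add, Complex.exp_add, ← harg]
        push_cast
        rfl
      rwa [e] at key

end GapForcing
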