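import Pool.Agent.Lib.MP_c80ac4_an.CN.Defs

/-! Sums over Hadamard sequences. -/

namespace GapForcing

open Finset Real

lemma HadamardGaps.pos {q : ℝ} {n : ℕ → ℕ} (h : HadamardGaps q n) (k : ℕ) : (0 : ℝ) < n k := by
  exact_mod_cast h.1 k

lemma HadamardGaps.step {q : ℝ} {n : ℕ → ℕ} (h : HadamardGaps q n) (k : ℕ) :
    q * n k ≤ n (k + 1) := by
  have := h.2.2 k
  rwa [le_div_iff₀ (h.pos k)] at this

lemma HadamardGaps.gap {q : ℝ} (hq : 1 < q) {n : ℕ → ℕ} (h : HadamardGaps q n) {j k : ℕ}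
    (hjk : j < k) : q * n j ≤ n k := by
  induction k with
  | zero => omega
  | succ k ih =>
    rcases Nat.lt_succ_iff_lt_or_eq.1 hjk with h1 | h1
    · have h2 := ih h1
      have h3 : (n k : ℝ) ≤ n (k + 1) := by exact_mod_cast (h.2.1 (Nat.lt_succ_self k)).le
      linarith
    · subst h1
      exact h.step j

/-- the basic telescoping estimate -/
lemma sum_aux {q : ℝ} (hq : 1 < q) (x : ℕ → ℝ) (hx : ∀ j, 0 < x j)
    (hs : ∀ j, q * x j ≤ x (j + 1)) (K : ℕ) :
    ∑ j ∈ range K, x j / ((1 + q * x j) * (1 + x j)) ≤ 1 / (q - 1) := by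
  have hq1 : 0 < q - 1 := by linarith
  have key : ∀ j, (q - 1) * (x j / ((1 + q * x j) * (1 + x j))) ≤
      x (j + 1) / (1 + x (j + 1)) - x j / (1 + x j) := by
    intro j
    have h0 := hx j
    have h1 := hx (j + 1)
    have h2 := hs j
    have hqx : 0 < q * x j := by positivity
    have e1 : (q - 1) * (x j / ((1 + q * x j) * (1 + x j))) =
        q * x j / (1 + q * x j) - x j / (1 + x j) := by
      field_simp
      ring
    rw [e1]
    have e2 : q * x j / (1 + q * x j) ≤ x (j + 1) / (1 + x (j + 1)) := by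
      rw [div_le_div_iff₀ (by positivity) (by positivity)]
      nlinarith
    linarith
  have h1 : (q - 1) * ∑ j ∈ range K, x j / ((1 + q * x j) * (1 + x j)) ≤
      x K / (1 + x K) - x 0 / (1 + x 0) := by
    rw [mul_sum]
    calc ∑ j ∈ range K, (q - 1) * (x j / ((1 + q * x j) * (1 + x j)))
        ≤ ∑ j ∈ range K, (x (j + 1) / (1 + x (j + 1)) - x j / (1 + x j)) :=
          sum_le_sum fun j _ => key j
      _ = _ := by rw [sum_range_sub (fun j => x j / (1 + x j))]
  have h2 : x K / (1 + x K) ≤ 1 := by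
    rw [div_le_one (by have := hx K; positivity)]
    linarith
  have h3 : 0 ≤ x 0 / (1 + x 0) := by have := hx 0; positivity
  rw [le_div_iff₀ hq1]
  linarith

lemma exp_aux {q x : ℝ} (hq : 1 < q) (hx : 0 < x) :
    x * exp (-x) ≤ 2 * q * (x / ((1 + q * x) * (1 + x))) := by
  have h1 : (1 + q * x) * (1 + x) ≤ 2 * q * exp x := by
    have h2 : 1 + x + x ^ 2 / 2 ≤ exp x := by
      have := Real.quadratic_le_exp_of_nonneg hx.le
      linarith
    have h3 : 1 + q * x ≤ q * (1 + x) := by nlinarith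
    nlinarith [mul_pos (by linarith : (0:ℝ) < q) hx, mul_pos hx hx]
  have h4 : 0 < (1 + q * x) * (1 + x) := by positivity
  rw [Real.exp_neg, ← mul_div_assoc, le_div_iff₀ h4]
  have h5 := Real.exp_pos x
  rw [mul_assoc]
  have h6 : (exp x)⁻¹ * ((1 + q * x) * (1 + x)) ≤ 2 * q := by
    rw [inv_mul_le_iff₀ h5]
    linarith
  nlinarith

/-- `∑ x_j e^{-x_j} ≤ 2q/(q-1)` for a Hadamard sequence of real numbers. -/
lemma sum_exp {q : ℝ} (hq : 1 < q) (x : ℕ → ℝ) (hx : ∀ j, 0 < x j)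
    (hs : ∀ j, q * x j ≤ x (j + 1)) (K : ℕ) :
    ∑ j ∈ range K, x j * exp (-x j) ≤ 2 * q / (q - 1) := by
  have hq1 : 0 < q - 1 := by linarith
  calc ∑ j ∈ range K, x j * exp (-x j)
      ≤ ∑ j ∈ range K, 2 * q * (x j / ((1 + q * x j) * (1 + x j))) :=
        sum_le_sum fun j _ => exp_aux hq (hx j)
    _ = 2 * q * ∑ j ∈ range K, (x j / ((1 + q * x j) * (1 + x j))) := by rw [mul_sum]
    _ ≤ 2 * q * (1 / (q - 1)) := by
        apply mul_le_mul_of_nonneg_left (sum_aux hq x hx hs K) (by linarith)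
    _ = 2 * q / (q - 1) := by ring

lemma summable_exp {q : ℝ} (hq : 1 < q) (x : ℕ → ℝ) (hx : ∀ j, 0 < x j)
    (hs : ∀ j, q * x j ≤ x (j + 1)) : Summable fun j => x j * exp (-x j) :=
  summable_of_sum_range_le (fun j => by have := hx j; positivity) (sum_exp hq x hx hs)

lemma tsum_exp {q : ℝ} (hq : 1 < q) (x : ℕ → ℝ) (hx : ∀ j, 0 < x j)
    (hs : ∀ j, q * x j ≤ x (j + 1)) : ∑' j, x j * exp (-x j) ≤ 2 * q / (q - 1) :=
  Real.tsum_le_of_sum_range_le (fun j => by have := hx j; positivity) (sum_exp hq x hx hs)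

end GapForcing
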