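import Pool.Agent.Lib.MP_c80ac4_an.CN.Coef2

/-! A normalised Hadamard series cannot be small on a continuum, at heights in a bounded range. -/

namespace GapForcing

open Finset

lemma sq_exp_le {x : ℝ} (hx : 0 ≤ x) : x ^ 2 * Real.exp (-x) ≤ 1 := by
  have h1 : x ^ 2 ≤ Real.exp x := by
    have h2 : x / 2 + 1 ≤ Real.exp (x / 2) := Real.add_one_le_exp _
    have h3 : Real.exp x = Real.exp (x / 2) * Real.exp (x / 2) := by
      rw [← Real.exp_add]; congr 1; ring
    have h4 : x / 2 * Real.exp 1 ≤ Real.exp (x / 2) := by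
      have h5 := Real.add_one_le_exp (x / 2 - 1)
      have h6 : Real.exp (x / 2) = Real.exp (x / 2 - 1) * Real.exp 1 := by
        rw [← Real.exp_add]; congr 1; ring
      rw [h6]
      have h7 := Real.exp_pos 1
      nlinarith
    have h8 : (2:ℝ) ≤ Real.exp 1 := by
      have := Real.add_one_le_exp (1:ℝ)
      linarith
    have h9 : x ≤ Real.exp (x / 2) := by nlinarith
    rw [h3]
    nlinarith
  rw [Real.exp_neg, ← div_eq_mul_inv, div_le_one (Real.exp_pos x)]
  exact h1

/-- **A normalised Hadamard series cannot be small on a continuum**, real heights. -/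
theorem not_small_real {q : ℝ} (hq : 1 < q) : ∃ L0 : ℝ, 2 ≤ L0 ∧ ∀ L1 : ℝ, ∃ ε : ℝ, 0 < ε ∧
    ∀ x : ℕ → ℝ, (∀ j, 0 < x j) → (∀ j, q * x j ≤ x (j + 1)) → ∀ k, x k = 1 →
    ∀ b : ℕ → ℂ, (∀ j, ‖b j‖ ≤ 1) → ‖b k‖ = 1 → ∀ w : ℂ, L0 ≤ w.re → w.re ≤ L1 →
    ∀ M : ℝ, (∀ ρ : ℝ, 0 ≤ ρ → ρ ≤ 1 / 2 → ∃ u : ℂ, ‖u‖ = ρ ∧
      ‖∑' j, b j * Complex.exp (-(x j : ℂ) * (w + u))‖ ≤ M) → ε ≤ M := by
  obtain ⟨ρ0, hρ0, hρ1, hphi⟩ := phi_bound hq
  have hq1 : 0 < q - 1 := by linarith
  set Cq : ℝ := 2 * q / (q - 1) with hCq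
  have hCq0 : 0 < Cq := by positivity
  obtain ⟨m, hm⟩ := exists_pow_lt_of_lt_one
    (show (0:ℝ) < 1 / (2 * (Real.exp 1 ^ 3 * Cq)) by positivity) hρ1
  have hpow : ρ0 ^ m * (Real.exp 1 ^ 3 * Cq) ≤ 1 / 2 := by
    have h2 := hm.le
    rw [le_div_iff₀ (by positivity)] at h2
    linarith
  refine ⟨(m : ℝ) + 3, by have : (0:ℝ) ≤ m := Nat.cast_nonneg m; linarith, ?_⟩
  intro L1
  set L2 : ℕ := ⌈L1⌉₊ with hL2
  have hfac2 : (0:ℝ) < (L2.factorial : ℝ) := by exact_mod_cast L2.factorial_pos
  obtain ⟨ε, hε, hsmall⟩ := small_coeff Cq hCq0.le L2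
    (Real.exp (-L1) / (4 * (L2.factorial : ℝ))) (by positivity)
  refine ⟨ε, hε, ?_⟩
  intro x hx hs k hk b hb hbk w hw0 hw1 M hM
  by_contra hlt
  push Not at hlt
  set τ : ℝ := w.re with hτ
  set L : ℕ := ⌈τ⌉₊ with hL
  have hm0 : (0:ℝ) ≤ m := Nat.cast_nonneg m
  have hτ3 : (3:ℝ) ≤ τ := by linarith
  have hτL : τ ≤ L := Nat.le_ceil τ
  have hLτ : (L:ℝ) < τ + 1 := Nat.ceil_lt_add_one (by linarith)
  have hLm : m + 3 ≤ L := by
    have : ((m + 3 : ℕ) : ℝ) ≤ (L : ℝ) := by push_cast; linarith
    exact_mod_cast this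
  have hLL2 : L ≤ L2 := Nat.ceil_mono hw1
  have hfac : (0:ℝ) < (L.factorial : ℝ) := by exact_mod_cast L.factorial_pos
  -- summability
  have S1 : Summable fun j => x j * Real.exp (-x j) := summable_exp hq x hx hs
  have T1 : ∑' j, x j * Real.exp (-x j) ≤ Cq := tsum_exp hq x hx hs
  have hx0 : ∀ j, x 0 ≤ x j := by
    intro j
    rcases Nat.eq_zero_or_pos j with h | h
    · rw [h]
    · have := seq_gap hq hx hs h
      have := hx 0
      nlinarith
  have S0 : Summable fun j => Real.exp (-x j) := by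
    apply Summable.of_nonneg_of_le (fun j => (Real.exp_pos _).le) _ (S1.mul_left (1 / x 0))
    intro j
    have h1 := hx0 j
    have h2 := hx 0
    have h3 := Real.exp_pos (-x j)
    rw [div_mul_eq_mul_div, one_mul, le_div_iff₀ h2]
    nlinarith
  -- coefficients
  let c : ℕ → ℂ := fun l => ∑' j, b j * Complex.exp (-(x j : ℂ) * w) *
    ((-(x j : ℂ)) ^ l / (l.factorial : ℂ))
  have normterm : ∀ j l, ‖b j * Complex.exp (-(x j : ℂ) * w) *
      ((-(x j : ℂ)) ^ l / (l.factorial : ℂ))‖ =
      ‖b j‖ * Real.exp (-x j * τ) * ((x j) ^ l / (l.factorial : ℝ)) := by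
    intro j l
    rw [norm_mul, norm_mul, norm_exp_neg, norm_div, norm_pow, norm_neg, Complex.norm_real,
      Real.norm_of_nonneg (hx j).le, Complex.norm_natCast]
  have termle : ∀ j l, 1 ≤ l → ‖b j * Complex.exp (-(x j : ℂ) * w) *
      ((-(x j : ℂ)) ^ l / (l.factorial : ℂ))‖ ≤ x j * Real.exp (-x j) := by
    intro j l hl
    rw [normterm]
    have hxj := hx j
    have h1 : (x j) ^ l / (l.factorial : ℝ) ≤ x j * Real.exp (x j) := by
      obtain ⟨l', rfl⟩ : ∃ l', l = l' + 1 := ⟨l - 1, by omega⟩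
      have h2 : (x j) ^ l' / (l'.factorial : ℝ) ≤ Real.exp (x j) := by
        rw [← (hasSum_exp_real (x j)).tsum_eq]
        exact (hasSum_exp_real (x j)).summable.le_tsum l' (fun i _ => by positivity)
      have h3 : (x j) ^ (l' + 1) / ((l' + 1).factorial : ℝ) ≤ x j * ((x j) ^ l' /
          (l'.factorial : ℝ)) := by
        rw [Nat.factorial_succ, pow_succ, ← mul_div_assoc, mul_comm (x j) ((x j) ^ l')]
        apply div_le_div_of_nonneg_left (by positivity)
          (by exact_mod_cast l'.factorial_pos)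
        have : (l'.factorial : ℝ) ≤ ((l' + 1 : ℕ) : ℝ) * (l'.factorial : ℝ) := by
          have h4 : (1:ℝ) ≤ ((l' + 1 : ℕ) : ℝ) := by exact_mod_cast (by omega : 1 ≤ l' + 1)
          have h5 : (0:ℝ) ≤ (l'.factorial : ℝ) := by positivity
          nlinarith
        push_cast at this ⊢
        exact this
      exact h3.trans (mul_le_mul_of_nonneg_left h2 hxj.le)
    calc ‖b j‖ * Real.exp (-x j * τ) * ((x j) ^ l / (l.factorial : ℝ))
        ≤ 1 * Real.exp (-x j * τ) * (x j * Real.exp (x j)) := by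
          gcongr
          exact hb j
      _ = x j * (Real.exp (-x j * τ) * Real.exp (x j)) := by ring
      _ = x j * Real.exp (-x j * τ + x j) := by rw [← Real.exp_add]
      _ ≤ x j * Real.exp (-x j) := by
          apply mul_le_mul_of_nonneg_left _ hxj.le
          apply Real.exp_le_exp.2
          nlinarith
  have cbound : ∀ l, 1 ≤ l → ‖c l‖ ≤ Cq := by
    intro l hl
    have h1 : ‖c l‖ ≤ ∑' j, x j * Real.exp (-x j) :=
      tsum_of_norm_bounded S1.hasSum (fun j => termle j l hl)
    exact h1.trans T1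
  -- the Taylor expansion
  have taylor : ∀ u : ℂ, ‖u‖ ≤ 1 / 2 → ∑' l, c l * u ^ l =
      ∑' j, b j * Complex.exp (-(x j : ℂ) * (w + u)) := by
    intro u hu
    let f : ℕ → ℕ → ℂ := fun j l => b j * Complex.exp (-(x j : ℂ) * w) *
      ((-(x j : ℂ) * u) ^ l / (l.factorial : ℂ))
    have hf : ∀ j, HasSum (f j) (b j * Complex.exp (-(x j : ℂ) * (w + u))) := by
      intro j
      have := (hasSum_exp_complex (-(x j : ℂ) * u)).mul_left (b j * Complex.exp (-(x j : ℂ) * w))
      have e : b j * Complex.exp (-(x j : ℂ) * w) * Complex.exp (-(x j : ℂ) * u) =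
          b j * Complex.exp (-(x j : ℂ) * (w + u)) := by
        rw [mul_assoc, ← Complex.exp_add]
        congr 2
        ring
      rw [e] at this
      exact this
    have hfs : Summable (Function.uncurry f) := by
      apply Summable.of_norm
      let g : ℕ × ℕ → ℝ := fun p => Real.exp (-x p.1 * τ) *
        ((x p.1 * (1 / 2)) ^ p.2 / (p.2.factorial : ℝ))
      have hg0 : 0 ≤ g := by
        intro p
        have := hx p.1
        simp only [g, Pi.zero_apply]
        positivity
      have hgs : Summable g := by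
        rw [summable_prod_of_nonneg hg0]
        have hj : ∀ j, HasSum (fun l => g (j, l)) (Real.exp (-x j * τ) *
            Real.exp (x j * (1 / 2))) := fun j => (hasSum_exp_real _).mul_left _
        refine ⟨fun j => (hj j).summable, ?_⟩
        apply Summable.of_nonneg_of_le _ _ S0
        · intro j
          rw [(hj j).tsum_eq]; positivity
        · intro j
          rw [(hj j).tsum_eq, ← Real.exp_add]
          apply Real.exp_le_exp.2
          have := hx j
          nlinarith
      apply Summable.of_nonneg_of_le (fun _ => norm_nonneg _) _ hgs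
      rintro ⟨j, l⟩
      simp only [Function.uncurry, f, g]
      rw [norm_mul, norm_mul, norm_exp_neg, norm_div, norm_pow, norm_mul, norm_neg,
        Complex.norm_real, Real.norm_of_nonneg (hx j).le, Complex.norm_natCast]
      have := hx j
      calc ‖b j‖ * Real.exp (-x j * w.re) * ((x j * ‖u‖) ^ l / (l.factorial : ℝ))
          ≤ 1 * Real.exp (-x j * w.re) * ((x j * (1 / 2)) ^ l / (l.factorial : ℝ)) := by
            gcongr
            exact hb j
        _ = _ := by rw [one_mul]
    calc ∑' l, c l * u ^ l = ∑' l, ∑' j, f j l := by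
          apply tsum_congr
          intro l
          simp only [c, f]
          rw [← tsum_mul_right]
          apply tsum_congr
          intro j
          rw [mul_pow]
          ring
      _ = ∑' j, ∑' l, f j l := hfs.tsum_comm
      _ = _ := tsum_congr fun j => (hf j).tsum_eq
  -- smallness
  have hc := hsmall c cbound (by
    intro ρ h1 h2
    obtain ⟨u, hu, hu2⟩ := hM ρ h1 h2
    refine ⟨u, hu, ?_⟩
    rw [taylor u (by rw [hu]; exact h2)]
    exact hu2.trans hlt.le) L hLL2
  -- the main coefficient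
  have Sl : Summable fun j => b j * Complex.exp (-(x j : ℂ) * w) *
      ((-(x j : ℂ)) ^ L / (L.factorial : ℂ)) :=
    Summable.of_norm_bounded S1 (fun j => termle j L (by omega))
  have hsplit : c L = b k * Complex.exp (-(x k : ℂ) * w) * ((-(x k : ℂ)) ^ L /
      (L.factorial : ℂ)) + ∑' j, (if j = k then 0 else b j * Complex.exp (-(x j : ℂ) * w) *
      ((-(x j : ℂ)) ^ L / (L.factorial : ℂ))) := Sl.tsum_eq_add_tsum_ite k
  have hmainterm : ‖b k * Complex.exp (-(x k : ℂ) * w) * ((-(x k : ℂ)) ^ L /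
      (L.factorial : ℂ))‖ = Real.exp (-τ) / (L.factorial : ℝ) := by
    rw [normterm, hk, hbk]
    simp
    ring
  have hphisum : Summable fun j => ρ0 ^ m * Real.exp 1 ^ 3 * (x j * Real.exp (-x j)) :=
    S1.mul_left _
  have hrest : ‖∑' j, (if j = k then 0 else b j * Complex.exp (-(x j : ℂ) * w) *
      ((-(x j : ℂ)) ^ L / (L.factorial : ℂ)))‖ ≤ Real.exp (-τ) / (2 * (L.factorial : ℝ)) := by
    have h1 : ‖∑' j, (if j = k then 0 else b j * Complex.exp (-(x j : ℂ) * w) *
      ((-(x j : ℂ)) ^ L / (L.factorial : ℂ)))‖ ≤ ∑' j, (Real.exp (-τ) / (L.factorial : ℝ) *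
        (ρ0 ^ m * Real.exp 1 ^ 3 * (x j * Real.exp (-x j)))) := by
      apply tsum_of_norm_bounded (hphisum.mul_left _).hasSum
      intro j
      have hxj := hx j
      by_cases hj : j = k
      · rw [if_pos hj, norm_zero]; positivity
      · rw [if_neg hj, normterm]
        have hcase : q ≤ x j ∨ x j ≤ 1 / q := by
          rcases lt_or_gt_of_ne hj with h | h
          · right
            have := seq_gap hq hx hs h
            rw [hk] at this
            rw [le_div_iff₀ (by linarith)]
            linarith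
          · left
            have := seq_gap hq hx hs h
            rw [hk] at this
            linarith
        have hφ := hphi (x j) hxj hcase
        have hφ0 : 0 ≤ x j * Real.exp (1 - x j) := by positivity
        -- e^{-xτ} x^L ≤ e^{-τ} (x e^{1-x})^{L-1} e x
        obtain ⟨m', hm'⟩ : ∃ m', L = m + m' + 3 := ⟨L - (m + 3), by omega⟩
        have e1 : Real.exp (-x j * τ) * (x j) ^ L ≤ Real.exp (-τ) *
            ((x j * Real.exp (1 - x j)) ^ (m + m' + 2) * (Real.exp 1 * x j)) := by
          have e2 : Real.exp (-x j * τ) = Real.exp (-τ) * Real.exp ((1 - x j) * τ) := by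
            rw [← Real.exp_add]; congr 1; ring
          rw [e2, mul_assoc]
          apply mul_le_mul_of_nonneg_left _ (Real.exp_pos _).le
          have e3 : (x j * Real.exp (1 - x j)) ^ (m + m' + 2) * (Real.exp 1 * x j) =
              Real.exp ((1 - x j) * ((m + m' + 2 : ℕ) : ℝ) + 1) * (x j) ^ L := by
            rw [hm', mul_pow, ← Real.exp_nat_mul, Real.exp_add, mul_comm (1 - x j)]
            ring
          rw [e3]
          apply mul_le_mul_of_nonneg_right _ (by positivity)
          apply Real.exp_le_exp.2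
          have hcast : ((m + m' + 2 : ℕ) : ℝ) = (L:ℝ) - 1 := by
            rw [hm']; push_cast; ring
          rw [hcast]
          rcases hcase with h | h
          · nlinarith
          · have h5 : 1 / q < 1 := by rw [div_lt_one (by linarith)]; exact hq
            nlinarith
        have e4 : (x j * Real.exp (1 - x j)) ^ (m + m' + 2) * (Real.exp 1 * x j) ≤
            ρ0 ^ m * Real.exp 1 ^ 3 * (x j * Real.exp (-x j)) := by
          have h3 : (x j * Real.exp (1 - x j)) ^ (m + m') ≤ ρ0 ^ m := by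
            calc (x j * Real.exp (1 - x j)) ^ (m + m') ≤ ρ0 ^ (m + m') :=
                  pow_le_pow_left₀ (by positivity) hφ _
              _ ≤ ρ0 ^ m := pow_le_pow_of_le_one hρ0.le hρ1.le (by omega)
          have h4 : (x j * Real.exp (1 - x j)) ^ 2 * (Real.exp 1 * x j) =
              Real.exp 1 ^ 3 * (x j * Real.exp (-x j)) * ((x j) ^ 2 * Real.exp (-x j)) := by
            rw [sub_eq_add_neg, Real.exp_add]; ring
          have h5 := sq_exp_le hxj.le
          have h6 : 0 ≤ Real.exp 1 ^ 3 * (x j * Real.exp (-x j)) := by positivity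
          calc (x j * Real.exp (1 - x j)) ^ (m + m' + 2) * (Real.exp 1 * x j)
              = (x j * Real.exp (1 - x j)) ^ (m + m') *
                ((x j * Real.exp (1 - x j)) ^ 2 * (Real.exp 1 * x j)) := by
                rw [pow_add]; ring
            _ ≤ ρ0 ^ m * (Real.exp 1 ^ 3 * (x j * Real.exp (-x j)) * 1) := by
                rw [h4]
                gcongr
            _ = _ := by ring
        calc ‖b j‖ * Real.exp (-x j * τ) * ((x j) ^ L / (L.factorial : ℝ))
            ≤ 1 * Real.exp (-x j * τ) * ((x j) ^ L / (L.factorial : ℝ)) := by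
              gcongr
              exact hb j
          _ = (Real.exp (-x j * τ) * (x j) ^ L) / (L.factorial : ℝ) := by ring
          _ ≤ (Real.exp (-τ) * (ρ0 ^ m * Real.exp 1 ^ 3 * (x j * Real.exp (-x j)))) /
              (L.factorial : ℝ) := by
              apply div_le_div_of_nonneg_right _ hfac.le
              exact e1.trans (mul_le_mul_of_nonneg_left e4 (Real.exp_pos _).le)
          _ = _ := by ring
    rw [tsum_mul_left, tsum_mul_left] at h1
    refine h1.trans ?_
    have h2 : ρ0 ^ m * Real.exp 1 ^ 3 * ∑' j, x j * Real.exp (-x j) ≤ 1 / 2 := by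
      calc ρ0 ^ m * Real.exp 1 ^ 3 * ∑' j, x j * Real.exp (-x j)
          ≤ ρ0 ^ m * Real.exp 1 ^ 3 * Cq := by gcongr
        _ = ρ0 ^ m * (Real.exp 1 ^ 3 * Cq) := by ring
        _ ≤ 1 / 2 := hpow
    calc Real.exp (-τ) / (L.factorial : ℝ) * (ρ0 ^ m * Real.exp 1 ^ 3 *
          ∑' j, x j * Real.exp (-x j)) ≤ Real.exp (-τ) / (L.factorial : ℝ) * (1 / 2) := by
          gcongr
      _ = _ := by ring
  have hfinal : Real.exp (-τ) / (L.factorial : ℝ) ≤ ‖c L‖ +
      Real.exp (-τ) / (2 * (L.factorial : ℝ)) := by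
    rw [← hmainterm]
    have e : b k * Complex.exp (-(x k : ℂ) * w) * ((-(x k : ℂ)) ^ L / (L.factorial : ℂ)) =
      c L - ∑' j, (if j = k then 0 else b j * Complex.exp (-(x j : ℂ) * w) *
      ((-(x j : ℂ)) ^ L / (L.factorial : ℂ))) := by rw [hsplit]; ring
    rw [e]
    exact (norm_sub_le _ _).trans (add_le_add le_rfl hrest)
  have hpos : 0 < Real.exp (-τ) / (L.factorial : ℝ) := by positivity
  have e1 : Real.exp (-τ) / (2 * (L.factorial : ℝ)) =
      Real.exp (-τ) / (L.factorial : ℝ) / 2 := by field_simp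
  have e2 : Real.exp (-L1) / (4 * (L2.factorial : ℝ)) =
      Real.exp (-L1) / (L2.factorial : ℝ) / 4 := by field_simp
  have e3 : Real.exp (-L1) / (L2.factorial : ℝ) ≤ Real.exp (-τ) / (L.factorial : ℝ) := by
    apply div_le_div₀ (Real.exp_pos _).le (Real.exp_le_exp.2 (by linarith)) hfac
    exact_mod_cast Nat.factorial_le hLL2
  rw [e1] at hfinal
  rw [e2] at hc
  linarith

end GapForcing
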