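import Pool.Agent.Lib.MP_c80ac4_an.CN.Barrier2

/-! Two constants theorem above a path which crosses a low rectangle. -/

namespace GapForcing

open Set Metric

lemma cosh_half_pi_le : Real.cosh (Real.pi / 2) ≤ 11 := by
  have hpi := Real.pi_lt_d2
  have h1 : Real.exp (Real.pi / 2) ≤ Real.exp 2 := Real.exp_le_exp.2 (by linarith)
  have h2 : Real.exp (-(Real.pi / 2)) ≤ 1 := by
    apply Real.exp_le_one_iff.2
    have := Real.pi_pos
    linarith
  have h3 : Real.exp 2 = Real.exp 1 * Real.exp 1 := by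
    rw [← Real.exp_add]; norm_num
  have h4 := Real.exp_one_lt_d9
  have h5 := Real.exp_pos 1
  rw [Real.cosh_eq]
  nlinarith

/-- the comparison function -/
noncomputable def tcPhi (xL W : ℝ) (w : ℂ) : ℂ :=
  (Complex.exp (((Real.pi / W : ℝ) : ℂ) * ((W : ℂ) + ((xL + W / 2 : ℝ) : ℂ) * Complex.I - w)) -
    Complex.exp (-(((Real.pi / W : ℝ) : ℂ) * ((W : ℂ) + ((xL + W / 2 : ℝ) : ℂ) * Complex.I - w)))) *
    ((1 / (2 * Real.sinh Real.pi) : ℝ) : ℂ)

lemma tcPhi_re (xL W : ℝ) (w : ℂ) : (tcPhi xL W w).re =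
    Real.sinh (Real.pi / W * (W - w.re)) * Real.cos (Real.pi / W * (xL + W / 2 - w.im)) /
      Real.sinh Real.pi := by
  set ζ : ℂ := ((Real.pi / W : ℝ) : ℂ) * ((W : ℂ) + ((xL + W / 2 : ℝ) : ℂ) * Complex.I - w) with hζ
  have h1 : ζ.re = Real.pi / W * (W - w.re) := by
    rw [hζ, Complex.re_ofReal_mul]
    simp
  have h2 : ζ.im = Real.pi / W * (xL + W / 2 - w.im) := by
    rw [hζ, Complex.im_ofReal_mul]
    simp
  have h3 : (tcPhi xL W w).re = (Complex.exp ζ - Complex.exp (-ζ)).re *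
      (1 / (2 * Real.sinh Real.pi)) := by
    unfold tcPhi
    rw [Complex.re_mul_ofReal]
  rw [h3, Complex.sub_re, Complex.exp_re, Complex.exp_re, Complex.neg_re, Complex.neg_im,
    Real.cos_neg, h1, h2, Real.sinh_eq (Real.pi / W * (W - w.re))]
  have h4 : Real.sinh Real.pi ≠ 0 := (Real.sinh_pos_iff.2 Real.pi_pos).ne'
  field_simp

lemma tcPhi_diff (xL W : ℝ) : Differentiable ℂ (tcPhi xL W) := by
  unfold tcPhi
  fun_prop

lemma tcPhi_bounds {xL W : ℝ} (hW : 0 < W) {w : ℂ} (h1 : 0 ≤ w.re) (h2 : w.re ≤ W)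
    (h3 : xL ≤ w.im) (h4 : w.im ≤ xL + W) : 0 ≤ (tcPhi xL W w).re ∧ (tcPhi xL W w).re ≤ 1 := by
  have hpi := Real.pi_pos
  have hs := Real.sinh_pos_iff.2 Real.pi_pos
  have a1 : 0 ≤ Real.pi / W * (W - w.re) := by
    have : 0 ≤ W - w.re := by linarith
    positivity
  have a2 : Real.pi / W * (W - w.re) ≤ Real.pi := by
    rw [div_mul_eq_mul_div, div_le_iff₀ hW]
    nlinarith
  have b1 : 0 ≤ Real.sinh (Real.pi / W * (W - w.re)) := Real.sinh_nonneg_iff.2 a1
  have b2 : Real.sinh (Real.pi / W * (W - w.re)) ≤ Real.sinh Real.pi := Real.sinh_le_sinh.2 a2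
  have c1 : 0 ≤ Real.cos (Real.pi / W * (xL + W / 2 - w.im)) := by
    apply Real.cos_nonneg_of_mem_Icc
    constructor
    · rw [div_mul_eq_mul_div, le_div_iff₀ hW]
      nlinarith
    · rw [div_mul_eq_mul_div, div_le_iff₀ hW]
      nlinarith
  have c2 := Real.cos_le_one (Real.pi / W * (xL + W / 2 - w.im))
  rw [tcPhi_re]
  constructor
  · positivity
  · rw [div_le_one hs]
    calc Real.sinh (Real.pi / W * (W - w.re)) * Real.cos (Real.pi / W * (xL + W / 2 - w.im))
        ≤ Real.sinh Real.pi * 1 := by gcongr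
      _ = _ := mul_one _

lemma tcPhi_top {xL W : ℝ} {w : ℂ} (h : w.re = W) : (tcPhi xL W w).re = 0 := by
  rw [tcPhi_re, h]
  simp

lemma tcPhi_left {xL W : ℝ} (hW : 0 < W) {w : ℂ} (h : w.im = xL) : (tcPhi xL W w).re = 0 := by
  rw [tcPhi_re, h]
  have : Real.pi / W * (xL + W / 2 - xL) = Real.pi / 2 := by field_simp; ring
  rw [this, Real.cos_pi_div_two]
  simp

lemma tcPhi_right {xL W : ℝ} (hW : 0 < W) {w : ℂ} (h : w.im = xL + W) :
    (tcPhi xL W w).re = 0 := by
  rw [tcPhi_re, h]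
  have : Real.pi / W * (xL + W / 2 - (xL + W)) = -(Real.pi / 2) := by field_simp; ring
  rw [this, Real.cos_neg, Real.cos_pi_div_two]
  simp

lemma tcPhi_mid {xL W : ℝ} (hW : 0 < W) {w : ℂ} (h2 : w.re ≤ W / 2)
    (h3 : xL + W / 4 ≤ w.im) (h4 : w.im ≤ xL + 3 * W / 4) : 1 / 32 ≤ (tcPhi xL W w).re := by
  have hpi := Real.pi_pos
  have hs := Real.sinh_pos_iff.2 Real.pi_pos
  have hs2 : 0 < Real.sinh (Real.pi / 2) := Real.sinh_pos_iff.2 (by positivity)
  have a1 : Real.pi / 2 ≤ Real.pi / W * (W - w.re) := by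
    rw [div_mul_eq_mul_div, le_div_iff₀ hW]
    nlinarith
  have b1 : Real.sinh (Real.pi / 2) ≤ Real.sinh (Real.pi / W * (W - w.re)) :=
    Real.sinh_le_sinh.2 a1
  have c1 : Real.sqrt 2 / 2 ≤ Real.cos (Real.pi / W * (xL + W / 2 - w.im)) := by
    rw [← Real.cos_pi_div_four, ← Real.cos_abs (Real.pi / W * (xL + W / 2 - w.im))]
    apply Real.cos_le_cos_of_nonneg_of_le_pi (abs_nonneg _) (by linarith)
    rw [abs_le]
    constructor
    · rw [div_mul_eq_mul_div, le_div_iff₀ hW]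
      nlinarith
    · rw [div_mul_eq_mul_div, div_le_iff₀ hW]
      nlinarith
  have c2 : (7:ℝ) / 10 ≤ Real.sqrt 2 / 2 := by
    have : (7:ℝ) / 5 ≤ Real.sqrt 2 := by
      apply Real.le_sqrt_of_sq_le
      norm_num
    linarith
  have d1 : Real.sinh Real.pi = 2 * Real.sinh (Real.pi / 2) * Real.cosh (Real.pi / 2) := by
    have := Real.sinh_two_mul (Real.pi / 2)
    rw [← this]
    congr 1; ring
  have d2 := cosh_half_pi_le
  have d3 := Real.cosh_pos (Real.pi / 2)
  rw [tcPhi_re, le_div_iff₀ hs, d1]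
  calc 1 / 32 * (2 * Real.sinh (Real.pi / 2) * Real.cosh (Real.pi / 2))
      ≤ 1 / 32 * (2 * Real.sinh (Real.pi / 2) * 11) := by gcongr
    _ = Real.sinh (Real.pi / 2) * (11 / 16) := by ring
    _ ≤ Real.sinh (Real.pi / W * (W - w.re)) *
        Real.cos (Real.pi / W * (xL + W / 2 - w.im)) := by
        apply mul_le_mul b1 (by linarith) (by norm_num) (hs2.le.trans b1)

lemma mul_log_le {y W : ℝ} (hy : 0 < y) (hyW : y ≤ W) :
    y / W * (Real.log W - Real.log y) ≤ 1 := by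
  have hW : 0 < W := hy.trans_le hyW
  rw [← Real.log_div hW.ne' hy.ne']
  have h1 : Real.log (W / y) ≤ W / y - 1 := Real.log_le_sub_one_of_pos (by positivity)
  have h2 : 0 < y / W := by positivity
  calc y / W * Real.log (W / y) ≤ y / W * (W / y - 1) := by gcongr
    _ = 1 - y / W := by field_simp
    _ ≤ 1 := by linarith

/-- **Two constants.** -/
theorem two_const {F : ℂ → ℂ} {B M m0 : ℝ} (hB : 0 ≤ B)
    (hd : ∀ w : ℂ, 0 < w.re → DifferentiableAt ℂ F w)
    (hF' : ∀ w : ℂ, 0 < w.re → ‖deriv F w‖ ≤ B / w.re)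
    {γ : ℝ → ℂ} (hγ : ContinuousOn γ (Icc 0 1)) {xL W : ℝ} (hW : 0 < W)
    (h0 : (γ 0).im = xL) (h1 : (γ 1).im = xL + W)
    (hpos : ∀ s ∈ Icc (0:ℝ) 1, 0 < (γ s).re) (hM : ∀ s ∈ Icc (0:ℝ) 1, ‖F (γ s)‖ ≤ M)
    (hm0 : ‖F (((W / 8 : ℝ) : ℂ) + ((xL + W / 2 : ℝ) : ℂ) * Complex.I)‖ ≤ m0)
    {lam : ℝ} (hlam : 0 ≤ lam) {P : ℂ} (hlow : ∀ s ∈ Icc (0:ℝ) 1, (γ s).re < P.re)
    (hu2 : P.re ≤ W / 2) (hu3 : xL + W / 4 ≤ P.im) (hu4 : P.im ≤ xL + 3 * W / 4) :
    ‖F P‖ ≤ 64 * (M * Real.exp lam + m0 + 4 * B) * Real.exp (-(lam / 32)) := by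
  have hM0 : 0 ≤ M := (norm_nonneg _).trans (hM 0 ⟨le_rfl, zero_le_one⟩)
  have hm00 : 0 ≤ m0 := (norm_nonneg _).trans hm0
  -- minimal height
  obtain ⟨s0, hs0, hmin⟩ := isCompact_Icc.exists_isMinOn (s := Icc (0:ℝ) 1) ⟨0, by simp⟩
    (Complex.continuous_re.comp_continuousOn hγ)
  set y0 := (γ s0).re with hy0
  have hy0pos : 0 < y0 := hpos s0 hs0
  have hymin : ∀ s ∈ Icc (0:ℝ) 1, y0 ≤ (γ s).re := fun s hs => hmin hs
  have hP0 : 0 < P.re := hy0pos.trans (hlow s0 hs0)
  have hPsq : P ∈ sq xL W := ⟨hP0, by linarith, by linarith, by linarith⟩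
  set U := sq xL W \ γ '' Icc 0 1 with hU
  have hcomp : IsCompact (γ '' Icc 0 1) := isCompact_Icc.image_of_continuousOn hγ
  have hUo : IsOpen U := (isOpen_sq xL W).sdiff hcomp.isClosed
  have hPU : P ∈ U := by
    refine ⟨hPsq, ?_⟩
    rintro ⟨s, hs, hse⟩
    have := hlow s hs
    rw [hse] at this
    exact lt_irrefl _ this
  set V := connectedComponentIn U P with hV
  have hVsub : V ⊆ sq xL W := (connectedComponentIn_subset _ _).trans sdiff_subset
  have habove : ∀ w ∈ V, y0 ≤ w.re := component_above hγ h0 h1 hymin hPsq hlow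
  have hclV : ∀ w ∈ closure V, y0 ≤ w.re ∧ w.re ≤ W ∧ xL ≤ w.im ∧ w.im ≤ xL + W := by
    intro w hw
    have h2 := closure_sq_subset xL W (closure_mono hVsub hw)
    have h3 : w ∈ {w : ℂ | y0 ≤ w.re} := by
      apply closure_minimal habove (isClosed_le continuous_const Complex.continuous_re) hw
    exact ⟨h3, h2.2.1, h2.2.2.1, h2.2.2.2⟩
  set m' := m0 + B * (1 / 2 + Real.log 8) with hm'
  have hlog8 : 0 ≤ Real.log 8 := Real.log_nonneg (by norm_num)
  have hm'0 : 0 ≤ m' := by positivity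
  -- value on the top side
  have htop : ∀ x : ℝ, xL ≤ x → x ≤ xL + W → ‖F ((W : ℂ) + (x : ℂ) * Complex.I)‖ ≤ m' := by
    intro x hx1 hx2
    have a1 := horiz_bound hd hF' (y := W) (x1 := x) (x2 := xL + W / 2) hW
    have a2 := vert_bound hd hF' (y1 := W / 8) (y2 := W) (x := xL + W / 2) (by positivity)
      (by linarith)
    have a3 : |x - (xL + W / 2)| ≤ W / 2 := by rw [abs_le]; constructor <;> linarith
    have a4 : B / W * |x - (xL + W / 2)| ≤ B / 2 := by
      calc B / W * |x - (xL + W / 2)| ≤ B / W * (W / 2) := by gcongr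
        _ = B / 2 := by field_simp
    have a5 : Real.log W - Real.log (W / 8) = Real.log 8 := by
      rw [Real.log_div hW.ne' (by norm_num)]; ring
    rw [a5] at a2
    calc ‖F ((W : ℂ) + (x : ℂ) * Complex.I)‖
        = ‖(F ((W : ℂ) + (x : ℂ) * Complex.I) - F ((W : ℂ) + ((xL + W / 2 : ℝ) : ℂ) * Complex.I))
          - (F (((W / 8 : ℝ) : ℂ) + ((xL + W / 2 : ℝ) : ℂ) * Complex.I) -
            F ((W : ℂ) + ((xL + W / 2 : ℝ) : ℂ) * Complex.I)) +
          F (((W / 8 : ℝ) : ℂ) + ((xL + W / 2 : ℝ) : ℂ) * Complex.I)‖ := by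
          congr 1; ring
      _ ≤ _ := (norm_add_le _ _).trans (add_le_add (norm_sub_le _ _) le_rfl)
      _ ≤ B / 2 + B * Real.log 8 + m0 := by
          gcongr
          exact a1.trans a4
      _ = m' := by rw [hm']; ring
  -- value on the lateral sides
  have hside : ∀ x y : ℝ, xL ≤ x → x ≤ xL + W → 0 < y → y ≤ W →
      ‖F ((y : ℂ) + (x : ℂ) * Complex.I)‖ ≤ m' + B * (Real.log W - Real.log y) := by
    intro x y hx1 hx2 hy hyW
    have a1 := vert_bound hd hF' (y1 := y) (y2 := W) (x := x) hy hyW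
    have a2 := htop x hx1 hx2
    calc ‖F ((y : ℂ) + (x : ℂ) * Complex.I)‖
        = ‖(F ((y : ℂ) + (x : ℂ) * Complex.I) - F ((W : ℂ) + (x : ℂ) * Complex.I)) +
          F ((W : ℂ) + (x : ℂ) * Complex.I)‖ := by congr 1; ring
      _ ≤ _ := norm_add_le _ _
      _ ≤ B * (Real.log W - Real.log y) + m' := add_le_add a1 a2
      _ = _ := by ring
  -- the auxiliary factors
  let ζL : ℂ → ℂ := fun w => w - (xL : ℂ) * Complex.I
  let ζR : ℂ → ℂ := fun w => w - ((xL + W : ℝ) : ℂ) * Complex.I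
  have hζLre : ∀ w, (ζL w).re = w.re := by intro w; simp [ζL]
  have hζRre : ∀ w, (ζR w).re = w.re := by intro w; simp [ζR]
  have hζLim : ∀ w, (ζL w).im = w.im - xL := by intro w; simp [ζL]
  have hζRim : ∀ w, (ζR w).im = w.im - (xL + W) := by intro w; simp [ζR]
  have hnL : ∀ w ∈ closure V, ‖ζL w‖ ≤ 2 * W ∧ ‖ζR w‖ ≤ 2 * W := by
    intro w hw
    obtain ⟨b1, b2, b3, b4⟩ := hclV w hw
    have hre0 : 0 < w.re := hy0pos.trans_le b1
    constructor
    · refine (Complex.norm_le_abs_re_add_abs_im _).trans ?_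
      rw [hζLre, hζLim, abs_of_pos hre0, abs_of_nonneg (by linarith)]
      linarith
    · refine (Complex.norm_le_abs_re_add_abs_im _).trans ?_
      rw [hζRre, hζRim, abs_of_pos hre0, abs_of_nonpos (by linarith)]
      linarith
  let H : ℂ → ℂ := fun w => F w * (ζL w * ζR w) * Complex.exp ((lam : ℂ) * tcPhi xL W w)
  have hHn : ∀ w, ‖H w‖ = ‖F w‖ * (‖ζL w‖ * ‖ζR w‖) * Real.exp (lam * (tcPhi xL W w).re) := by
    intro w
    simp only [H]
    rw [norm_mul, norm_mul, norm_mul, Complex.norm_exp, Complex.re_ofReal_mul]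
  have hHd : DiffContOnCl ℂ H V := by
    apply DifferentiableOn.diffContOnCl
    intro w hw
    apply DifferentiableAt.differentiableWithinAt
    have hre0 : 0 < w.re := hy0pos.trans_le (hclV w hw).1
    have d1 : DifferentiableAt ℂ (fun w => ζL w * ζR w) w :=
      (differentiableAt_id.sub_const _).mul (differentiableAt_id.sub_const _)
    have d2 : DifferentiableAt ℂ (fun w => Complex.exp ((lam : ℂ) * tcPhi xL W w)) w :=
      ((tcPhi_diff xL W w).const_mul _).cexp
    exact ((hd w hre0).mul d1).mul d2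
  set Q : ℝ := (M * Real.exp lam + m' + B) * (4 * W ^ 2) with hQ
  have hQ0 : 0 ≤ Q := by positivity
  have hHfr : ∀ w ∈ frontier V, ‖H w‖ ≤ Q := by
    intro w hw
    have hwcl : w ∈ closure V := frontier_subset_closure hw
    obtain ⟨b1, b2, b3, b4⟩ := hclV w hwcl
    obtain ⟨l1, l2⟩ := hnL w hwcl
    have hre0 : 0 < w.re := hy0pos.trans_le b1
    have hnU : w ∉ U := frontier_component hUo P w hw
    obtain ⟨p1, p2⟩ := tcPhi_bounds hW hre0.le b2 b3 b4
    have hw_eq : w = (w.re : ℂ) + (w.im : ℂ) * Complex.I := (Complex.re_add_im w).symm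
    have hLR : ‖ζL w‖ * ‖ζR w‖ ≤ 4 * W ^ 2 := by
      calc ‖ζL w‖ * ‖ζR w‖ ≤ (2 * W) * (2 * W) := by gcongr
        _ = 4 * W ^ 2 := by ring
    rw [hHn]
    have hE0 : 0 ≤ M * Real.exp lam := by positivity
    by_cases hγw : w ∈ γ '' Icc 0 1
    · obtain ⟨s, hs, rfl⟩ := hγw
      have h5 := hM s hs
      have h6 : Real.exp (lam * (tcPhi xL W (γ s)).re) ≤ Real.exp lam := by
        apply Real.exp_le_exp.2
        nlinarith
      calc ‖F (γ s)‖ * (‖ζL (γ s)‖ * ‖ζR (γ s)‖) * Real.exp (lam * (tcPhi xL W (γ s)).re)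
          ≤ M * (4 * W ^ 2) * Real.exp lam := by gcongr
        _ = (M * Real.exp lam) * (4 * W ^ 2) := by ring
        _ ≤ Q := by
            rw [hQ]
            gcongr
            linarith
    · have hnsq : w ∉ sq xL W := fun h => hnU ⟨h, hγw⟩
      have hcases : w.re = W ∨ w.im = xL ∨ w.im = xL + W := by
        by_contra hcon
        push Not at hcon
        exact hnsq ⟨hre0, lt_of_le_of_ne b2 hcon.1, lt_of_le_of_ne b3 (Ne.symm hcon.2.1),
          lt_of_le_of_ne b4 hcon.2.2⟩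
      have hφ0 : (tcPhi xL W w).re = 0 := by
        rcases hcases with h | h | h
        · exact tcPhi_top h
        · exact tcPhi_left hW h
        · exact tcPhi_right hW h
      rw [hφ0, mul_zero, Real.exp_zero, mul_one]
      have hside' : ∀ r : ℝ, r = w.re → ‖F w‖ * (r * (2 * W)) ≤ Q := by
        intro r hr
        have h5 := hside w.im w.re b3 b4 hre0 b2
        rw [← hw_eq] at h5
        have h6 := mul_log_le hre0 b2
        have h7 : w.re / W ≤ 1 := by rw [div_le_one hW]; exact b2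
        calc ‖F w‖ * (r * (2 * W)) ≤ (m' + B * (Real.log W - Real.log w.re)) *
              (w.re * (2 * W)) := by
              rw [hr]; gcongr
          _ = (m' * (w.re / W) + B * (w.re / W * (Real.log W - Real.log w.re))) *
              (2 * W ^ 2) := by field_simp
          _ ≤ (m' * 1 + B * 1) * (2 * W ^ 2) := by gcongr
          _ ≤ Q := by
              rw [hQ]
              have h8 : 0 ≤ (m' + B) * W ^ 2 := by positivity
              have h9 : 0 ≤ (M * Real.exp lam) * W ^ 2 := by positivity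
              nlinarith
      rcases hcases with h | h | h
      · -- top
        have h5 := htop w.im b3 b4
        rw [h] at hw_eq
        rw [← hw_eq] at h5
        calc ‖F w‖ * (‖ζL w‖ * ‖ζR w‖) ≤ m' * (4 * W ^ 2) := by gcongr
          _ ≤ Q := by
              rw [hQ]
              gcongr
              linarith
      · -- left
        have h6 : ζL w = (w.re : ℂ) := by
          apply Complex.ext
          · rw [hζLre]; simp
          · rw [hζLim, h]; simp
        have h8 : ‖ζL w‖ = w.re := by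
          rw [h6, Complex.norm_real, Real.norm_of_nonneg hre0.le]
        refine le_trans ?_ (hside' ‖ζL w‖ h8)
        gcongr
      · -- right
        have h6 : ζR w = (w.re : ℂ) := by
          apply Complex.ext
          · rw [hζRre]; simp
          · rw [hζRim, h]; simp
        have h8 : ‖ζR w‖ = w.re := by
          rw [h6, Complex.norm_real, Real.norm_of_nonneg hre0.le]
        refine le_trans ?_ (hside' ‖ζR w‖ h8)
        rw [mul_comm ‖ζL w‖]
        gcongr
  have hVb : Bornology.IsBounded V := (isBounded_sq xL W).subset hVsub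
  have hPV : P ∈ closure V := subset_closure (mem_connectedComponentIn hPU)
  have hHP := Complex.norm_le_of_forall_mem_frontier_norm_le hVb hHd hHfr hPV
  rw [hHn] at hHP
  -- evaluation at P
  have hmid := tcPhi_mid hW hu2 hu3 hu4
  have n1 : W / 4 ≤ ‖ζL P‖ := by
    refine le_trans ?_ (Complex.abs_im_le_norm _)
    rw [hζLim, abs_of_nonneg (by linarith)]
    linarith
  have n2 : W / 4 ≤ ‖ζR P‖ := by
    refine le_trans ?_ (Complex.abs_im_le_norm _)
    rw [hζRim, abs_of_nonpos (by linarith)]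
    linarith
  have n3 : W ^ 2 / 16 ≤ ‖ζL P‖ * ‖ζR P‖ := by
    calc W ^ 2 / 16 = (W / 4) * (W / 4) := by ring
      _ ≤ ‖ζL P‖ * ‖ζR P‖ := by gcongr
  have n4 : Real.exp (lam / 32) ≤ Real.exp (lam * (tcPhi xL W P).re) := by
    apply Real.exp_le_exp.2
    nlinarith
  have n5 : ‖F P‖ * (W ^ 2 / 16) * Real.exp (lam / 32) ≤ Q := by
    refine le_trans ?_ hHP
    gcongr
  have n6 : ‖F P‖ * Real.exp (lam / 32) ≤ 64 * (M * Real.exp lam + m' + B) := by
    have hW2 : 0 < W ^ 2 / 16 := by positivity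
    have : ‖F P‖ * Real.exp (lam / 32) * (W ^ 2 / 16) ≤
        64 * (M * Real.exp lam + m' + B) * (W ^ 2 / 16) := by
      rw [hQ] at n5
      nlinarith
    exact le_of_mul_le_mul_right this hW2
  have l2 := Real.log_two_lt_d9
  have l8 : Real.log 8 = 3 * Real.log 2 := by
    rw [show (8:ℝ) = 2 ^ 3 by norm_num, Real.log_pow]; norm_num
  have n7 : m' + B ≤ m0 + 4 * B := by
    have : B * (1 / 2 + Real.log 8) ≤ B * 3 := by
      apply mul_le_mul_of_nonneg_left _ hB
      linarith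
    rw [hm']; linarith
  have n8 : ‖F P‖ * Real.exp (lam / 32) ≤ 64 * (M * Real.exp lam + m0 + 4 * B) := by
    refine n6.trans ?_
    linarith
  rw [Real.exp_neg, ← div_eq_mul_inv, le_div_iff₀ (Real.exp_pos _)]
  exact n8

end GapForcing
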