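import Pool.Agent.Lib.MP_c80ac4_an.CN.T1
import Pool.Agent.Lib.MP_c80ac4_an.CN.T2
import Pool.Agent.Lib.MP_c80ac4_an.CN.Bounded

/-! Maximal terms at a height, and local bounds. -/

namespace GapForcing

open Set Filter Topology

/-- the index `k` gives the maximal term at the height `t` -/
def IsMaxIdx (a : ℕ → ℂ) (n : ℕ → ℕ) (t : ℝ) (k : ℕ) : Prop :=
  ∀ j, ‖a j‖ * Real.exp (-(n j : ℝ) * t) ≤ ‖a k‖ * Real.exp (-(n k : ℝ) * t)

variable {a : ℕ → ℂ} {n : ℕ → ℕ}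

lemma exists_isMaxIdx (hc : ConvergesInDisc a n) {t : ℝ} (ht : 0 < t) :
    ∃ k, IsMaxIdx a n t k :=
  exists_max_term (fun j => ‖a j‖ * Real.exp (-(n j : ℝ) * t)) (fun j => by positivity)
    (summable_hp_norm hc ht).tendsto_atTop_zero

lemma IsMaxIdx.anti {t t' : ℝ} {k k' : ℕ} (h : IsMaxIdx a n t k) (h' : IsMaxIdx a n t' k')
    (htt : t < t') (hk' : a k' ≠ 0) : n k' ≤ n k := by
  have h1 := h k'
  have h2 := h' k
  have hpos : 0 < ‖a k'‖ := norm_pos_iff.2 hk'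
  have h3 : ‖a k‖ * Real.exp (-(n k : ℝ) * t) ≤
      ‖a k'‖ * Real.exp (-(n k' : ℝ) * t' + (n k : ℝ) * (t' - t)) := by
    have e1 : Real.exp (-(n k : ℝ) * t) = Real.exp (-(n k : ℝ) * t') *
        Real.exp ((n k : ℝ) * (t' - t)) := by
      rw [← Real.exp_add]; congr 1; ring
    rw [e1, Real.exp_add, ← mul_assoc, ← mul_assoc]
    exact mul_le_mul_of_nonneg_right h2 (Real.exp_pos _).le
  have h4 := le_of_mul_le_mul_left (h1.trans h3) hpos
  have h5 := Real.exp_le_exp.1 h4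
  have h6 : (n k' : ℝ) * (t' - t) ≤ (n k : ℝ) * (t' - t) := by linarith
  have h7 : (n k' : ℝ) ≤ n k := le_of_mul_le_mul_right h6 (by linarith)
  exact_mod_cast h7

lemma isClosed_isMaxIdx (k : ℕ) : IsClosed {t : ℝ | IsMaxIdx a n t k} := by
  have : {t : ℝ | IsMaxIdx a n t k} = ⋂ j, {t : ℝ | ‖a j‖ * Real.exp (-(n j : ℝ) * t) ≤
      ‖a k‖ * Real.exp (-(n k : ℝ) * t)} := by
    ext t
    simp [IsMaxIdx]
  rw [this]
  apply isClosed_iInter
  intro j
  exact isClosed_le (by fun_prop) (by fun_prop)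

lemma IsMaxIdx.ne_zero {t : ℝ} {k : ℕ} (h : IsMaxIdx a n t k)
    (hunb : ¬ ∃ A : ℝ, ∀ j, ‖a j‖ ≤ A) : a k ≠ 0 := by
  intro h0
  apply hunb
  refine ⟨0, fun j => ?_⟩
  have h1 := h j
  rw [h0, norm_zero, zero_mul] at h1
  have h2 := Real.exp_pos (-(n j : ℝ) * t)
  by_contra hc
  push Not at hc
  have := mul_pos hc h2
  linarith

/-- the two maximal indices seen from the height `h` -/
lemma exists_two_idx {q : ℝ} (hn : HadamardGaps q n) (hc : ConvergesInDisc a n)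
    (hunb : ¬ ∃ A : ℝ, ∀ j, ‖a j‖ ≤ A) {h L : ℝ} (hh : 0 < h) (hL : 0 < L) :
    ∃ t : ℝ, 0 < t ∧ t < h ∧ ∃ k1 k2, IsMaxIdx a n t k1 ∧ IsMaxIdx a n t k2 ∧
      (n k1 : ℝ) * (h - t) ≤ L ∧ L ≤ (n k2 : ℝ) * (h - t) := by
  have hnj : ∀ j, j ≤ n j := fun j => hn.2.1.id_le j
  -- a small height with a large maximal index
  obtain ⟨N, hN⟩ := exists_nat_gt (2 * L / h)
  have hNL : L ≤ (N : ℝ) * (h / 2) := by
    rw [div_lt_iff₀ hh] at hN
    linarith
  set A : ℝ := ∑ j ∈ Finset.range N, ‖a j‖ with hA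
  have hA0 : 0 ≤ A := Finset.sum_nonneg fun _ _ => norm_nonneg _
  obtain ⟨j, hj⟩ : ∃ j, A < ‖a j‖ := by
    by_contra hcon
    push Not at hcon
    exact hunb ⟨A, hcon⟩
  obtain ⟨t0, ht0, ht0h, ht0j⟩ : ∃ t0 : ℝ, 0 < t0 ∧ t0 ≤ h / 2 ∧
      A < ‖a j‖ * Real.exp (-(n j : ℝ) * t0) := by
    have hlim : Tendsto (fun t : ℝ => ‖a j‖ * Real.exp (-(n j : ℝ) * t)) (𝓝[>] 0) (𝓝 ‖a j‖) := by
      have hcont : Continuous fun t : ℝ => ‖a j‖ * Real.exp (-(n j : ℝ) * t) := by fun_prop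
      have := (hcont.tendsto 0).mono_left (nhdsWithin_le_nhds (s := Set.Ioi 0))
      simpa using this
    have h1 := hlim.eventually (lt_mem_nhds hj)
    have h2 : Set.Ioo (0:ℝ) (h / 2) ∈ 𝓝[>] (0:ℝ) := Ioo_mem_nhdsGT (by positivity)
    obtain ⟨t, ht1, ht2⟩ := (h1.and h2).exists
    exact ⟨t, ht2.1, ht2.2.le, ht1⟩
  obtain ⟨k0, hk0⟩ := exists_isMaxIdx hc ht0
  have hk0N : N ≤ k0 := by
    by_contra hlt
    push Not at hlt
    have h1 : ‖a k0‖ ≤ A := Finset.single_le_sum (f := fun j => ‖a j‖) (fun i _ => norm_nonneg _)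
      (by simpa using hlt)
    have h2 := hk0 j
    have h3 : Real.exp (-(n k0 : ℝ) * t0) ≤ 1 := by
      rw [Real.exp_le_one_iff]
      have := hn.pos k0
      nlinarith
    have h4 := norm_nonneg (a k0)
    nlinarith
  have hk0L : L ≤ (n k0 : ℝ) * (h - t0) := by
    have h1 : (N : ℝ) ≤ n k0 := by exact_mod_cast hk0N.trans (hnj k0)
    have h2 : (N : ℝ) * (h / 2) ≤ (n k0 : ℝ) * (h - t0) := by
      apply mul_le_mul h1 (by linarith) (by positivity) (by positivity)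
    linarith
  -- all maximal indices on [t0, h] are bounded
  obtain ⟨k00, hk00⟩ := exists_isMaxIdx hc (half_pos ht0)
  set J : Finset ℕ := Finset.range (n k00 + 1) with hJ
  have hmemJ : ∀ t k, t0 ≤ t → IsMaxIdx a n t k → k ∈ J := by
    intro t k ht hk
    have h1 := hk00.anti hk (by linarith) (hk.ne_zero hunb)
    have h2 := hnj k
    rw [hJ, Finset.mem_range]
    omega
  let C1 : Set ℝ := ⋃ k ∈ J, ({t : ℝ | IsMaxIdx a n t k} ∩ {t : ℝ | (n k : ℝ) * (h - t) ≤ L})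
  let C2 : Set ℝ := ⋃ k ∈ J, ({t : ℝ | IsMaxIdx a n t k} ∩ {t : ℝ | L ≤ (n k : ℝ) * (h - t)})
  have hC1 : IsClosed C1 := isClosed_biUnion_finset fun k _ =>
    (isClosed_isMaxIdx k).inter (isClosed_le (by fun_prop) (by fun_prop))
  have hC2 : IsClosed C2 := isClosed_biUnion_finset fun k _ =>
    (isClosed_isMaxIdx k).inter (isClosed_le (by fun_prop) (by fun_prop))
  have hconn := isPreconnected_closed_iff.1 (isPreconnected_Icc (a := t0) (b := h)) C1 C2 hC1 hC2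
    (by
      intro t ht
      obtain ⟨k, hk⟩ := exists_isMaxIdx hc (ht0.trans_le ht.1)
      have hkJ := hmemJ t k ht.1 hk
      rcases le_total ((n k : ℝ) * (h - t)) L with h1 | h1
      · left
        simp only [C1, mem_iUnion]
        exact ⟨k, hkJ, hk, h1⟩
      · right
        simp only [C2, mem_iUnion]
        exact ⟨k, hkJ, hk, h1⟩)
    (by
      obtain ⟨k, hk⟩ := exists_isMaxIdx hc hh
      refine ⟨h, ⟨by linarith, le_rfl⟩, ?_⟩
      simp only [C1, mem_iUnion]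
      refine ⟨k, hmemJ h k (by linarith) hk, hk, ?_⟩
      change (n k : ℝ) * (h - h) ≤ L
      rw [sub_self, mul_zero]
      exact hL.le)
    (by
      refine ⟨t0, ⟨le_rfl, by linarith⟩, ?_⟩
      simp only [C2, mem_iUnion]
      exact ⟨k0, hmemJ t0 k0 le_rfl hk0, hk0, hk0L⟩)
  obtain ⟨t, ht, ht1, ht2⟩ := hconn
  simp only [C1, mem_iUnion] at ht1
  simp only [C2, mem_iUnion] at ht2
  obtain ⟨k1, -, hk1, hk1L⟩ := ht1
  obtain ⟨k2, -, hk2, hk2L⟩ := ht2
  have hk2L' : L ≤ (n k2 : ℝ) * (h - t) := hk2L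
  refine ⟨t, ht0.trans_le ht.1, ?_, k1, k2, hk1, hk2, hk1L, hk2L'⟩
  by_contra hcon
  push Not at hcon
  have := hn.pos k2
  nlinarith

/-- local bound from a continuum -/
theorem local_bound {q : ℝ} (hq : 1 < q) : ∃ L0 : ℝ, 2 ≤ L0 ∧ ∀ L1 : ℝ, ∃ ε : ℝ, 0 < ε ∧
    ∀ n : ℕ → ℕ, HadamardGaps q n → ∀ a : ℕ → ℂ, ∀ t : ℝ, ∀ k, IsMaxIdx a n t k → a k ≠ 0 →
    ∀ w : ℂ, L0 ≤ (n k : ℝ) * (w.re - t) → (n k : ℝ) * (w.re - t) ≤ L1 → ∀ M : ℝ,
    (∀ ρ : ℝ, 0 ≤ ρ → ρ ≤ 1 / (2 * (n k : ℝ)) →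
      ∃ u : ℂ, ‖u‖ = ρ ∧ ‖hpSeries a n (w + u)‖ ≤ M) →
    ε * (‖a k‖ * Real.exp (-(n k : ℝ) * t)) ≤ M := by
  obtain ⟨L0, hL0, hsm⟩ := not_small_real hq
  refine ⟨L0, hL0, fun L1 => ?_⟩
  obtain ⟨ε, hε, hsmall⟩ := hsm L1
  refine ⟨ε, hε, ?_⟩
  intro n hn a t k hk hak w hw0 hw1 M hM
  have hnk0 := hn.pos k
  set Bk : ℝ := ‖a k‖ * Real.exp (-(n k : ℝ) * t) with hBk
  have hB0 : 0 < Bk := mul_pos (norm_pos_iff.2 hak) (Real.exp_pos _)
  have hx : ∀ j, 0 < (n j : ℝ) / n k := fun j => div_pos (hn.pos j) hnk0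
  have hxs : ∀ j, q * ((n j : ℝ) / n k) ≤ (n (j + 1) : ℝ) / n k := by
    intro j
    rw [← mul_div_assoc]
    exact div_le_div_of_nonneg_right (hn.step j) hnk0.le
  let b : ℕ → ℂ := fun j => a j * ((Real.exp (-(n j : ℝ) * t) : ℝ) : ℂ) / ((Bk : ℝ) : ℂ)
  have hbn : ∀ j, ‖b j‖ = ‖a j‖ * Real.exp (-(n j : ℝ) * t) / Bk := by
    intro j
    simp only [b]
    rw [norm_div, norm_mul, Complex.norm_real, Complex.norm_real,
      Real.norm_of_nonneg (Real.exp_pos _).le, Real.norm_of_nonneg hB0.le]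
  have hre : ((n k : ℂ) * (w - t)).re = (n k : ℝ) * (w.re - t) := by
    rw [show ((n k : ℂ)) = ((n k : ℝ) : ℂ) by simp, Complex.re_ofReal_mul]
    simp
  have hMB := hsmall (fun j => (n j : ℝ) / n k) hx hxs k (div_self hnk0.ne') b (by
      intro j
      rw [hbn, div_le_one hB0]
      exact hk j) (by
      rw [hbn]
      exact div_self hB0.ne') ((n k : ℂ) * (w - t)) (by rw [hre]; exact hw0)
      (by rw [hre]; exact hw1) (M / Bk) (by
      intro ρ h1 h2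
      obtain ⟨u, hu, hu2⟩ := hM (ρ / n k) (by positivity) (by
        rw [div_le_div_iff₀ hnk0 (by positivity)]
        nlinarith)
      refine ⟨(n k : ℂ) * u, ?_, ?_⟩
      · rw [norm_mul, Complex.norm_natCast, hu]
        field_simp
      · have e : ∑' j, b j * Complex.exp (-(((n j : ℝ) / n k : ℝ) : ℂ) *
            ((n k : ℂ) * (w - t) + (n k : ℂ) * u)) = hpSeries a n (w + u) / ((Bk : ℝ) : ℂ) := by
          unfold hpSeries
          rw [← tsum_div_const]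
          apply tsum_congr
          intro j
          simp only [b]
          have hnkc : (n k : ℂ) ≠ 0 := by exact_mod_cast hnk0.ne'
          rw [div_mul_eq_mul_div, mul_assoc, Complex.ofReal_exp, ← Complex.exp_add]
          congr 3
          push_cast
          field_simp
          ring
        rw [e, norm_div, Complex.norm_real, Real.norm_of_nonneg hB0.le]
        gcongr)
  rw [le_div_iff₀ hB0] at hMB
  exact hMB

/-- the shifted series -/
lemma hpSeries_shift (a : ℕ → ℂ) (n : ℕ → ℕ) (t : ℝ) (w : ℂ) :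
    hpSeries (fun j => a j * ((Real.exp (-(n j : ℝ) * t) : ℝ) : ℂ)) n w =
      hpSeries a n (w + t) := by
  unfold hpSeries
  apply tsum_congr
  intro j
  rw [mul_assoc, Complex.ofReal_exp, ← Complex.exp_add]
  congr 2
  push_cast
  ring

/-- the bound below a long horizontal path -/
theorem strip_case {q : ℝ} (hq : 1 < q) {L0 : ℝ} (hL0 : 2 ≤ L0) {L1 ε : ℝ} (hL1 : L0 + 1 ≤ L1)
    (hε : 0 < ε)
    (hloc : ∀ n : ℕ → ℕ, HadamardGaps q n → ∀ a : ℕ → ℂ, ∀ t : ℝ, ∀ k, IsMaxIdx a n t k → a k ≠ 0 →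
      ∀ w : ℂ, L0 ≤ (n k : ℝ) * (w.re - t) → (n k : ℝ) * (w.re - t) ≤ L1 → ∀ M : ℝ,
      (∀ ρ : ℝ, 0 ≤ ρ → ρ ≤ 1 / (2 * (n k : ℝ)) →
        ∃ u : ℂ, ‖u‖ = ρ ∧ ‖hpSeries a n (w + u)‖ ≤ M) →
      ε * (‖a k‖ * Real.exp (-(n k : ℝ) * t)) ≤ M) :
    ∃ ε' : ℝ, 0 < ε' ∧ ∀ n : ℕ → ℕ, HadamardGaps q n → ∀ a : ℕ → ℂ, ∀ t : ℝ, ∀ k,
      IsMaxIdx a n t k → a k ≠ 0 → ∀ γ : ℝ → ℂ, Continuous γ →
      (∀ s ∈ Icc (0:ℝ) 1, t < (γ s).re ∧ (n k : ℝ) * ((γ s).re - t) < L0) →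
      (γ 0).im + (8 * L0 + 8) / n k ≤ (γ 1).im → ∀ M : ℝ,
      (∀ s ∈ Icc (0:ℝ) 1, ‖hpSeries a n (γ s)‖ ≤ M) →
      ε' * (‖a k‖ * Real.exp (-(n k : ℝ) * t)) ≤ M := by
  have hq1 : 0 < q - 1 := by linarith
  set Cq : ℝ := 2 * q / (q - 1) with hCq
  have hCq0 : 0 < Cq := by positivity
  -- choice of lambda
  obtain ⟨lam, hlam0, hlam⟩ : ∃ lam : ℝ, 0 ≤ lam ∧
      832 * Cq * Real.exp (-(lam / 32)) ≤ ε / 2 := by
    refine ⟨32 * (2 * (832 * Cq) / ε), by positivity, ?_⟩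
    set X : ℝ := 2 * (832 * Cq) / ε with hX
    have hX0 : 0 < X := by positivity
    have h1 : 32 * X / 32 = X := by ring
    rw [h1]
    have h2 := Real.add_one_le_exp X
    rw [Real.exp_neg, ← div_eq_mul_inv, div_le_iff₀ (Real.exp_pos _)]
    have h3 : X * ε = 2 * (832 * Cq) := by rw [hX]; field_simp
    nlinarith
  refine ⟨ε / (128 * (Real.exp lam + 2)), by positivity, ?_⟩
  intro n hn a t k hk hak γ hγ hstrip himag M hM
  have hnk0 := hn.pos k
  have hM0 : 0 ≤ M := (norm_nonneg _).trans (hM 0 ⟨le_rfl, zero_le_one⟩)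
  set μ : ℝ := ‖a k‖ * Real.exp (-(n k : ℝ) * t) with hμ
  have hμ0 : 0 < μ := mul_pos (norm_pos_iff.2 hak) (Real.exp_pos _)
  let a' : ℕ → ℂ := fun j => a j * ((Real.exp (-(n j : ℝ) * t) : ℝ) : ℂ)
  have ha' : ∀ j, ‖a' j‖ ≤ μ := by
    intro j
    simp only [a']
    rw [norm_mul, Complex.norm_real, Real.norm_of_nonneg (Real.exp_pos _).le]
    exact hk j
  have hsh : ∀ w, hpSeries a' n w = hpSeries a n (w + t) := fun w => hpSeries_shift a n t w
  set B : ℝ := μ * Cq with hB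
  have hB0 : 0 ≤ B := by positivity
  have hd : ∀ w : ℂ, 0 < w.re → DifferentiableAt ℂ (hpSeries a' n) w :=
    fun w hw => hp_differentiableAt hq hn ha' hw
  have hF' : ∀ w : ℂ, 0 < w.re → ‖deriv (hpSeries a' n) w‖ ≤ B / w.re :=
    fun w hw => hp_deriv_le hq hn ha' hw
  set W : ℝ := (8 * L0 + 8) / n k with hW
  have hW0 : 0 < W := by positivity
  -- cut the path
  obtain ⟨s1, hs1, hs1e⟩ : ∃ s1 ∈ Icc (0:ℝ) 1, (γ s1).im = (γ 0).im + W := by
    have him : ContinuousOn (fun s => (γ s).im) (Icc 0 1) :=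
      (Complex.continuous_im.comp hγ).continuousOn
    exact intermediate_value_Icc zero_le_one him ⟨by linarith, himag⟩
  let g : ℝ → ℂ := fun s => γ (s1 * s) - t
  have hg : Continuous g := (hγ.comp (by fun_prop)).sub continuous_const
  have hgmem : ∀ s ∈ Icc (0:ℝ) 1, s1 * s ∈ Icc (0:ℝ) 1 := by
    intro s hs
    exact ⟨mul_nonneg hs1.1 hs.1, mul_le_one₀ hs1.2 hs.1 hs.2⟩
  have hgre : ∀ s, (g s).re = (γ (s1 * s)).re - t := by intro s; simp [g]
  have hgim : ∀ s, (g s).im = (γ (s1 * s)).im := by intro s; simp [g]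
  have hgpos : ∀ s ∈ Icc (0:ℝ) 1, 0 < (g s).re := by
    intro s hs
    rw [hgre]
    linarith [(hstrip _ (hgmem s hs)).1]
  have hglow : ∀ s ∈ Icc (0:ℝ) 1, (g s).re < L0 / n k := by
    intro s hs
    rw [hgre, lt_div_iff₀ hnk0]
    linarith [(hstrip _ (hgmem s hs)).2]
  have hgM : ∀ s ∈ Icc (0:ℝ) 1, ‖hpSeries a' n (g s)‖ ≤ M := by
    intro s hs
    rw [hsh]
    simp only [g, sub_add_cancel]
    exact hM _ (hgmem s hs)
  have hW8 : L0 / n k < W / 8 := by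
    rw [hW, div_div, div_lt_div_iff₀ hnk0 (by positivity)]
    nlinarith
  have hg0 : (g 0).im = (γ 0).im := by rw [hgim, mul_zero]
  have hg1 : (g 1).im = (γ 0).im + W := by rw [hgim, mul_one]; exact hs1e
  have hbar := barrier hB0 hd hF' hg.continuousOn hW0 hg0 hg1 hgpos
    (fun s hs => (hglow s hs).trans hW8) hgM
  -- smallness on a disc
  set Q : ℝ := 64 * (M * Real.exp lam + (2 * M + 9 * B) + 4 * B) * Real.exp (-(lam / 32)) with hQ
  have hdisc : ∀ P : ℂ, (L0 + 1 / 2) / n k ≤ P.re → P.re ≤ (L0 + 3 / 2) / n k →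
      (γ 0).im + W / 2 - 1 / (2 * (n k : ℝ)) ≤ P.im →
      P.im ≤ (γ 0).im + W / 2 + 1 / (2 * (n k : ℝ)) → ‖hpSeries a' n P‖ ≤ Q := by
    intro P p1 p2 p3 p4
    have hW4 : 1 / (2 * (n k : ℝ)) ≤ W / 4 := by
      rw [hW, div_div, div_le_div_iff₀ (by positivity) (by positivity)]
      nlinarith
    apply two_const hB0 hd hF' hg.continuousOn hW0 hg0 hg1 hgpos hgM hbar hlam0
    · intro s hs
      have h1 := hglow s hs
      have h2 : L0 / n k < (L0 + 1 / 2) / n k := by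
        apply div_lt_div_of_pos_right _ hnk0
        linarith
      linarith
    · refine p2.trans ?_
      rw [hW, div_div, div_le_div_iff₀ (by positivity) (by positivity)]
      nlinarith
    · linarith
    · linarith
  set wc : ℂ := ((((L0 + 1) / n k + t : ℝ)) : ℂ) + (((γ 0).im + W / 2 : ℝ) : ℂ) * Complex.I with hwc
  have hwcre : wc.re = (L0 + 1) / n k + t := by simp [hwc]
  have hwcim : wc.im = (γ 0).im + W / 2 := by simp [hwc]
  have hheight : (n k : ℝ) * (wc.re - t) = L0 + 1 := by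
    rw [hwcre]; field_simp; ring
  have key := hloc n hn a t k hk hak wc (by rw [hheight]; linarith) (by rw [hheight]; exact hL1) Q
    (by
      intro ρ h1 h2
      refine ⟨(ρ : ℂ), by rw [Complex.norm_real, Real.norm_of_nonneg h1], ?_⟩
      have e : wc + (ρ : ℂ) = (wc + (ρ : ℂ) - t) + t := by ring
      rw [e, ← hsh]
      have r1 : (wc + (ρ : ℂ) - t).re = (L0 + 1) / n k + ρ := by
        simp only [Complex.sub_re, Complex.add_re, Complex.ofReal_re]
        rw [hwcre]; ring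
      have r2 : (wc + (ρ : ℂ) - t).im = (γ 0).im + W / 2 := by
        simp only [Complex.sub_im, Complex.add_im, Complex.ofReal_im]
        rw [hwcim]; ring
      have e3 : (1:ℝ) / (2 * (n k : ℝ)) = (1 / 2) / n k := by ring
      rw [e3] at h2
      apply hdisc
      · rw [r1]
        have : (L0 + 1 / 2) / n k ≤ (L0 + 1) / n k := by
          apply div_le_div_of_nonneg_right _ hnk0.le
          linarith
        linarith
      · rw [r1]
        have : (L0 + 3 / 2) / (n k : ℝ) = (L0 + 1) / n k + (1 / 2) / n k := by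
          rw [← add_div]; congr 1; ring
        linarith
      · rw [r2]
        have : 0 < 1 / (2 * (n k : ℝ)) := by positivity
        linarith
      · rw [r2]
        have : 0 < 1 / (2 * (n k : ℝ)) := by positivity
        linarith)
  -- conclude
  rw [← hμ] at key
  have hexp1 : Real.exp (-(lam / 32)) ≤ 1 := by
    rw [Real.exp_le_one_iff]
    linarith
  have hexp0 := Real.exp_pos (-(lam / 32))
  have hQ2 : Q ≤ 64 * (Real.exp lam + 2) * M + ε / 2 * μ := by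
    have e : Q = 64 * (Real.exp lam + 2) * M * Real.exp (-(lam / 32)) +
        (832 * Cq * Real.exp (-(lam / 32))) * μ := by
      rw [hQ, hB]; ring
    rw [e]
    have h5 : 64 * (Real.exp lam + 2) * M * Real.exp (-(lam / 32)) ≤
        64 * (Real.exp lam + 2) * M * 1 := by
      apply mul_le_mul_of_nonneg_left hexp1
      positivity
    have h6 : (832 * Cq * Real.exp (-(lam / 32))) * μ ≤ ε / 2 * μ :=
      mul_le_mul_of_nonneg_right hlam hμ0.le
    linarith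
  have h7 : ε * μ ≤ 128 * (Real.exp lam + 2) * M := by linarith
  rw [div_mul_eq_mul_div, div_le_iff₀ (by positivity)]
  linarith

end GapForcing
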