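import Pool.Agent.Lib.MP_c80ac4_an.CN.T3

/-! Bounded coefficients from paths at all scales. -/

namespace GapForcing

open Set Filter Topology

/-- **Bounded coefficients.** A Hadamard gap series which is bounded on paths of length comparable
with the height, starting at heights comparable with every small `y`, has bounded coefficients. -/
theorem coef_bounded_of_paths {q : ℝ} (hq : 1 < q) {n : ℕ → ℕ} (hn : HadamardGaps q n)
    {a : ℕ → ℂ} (hc : ConvergesInDisc a n) {κ D y0 M : ℝ} (hκ : 0 < κ) (hy0 : 0 < y0)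
    (H : ∀ y : ℝ, 0 < y → y < y0 → ∃ γ : ℝ → ℂ, Continuous γ ∧ (∀ s, 0 < (γ s).re) ∧
      (∀ s, ‖hpSeries a n (γ s)‖ ≤ M) ∧ y ≤ (γ 0).re ∧ (γ 0).re ≤ D * y ∧
      κ * y ≤ ‖γ 1 - γ 0‖) :
    ∃ A : ℝ, ∀ j, ‖a j‖ ≤ A := by
  by_contra hunb
  have hnj : ∀ j, j ≤ n j := fun j => hn.2.1.id_le j
  -- D is at least one
  have hD1 : 1 ≤ D := by
    obtain ⟨γ, -, -, -, h1, h2, -⟩ := H (y0 / 2) (by positivity) (by linarith)
    have h3 : 1 * (y0 / 2) ≤ D * (y0 / 2) := by rw [one_mul]; exact h1.trans h2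
    exact le_of_mul_le_mul_right h3 (by positivity)
  have hD0 : 0 < D := by linarith
  set κ' : ℝ := κ / D with hκ'
  have hκ'0 : 0 < κ' := by positivity
  set c : ℝ := min (κ' / 4) (1 / 2) with hcdef
  have hc0 : 0 < c := lt_min (by positivity) (by norm_num)
  have hc1 : c ≤ κ' / 4 := min_le_left _ _
  have hc2 : c ≤ 1 / 2 := min_le_right _ _
  obtain ⟨Lb, hLb2, hloc0⟩ := local_bound hq
  set L0 : ℝ := max Lb (1 / (2 * c)) with hL0
  have hL0b : Lb ≤ L0 := le_max_left _ _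
  have hL0c : 1 / 2 ≤ c * L0 := by
    have h1 : 1 / (2 * c) ≤ L0 := le_max_right _ _
    calc 1 / 2 = c * (1 / (2 * c)) := by field_simp
      _ ≤ c * L0 := by gcongr
  have hL02 : 2 ≤ L0 := hLb2.trans hL0b
  have hL00 : 0 < L0 := by linarith
  set R1 : ℝ := (9 * L0 + 8) / κ' with hR1
  have hR10 : 0 < R1 := by positivity
  set R2 : ℝ := R1 + L0 with hR2
  have hR20 : 0 < R2 := by positivity
  set L1 : ℝ := max (D * R2) (L0 + 1) with hL1
  obtain ⟨ε, hε, hloc1⟩ := hloc0 L1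
  have hloc : ∀ n : ℕ → ℕ, HadamardGaps q n → ∀ a : ℕ → ℂ, ∀ t : ℝ, ∀ k, IsMaxIdx a n t k →
      a k ≠ 0 → ∀ w : ℂ, L0 ≤ (n k : ℝ) * (w.re - t) → (n k : ℝ) * (w.re - t) ≤ L1 → ∀ M : ℝ,
      (∀ ρ : ℝ, 0 ≤ ρ → ρ ≤ 1 / (2 * (n k : ℝ)) →
        ∃ u : ℂ, ‖u‖ = ρ ∧ ‖hpSeries a n (w + u)‖ ≤ M) →
      ε * (‖a k‖ * Real.exp (-(n k : ℝ) * t)) ≤ M :=
    fun n hn a t k hk hak w h1 h2 M hM => hloc1 n hn a t k hk hak w (hL0b.trans h1) h2 M hM
  obtain ⟨ε', hε', hstrip⟩ := strip_case hq hL02 (le_max_right _ _) hε hloc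
  -- the bound
  obtain ⟨N0, hN0⟩ := exists_nat_gt (R2 / y0)
  set A0 : ℝ := ∑ j ∈ Finset.range N0, ‖a j‖ with hA0
  set A : ℝ := max (max (M / ε) (M / ε')) A0 with hA
  -- path bound at one point
  have hpoint : ∀ (γ : ℝ → ℂ) (y : ℝ), 0 < y → Continuous γ → (∀ s, 0 < (γ s).re) →
      (∀ s, ‖hpSeries a n (γ s)‖ ≤ M) → (γ 0).re ≤ D * y → κ * y ≤ ‖γ 1 - γ 0‖ →
      ∀ t : ℝ, 0 ≤ t → ∀ k, IsMaxIdx a n t k → ∀ s1 ∈ Icc (0:ℝ) 1,
      L0 ≤ (n k : ℝ) * ((γ s1).re - t) → (n k : ℝ) * ((γ s1).re - t) ≤ L1 →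
      ‖a k‖ * Real.exp (-(n k : ℝ) * t) ≤ A := by
    intro γ y hy hγ hpos hM hγD hγκ t ht k hk s1 hs1 hr1 hr2
    have hnk0 := hn.pos k
    set h : ℝ := (γ 0).re with hh
    have hhpos : 0 < h := hpos 0
    set h1 : ℝ := (γ s1).re with hh1
    have hh1pos : 0 < h1 := hpos s1
    have hκh : κ' * h ≤ ‖γ 1 - γ 0‖ := by
      refine le_trans ?_ hγκ
      rw [hκ', div_mul_eq_mul_div, div_le_iff₀ hD0]
      nlinarith
    -- a far point
    obtain ⟨s', hs', hfar⟩ : ∃ s' ∈ Icc (0:ℝ) 1, c * h1 ≤ ‖γ s' - γ s1‖ := by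
      rcases le_total h1 (2 * h) with hcase | hcase
      · have htri : ‖γ 1 - γ 0‖ ≤ ‖γ 1 - γ s1‖ + ‖γ 0 - γ s1‖ := by
          have : γ 1 - γ 0 = (γ 1 - γ s1) - (γ 0 - γ s1) := by ring
          rw [this]
          exact norm_sub_le _ _
        have hch : c * h1 ≤ κ' * h / 2 := by
          calc c * h1 ≤ κ' / 4 * (2 * h) := by gcongr
            _ = κ' * h / 2 := by ring
        rcases le_total (‖γ 0 - γ s1‖) (‖γ 1 - γ s1‖) with h5 | h5
        · exact ⟨1, ⟨zero_le_one, le_rfl⟩, by linarith⟩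
        · exact ⟨0, ⟨le_rfl, zero_le_one⟩, by linarith⟩
      · refine ⟨0, ⟨le_rfl, zero_le_one⟩, ?_⟩
        have h5 : |(γ 0 - γ s1).re| ≤ ‖γ 0 - γ s1‖ := Complex.abs_re_le_norm _
        have h6 : (γ 0 - γ s1).re = h - h1 := by rw [Complex.sub_re]
        rw [h6] at h5
        have h7 := neg_abs_le (h - h1)
        nlinarith
    have hrad : 1 / (2 * (n k : ℝ)) ≤ c * h1 := by
      rw [div_le_iff₀ (by positivity)]
      have h5 : L0 ≤ (n k : ℝ) * h1 := by nlinarith
      have h6 : c * L0 ≤ c * ((n k : ℝ) * h1) := by gcongr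
      nlinarith
    have key := hloc n hn a t k hk (hk.ne_zero hunb) (γ s1) hr1 hr2 M (by
      intro ρ h1' h2'
      have hd : ContinuousOn (fun s => ‖γ s - γ s1‖) (Icc 0 1) :=
        (hγ.sub continuous_const).norm.continuousOn
      have himg := isPreconnected_Icc.intermediate_value hs1 hs' hd
      obtain ⟨s, hs, hse⟩ := himg ⟨by simpa using h1', h2'.trans (hrad.trans hfar)⟩
      refine ⟨γ s - γ s1, hse, ?_⟩
      rw [add_sub_cancel]
      exact hM s)
    have h8 : ‖a k‖ * Real.exp (-(n k : ℝ) * t) ≤ M / ε := by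
      rw [le_div_iff₀ hε]
      linarith
    exact h8.trans ((le_max_left _ _).trans (le_max_left _ _))
  -- the claim at every scale
  have claim : ∀ y : ℝ, 0 < y → y < y0 → ∀ j, ‖a j‖ * Real.exp (-(n j : ℝ) * (D * y)) ≤ A := by
    intro y hy hyy
    obtain ⟨γ, hγ, hpos, hM, hγy, hγD, hγκ⟩ := H y hy hyy
    set h : ℝ := (γ 0).re with hh
    have hhpos : 0 < h := hpos 0
    obtain ⟨t, ht, hth, k1, k2, hk1, hk2, hk1L, hk2L⟩ := exists_two_idx hn hc hunb hhpos hL00
    -- it suffices to bound the maximal term at t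
    suffices hmain : ‖a k1‖ * Real.exp (-(n k1 : ℝ) * t) ≤ A by
      intro j
      refine le_trans ?_ ((hk1 j).trans hmain)
      apply mul_le_mul_of_nonneg_left _ (norm_nonneg _)
      apply Real.exp_le_exp.2
      have h5 := hn.pos j
      have h6 : t ≤ D * y := by linarith
      nlinarith
    have hk12 : ‖a k1‖ * Real.exp (-(n k1 : ℝ) * t) = ‖a k2‖ * Real.exp (-(n k2 : ℝ) * t) :=
      le_antisymm (hk2 k1) (hk1 k2)
    have hn1 := hn.pos k1
    have hn2 := hn.pos k2
    have hre : ContinuousOn (fun s => (γ s).re) (Icc 0 1) :=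
      (Complex.continuous_re.comp hγ).continuousOn
    have hm0 : (0:ℝ) ∈ Icc (0:ℝ) 1 := ⟨le_rfl, zero_le_one⟩
    by_cases hA2 : ∃ s ∈ Icc (0:ℝ) 1, (n k2 : ℝ) * ((γ s).re - t) ≤ L0
    · -- a point at the height of k2
      obtain ⟨s, hs, hsL⟩ := hA2
      have hd : ContinuousOn (fun s => (n k2 : ℝ) * ((γ s).re - t)) (Icc 0 1) :=
        continuousOn_const.mul (hre.sub continuousOn_const)
      have himg := isPreconnected_Icc.intermediate_value hs hm0 hd
      obtain ⟨s1, hs1, hs1e⟩ := himg ⟨hsL, hk2L⟩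
      simp only at hs1e
      rw [hk12]
      exact hpoint γ y hy hγ hpos hM hγD hγκ t ht.le k2 hk2 s1 hs1 hs1e.ge
        (by rw [hs1e]; exact (by linarith : L0 ≤ L0 + 1).trans (le_max_right _ _))
    push Not at hA2
    by_cases hA1 : ∃ s ∈ Icc (0:ℝ) 1, L0 ≤ (n k1 : ℝ) * ((γ s).re - t)
    · obtain ⟨s, hs, hsL⟩ := hA1
      have hd : ContinuousOn (fun s => (n k1 : ℝ) * ((γ s).re - t)) (Icc 0 1) :=
        continuousOn_const.mul (hre.sub continuousOn_const)
      have himg := isPreconnected_Icc.intermediate_value hm0 hs hd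
      obtain ⟨s1, hs1, hs1e⟩ := himg ⟨hk1L, hsL⟩
      simp only at hs1e
      exact hpoint γ y hy hγ hpos hM hγD hγκ t ht.le k1 hk1 s1 hs1 hs1e.ge
        (by rw [hs1e]; exact (by linarith : L0 ≤ L0 + 1).trans (le_max_right _ _))
    push Not at hA1
    -- the path stays in the strip
    have hst : ∀ s ∈ Icc (0:ℝ) 1, t < (γ s).re ∧ (n k1 : ℝ) * ((γ s).re - t) < L0 := by
      intro s hs
      refine ⟨?_, hA1 s hs⟩
      have h5 := hA2 s hs
      by_contra hcon
      push Not at hcon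
      nlinarith
    rcases le_total R1 ((n k1 : ℝ) * h) with hbig | hsmall
    · -- long path
      have hκh : κ' * h ≤ ‖γ 1 - γ 0‖ := by
        refine le_trans ?_ hγκ
        rw [hκ', div_mul_eq_mul_div, div_le_iff₀ hD0]
        nlinarith
      have hlen : (9 * L0 + 8) / n k1 ≤ ‖γ 1 - γ 0‖ := by
        refine le_trans ?_ hκh
        rw [div_le_iff₀ hn1]
        have h5 : κ' * R1 ≤ κ' * ((n k1 : ℝ) * h) := by gcongr
        have h6 : κ' * R1 = 9 * L0 + 8 := by rw [hR1]; field_simp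
        nlinarith
      have hredist : |(γ 1 - γ 0).re| ≤ L0 / n k1 := by
        have a0 := hst 0 hm0
        have a1 := hst 1 ⟨zero_le_one, le_rfl⟩
        rw [Complex.sub_re, abs_le, ]
        have b0 : (γ 0).re - t < L0 / n k1 := by rw [lt_div_iff₀ hn1]; linarith [a0.2]
        have b1 : (γ 1).re - t < L0 / n k1 := by rw [lt_div_iff₀ hn1]; linarith [a1.2]
        constructor <;> linarith [a0.1, a1.1]
      have himdist : (8 * L0 + 8) / n k1 ≤ |(γ 1 - γ 0).im| := by
        have h5 := Complex.norm_le_abs_re_add_abs_im (γ 1 - γ 0)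
        have h6 : (9 * L0 + 8) / (n k1 : ℝ) = (8 * L0 + 8) / n k1 + L0 / n k1 := by
          rw [← add_div]; congr 1; ring
        linarith
      have hfin : ε' * (‖a k1‖ * Real.exp (-(n k1 : ℝ) * t)) ≤ M := by
        rw [Complex.sub_im] at himdist
        rcases le_total (γ 0).im (γ 1).im with ho | ho
        · rw [abs_of_nonneg (by linarith)] at himdist
          exact hstrip n hn a t k1 hk1 (hk1.ne_zero hunb) γ hγ hst (by linarith) M
            (fun s _ => hM s)
        · rw [abs_of_nonpos (by linarith)] at himdist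
          have hmem : ∀ s ∈ Icc (0:ℝ) 1, 1 - s ∈ Icc (0:ℝ) 1 := by
            intro s hs
            exact ⟨by linarith [hs.2], by linarith [hs.1]⟩
          exact hstrip n hn a t k1 hk1 (hk1.ne_zero hunb) (fun s => γ (1 - s))
            (hγ.comp (by fun_prop)) (fun s hs => hst _ (hmem s hs))
            (by simp only [sub_zero, sub_self]; linarith) M (fun s _ => hM _)
      have h8 : ‖a k1‖ * Real.exp (-(n k1 : ℝ) * t) ≤ M / ε' := by
        rw [le_div_iff₀ hε']
        linarith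
      exact h8.trans ((le_max_right _ _).trans (le_max_left _ _))
    · -- another scale
      have hnt : (n k1 : ℝ) * t ≤ R1 := by
        refine le_trans ?_ hsmall
        gcongr
      rcases le_or_gt y0 (R2 / n k1) with hy' | hy'
      · -- small index
        have h5 : (k1 : ℝ) < N0 := by
          have h6 : (n k1 : ℝ) ≤ R2 / y0 := by
            rw [le_div_iff₀ hn1] at hy'
            rw [le_div_iff₀ hy0]
            linarith
          have h7 : (k1 : ℝ) ≤ n k1 := by exact_mod_cast hnj k1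
          linarith
        have h6 : k1 < N0 := by exact_mod_cast h5
        have h7 : ‖a k1‖ ≤ A0 := Finset.single_le_sum (f := fun j => ‖a j‖)
          (fun i _ => norm_nonneg _) (by simpa using h6)
        have h8 : Real.exp (-(n k1 : ℝ) * t) ≤ 1 := by
          rw [Real.exp_le_one_iff]
          nlinarith
        have h9 := norm_nonneg (a k1)
        have h10 : ‖a k1‖ * Real.exp (-(n k1 : ℝ) * t) ≤ A0 := by nlinarith
        exact h10.trans (le_max_right _ _)
      · obtain ⟨γ', hγ', hpos', hM', hγy', hγD', hγκ'⟩ := H (R2 / n k1) (by positivity) hy'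
        apply hpoint γ' (R2 / n k1) (by positivity) hγ' hpos' hM' hγD' hγκ' t ht.le k1 hk1 0 hm0
        · have h5 : (n k1 : ℝ) * (R2 / n k1) ≤ (n k1 : ℝ) * (γ' 0).re := by gcongr
          have h6 : (n k1 : ℝ) * (R2 / n k1) = R2 := by field_simp
          rw [mul_sub]
          linarith
        · have h5 : (n k1 : ℝ) * (γ' 0).re ≤ (n k1 : ℝ) * (D * (R2 / n k1)) := by gcongr
          have h6 : (n k1 : ℝ) * (D * (R2 / n k1)) = D * R2 := by field_simp
          have h7 : D * R2 ≤ L1 := le_max_left _ _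
          have h8 : 0 < (n k1 : ℝ) * t := by positivity
          rw [mul_sub]
          linarith
  -- let the scale tend to zero
  apply hunb
  refine ⟨A, fun j => ?_⟩
  have hlim : Tendsto (fun y : ℝ => ‖a j‖ * Real.exp (-(n j : ℝ) * (D * y))) (𝓝[>] 0)
      (𝓝 ‖a j‖) := by
    have hcont : Continuous fun y : ℝ => ‖a j‖ * Real.exp (-(n j : ℝ) * (D * y)) := by fun_prop
    have := (hcont.tendsto 0).mono_left (nhdsWithin_le_nhds (s := Set.Ioi 0))
    simpa using this
  apply le_of_tendsto hlim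
  have : Set.Ioo (0:ℝ) y0 ∈ 𝓝[>] (0:ℝ) := Ioo_mem_nhdsGT hy0
  filter_upwards [this] with y hy
  exact claim y hy.1 hy.2 j

end GapForcing
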